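import Pool.Agent.TEH.Targets

set_option autoImplicit false

namespace Pool.Agent.TEH

/-- Definitions as in the hand-in file. -/
def FinalStatement : Prop :=
  ∃ n₀ : ℕ, ∀ n : ℕ, n₀ ≤ n → ∀ D : Digraph (Fin n),
    (∀ v, ¬ D.Adj v v) →
    (∀ v, n ≤ 2 * {w | D.Adj v w}.ncard ∧ n ≤ 2 * {w | D.Adj w v}.ncard) →
    ∃ c d : ZMod n ≃ Fin n, (∀ i, D.Adj (c i) (c (i + 1))) ∧ (∀ i, D.Adj (d i) (d (i + 1))) ∧
      ∀ i j : ZMod n, ¬ (c i = d j ∧ c (i + 1) = d (j + 1))

theorem final (hZ : T_Z1) (hG : T_G1) : FinalStatement := by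
  classical
  obtain ⟨n0, hn0⟩ := hZ
  refine ⟨n0 + 1, fun n hn D hloop hdeg => ?_⟩
  let A : Finset (Fin n × Fin n) := Finset.univ.filter (fun p => D.Adj p.1 p.2)
  have hout : ∀ v, Fintype.card (Fin n) ≤ 2 * (outN A v).card := by
    intro v
    have h := (hdeg v).1
    have e : {w | D.Adj v w} = (↑(outN A v) : Set (Fin n)) := by
      ext w; simp [outN, A]
    rw [e, Set.ncard_coe_finset] at h
    simpa using h
  have hin : ∀ v, Fintype.card (Fin n) ≤ 2 * (inN A v).card := by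
    intro v
    have h := (hdeg v).2
    have e : {w | D.Adj w v} = (↑(inN A v) : Set (Fin n)) := by
      ext w; simp [inN, A]
    rw [e, Set.ncard_coe_finset] at h
    simpa using h
  have hl : Loopless A := by
    intro v hv
    exact hloop v (by simpa [A] using hv)
  obtain ⟨σ, τ, hσ, hτ, hd⟩ := hn0 (Fin n) A (by simp; omega) hl hout hin
  obtain ⟨c, hc⟩ := hG n A σ (by omega) hσ
  obtain ⟨d, hd'⟩ := hG n A τ (by omega) hτ
  refine ⟨c, d, fun i => ?_, fun i => ?_, ?_⟩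
  · have := hσ.1 (c i)
    rw [hc i] at this
    simpa [A] using this
  · have := hτ.1 (d i)
    rw [hd' i] at this
    simpa [A] using this
  · rintro i j ⟨h1, h2⟩
    rw [← hc i, ← hd' j, h1] at h2
    exact hd _ h2

end Pool.Agent.TEH
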