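import Pool.Agent.TEH.Targets

set_option autoImplicit false

/-!
# TEH, target A1: a cycle list through all vertices gives a Hamilton permutation
-/

namespace Pool.Agent.TEH

namespace A1_

/-- All elements of a list are in the cycle of the first one. -/
lemma sameCycle_first {V : Type} [DecidableEq V] (l : List V) (hnd : l.Nodup)
    (h0 : 0 < l.length) (v : V) (hv : v ∈ l) : l.formPerm.SameCycle l[0] v := by
  obtain ⟨i, hi, rfl⟩ := List.getElem_of_mem hv
  refine ⟨(i : ℤ), ?_⟩
  rw [zpow_natCast, List.formPerm_pow_apply_getElem l hnd i 0 h0]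
  simp only [zero_add, Nat.mod_eq_of_lt hi]

end A1_

/-- The target `T_A1`. -/
theorem p_A1 : T_A1 := by
  intro V _ _ D l hl hall
  obtain ⟨⟨hne, hnd, hch⟩, hclose⟩ := hl
  have h0 : 0 < l.length := List.length_pos_of_ne_nil hne
  refine ⟨l.formPerm, ?_, ?_⟩
  · intro v
    obtain ⟨i, hi, rfl⟩ := List.getElem_of_mem (hall v)
    rw [List.formPerm_apply_getElem _ hnd i hi]
    by_cases h : i + 1 < l.length
    · have h2 := List.isChain_iff_getElem.1 hch i h
      simpa only [Nat.mod_eq_of_lt h] using h2
    · have hi1 : i + 1 = l.length := by omega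
      refine hclose _ ?_ _ ?_
      · rw [Option.mem_def, List.getLast?_eq_getElem?]
        have h3 : l.length - 1 = i := by omega
        rw [h3]
        exact List.getElem?_eq_getElem hi
      · rw [Option.mem_def, List.head?_eq_getElem?]
        simp only [hi1, Nat.mod_self]
        exact List.getElem?_eq_getElem h0
  · intro u v
    exact (A1_.sameCycle_first l hnd h0 u (hall u)).symm.trans
      (A1_.sameCycle_first l hnd h0 v (hall v))

end Pool.Agent.TEH
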