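import Pool.Agent.TEH.Targets

set_option autoImplicit false

/-!
# TEH: rotation of a cycle list (target A2)
-/

namespace Pool.Agent.TEH

namespace A2_

/-- `b` follows `a` directly in the list `l`. -/
def Con {V : Type} (l : List V) (a b : V) : Prop := ∃ p q : List V, l = p ++ a :: b :: q

theorem con_append {V : Type} (A B : List V) (a b : V) :
    Con (A ++ B) a b ↔ Con A a b ∨ Con B a b ∨ (A.getLast? = some a ∧ B.head? = some b) := by
  constructor
  · rintro ⟨p, q, h⟩
    rcases List.append_eq_append_iff.mp h with ⟨s, h1, h2⟩ | ⟨s, h1, h2⟩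
    · right; left
      exact ⟨s, q, h2⟩
    · match s, h1, h2 with
      | [], h1, h2 =>
        right; left
        exact ⟨[], q, by simpa using h2.symm⟩
      | [u], h1, h2 =>
        right; right
        simp only [List.cons_append, List.nil_append, List.cons.injEq] at h2
        obtain ⟨rfl, h3⟩ := h2
        refine ⟨?_, ?_⟩
        · rw [h1]; simp
        · rw [← h3]; simp
      | u :: w :: r, h1, h2 =>
        left
        simp only [List.cons_append, List.cons.injEq] at h2
        obtain ⟨rfl, rfl, -⟩ := h2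
        exact ⟨p, r, h1⟩
  · rintro (⟨p, q, h⟩ | ⟨p, q, h⟩ | ⟨h1, h2⟩)
    · exact ⟨p, q ++ B, by rw [h]; simp⟩
    · exact ⟨A ++ p, q, by rw [h]; simp⟩
    · obtain ⟨A', rfl⟩ : ∃ A', A = A' ++ [a] := by
        have := List.getLast?_eq_some_iff.mp h1
        exact this
      obtain ⟨B', rfl⟩ : ∃ B', B = b :: B' := List.head?_eq_some_iff.mp h2
      exact ⟨A', B', by simp⟩

theorem cyc_append {V : Type} (A B : List V) (hA : A ≠ []) (hB : B ≠ []) (a b : V) :
    CycPair (A ++ B) a b ↔ (Con A a b ∨ Con B a b ∨ (A.getLast? = some a ∧ B.head? = some b)) ∨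
      (B.getLast? = some a ∧ A.head? = some b) := by
  have h1 : (A ++ B).getLast? = B.getLast? := List.getLast?_append_of_ne_nil A hB
  have h2 : (A ++ B).head? = A.head? := List.head?_append_of_ne_nil A hA
  unfold CycPair
  rw [h1, h2]
  exact or_congr (con_append A B a b) Iff.rfl

theorem cyc_comm {V : Type} (A B : List V) (hA : A ≠ []) (hB : B ≠ []) (a b : V) :
    CycPair (B ++ A) a b ↔ CycPair (A ++ B) a b := by
  rw [cyc_append A B hA hB, cyc_append B A hB hA]
  tauto

end A2_

open A2_

theorem p_A2 : T_A2 := by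
  intro V _ _ D c x y hc hxy
  rcases hxy with ⟨p, q, rfl⟩ | ⟨h1, h2⟩
  · have hsplit : p ++ x :: y :: q = (p ++ [x]) ++ (y :: q) := by simp
    rw [hsplit] at hc ⊢
    have hA : p ++ [x] ≠ [] := by simp
    have hB : y :: q ≠ [] := by simp
    obtain ⟨⟨-, hnd, hch⟩, hcl⟩ := hc
    obtain ⟨hcA, hcB, hAB⟩ := List.isChain_append.mp hch
    rw [List.getLast?_append_of_ne_nil _ hB, List.head?_append_of_ne_nil _ hA] at hcl
    refine ⟨(y :: q) ++ (p ++ [x]), ⟨⟨by simp, ?_, ?_⟩, ?_⟩, List.perm_append_comm, ?_, ?_, ?_⟩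
    · exact (List.perm_append_comm.nodup_iff).mp hnd
    · exact List.isChain_append.mpr ⟨hcB, hcA, hcl⟩
    · rw [List.getLast?_append_of_ne_nil _ hA, List.head?_append_of_ne_nil _ hB]
      exact hAB
    · simp
    · rw [List.getLast?_append_of_ne_nil _ hA]; simp
    · exact cyc_comm _ _ hA hB
  · exact ⟨c, hc, List.Perm.refl c, h2, h1, fun a b => Iff.rfl⟩

end Pool.Agent.TEH
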