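import Pool.Agent.TEH.Targets

set_option autoImplicit false

namespace Pool.Agent.TEH

theorem p_A3 (hA2 : T_A2) : T_A3 := by
  intro V _ _ D c P x y hc hxy hP hnd hs ht
  obtain ⟨c0, hc0, hperm, hhead, hlast, hpair⟩ := hA2 V D c x y hc hxy
  obtain ⟨⟨hne0, hnd0, hch0⟩, -⟩ := hc0
  obtain ⟨hPne, hPnd, hPch⟩ := hP
  have hp2 : (c0 ++ P).Perm (c ++ P) := hperm.append_right P
  refine ⟨c0 ++ P, ⟨⟨?_, ?_, ?_⟩, ?_⟩, hp2, ?_⟩
  · simp [hne0]
  · exact hp2.nodup_iff.mpr hnd
  · refine List.isChain_append.mpr ⟨hch0, hPch, ?_⟩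
    intro a ha b hb
    rw [hlast] at ha
    have hax : x = a := by simpa using ha
    subst hax
    exact hs b hb
  · rw [List.getLast?_append_of_ne_nil _ hPne, List.head?_append_of_ne_nil _ hne0, hhead]
    intro a ha b hb
    have hby : y = b := by simpa using hb
    subst hby
    exact ht a ha
  · intro a b hab hne
    have h := (hpair a b).mpr hab
    rcases h with ⟨p, q, h⟩ | ⟨h1, h2⟩
    · exact Or.inl ⟨p, q ++ P, by rw [h]; simp⟩
    · exfalso
      apply hne
      rw [hlast] at h1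
      rw [hhead] at h2
      have e1 : x = a := by simpa using h1
      have e2 : y = b := by simpa using h2
      rw [e1, e2]

end Pool.Agent.TEH
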