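import Pool.Agent.TEH.Targets

set_option autoImplicit false

/-!
# TEH, target A4: insertion of several paths into a cycle
-/

namespace Pool.Agent.TEH

open Finset

theorem p_A4 (hA3 : T_A3) : T_A4 := by
  intro V _ _ D P
  induction P with
  | nil =>
    intro c M hc _ _ _ _
    exact ⟨c, hc, by simp⟩
  | cons P0 Ps ih =>
    intro c M hc hM hP hnd hcnt
    have hP0 : PathL D P0 := hP P0 (by simp)
    have hne : P0 ≠ [] := hP0.1
    have hs : P0.head? = some (P0.head hne) := List.head?_eq_some_head hne
    have ht : P0.getLast? = some (P0.getLast hne) := List.getLast?_eq_some_getLast hne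
    have h1 := hcnt (P0.head hne) (P0.getLast hne)
    rw [List.length_cons] at h1
    have hpos : 0 < (M.filter (fun p => (p.1, P0.head hne) ∈ D ∧
        (P0.getLast hne, p.2) ∈ D)).card := by omega
    obtain ⟨⟨x, y⟩, hxy⟩ := Finset.card_pos.mp hpos
    rw [Finset.mem_filter] at hxy
    obtain ⟨hxyM, hxs, hty⟩ := hxy
    rw [List.flatten_cons, ← List.append_assoc] at hnd
    have hnd0 : (c ++ P0).Nodup := hnd.of_append_left
    obtain ⟨c', hc', hperm, hpair⟩ := hA3 V D c P0 x y hc (hM _ hxyM) hP0 hnd0
      (by
        intro s h
        rw [hs, Option.mem_some_iff] at h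
        rw [← h]
        exact hxs)
      (by
        intro t h
        rw [ht, Option.mem_some_iff] at h
        rw [← h]
        exact hty)
    have hperm2 : (c' ++ Ps.flatten).Perm (c ++ P0 ++ Ps.flatten) := hperm.append_right _
    obtain ⟨c'', hc'', hperm''⟩ := ih c' (M.erase (x, y)) hc'
      (by
        intro p hp
        rw [Finset.mem_erase] at hp
        exact hpair p.1 p.2 (hM p hp.2) hp.1)
      (fun p hp => hP p (List.mem_cons_of_mem _ hp))
      (hperm2.nodup_iff.mpr hnd)
      (by
        intro s t
        have h2 := hcnt s t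
        rw [List.length_cons] at h2
        rw [Finset.filter_erase]
        have h3 := Finset.pred_card_le_card_erase
          (s := M.filter (fun p => (p.1, s) ∈ D ∧ (t, p.2) ∈ D)) (a := (x, y))
        omega)
    refine ⟨c'', hc'', hperm''.trans ?_⟩
    rw [List.flatten_cons, ← List.append_assoc]
    exact hperm2

end Pool.Agent.TEH
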