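import Pool.Agent.TEH.Targets

set_option autoImplicit false

namespace Pool.Agent.TEH

namespace B0_

open Finset

/-- pairs that touch `U` -/
lemma touch {V : Type} [Fintype V] [DecidableEq V] (U : Finset V) :
    ((univ : Finset (V × V)).filter (fun p => ¬ (p.1 ∉ U ∧ p.2 ∉ U))).card ≤
      2 * U.card * Fintype.card V := by
  have h : (univ : Finset (V × V)).filter (fun p => ¬ (p.1 ∉ U ∧ p.2 ∉ U)) ⊆
      (U ×ˢ univ) ∪ (univ ×ˢ U) := by
    intro p hp
    simp only [mem_filter, mem_univ, true_and] at hp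
    simp only [mem_union, mem_product, mem_univ, and_true, true_and]
    by_contra hc
    push Not at hc
    exact hp ⟨hc.1, hc.2⟩
  refine (card_le_card h).trans ((card_union_le _ _).trans ?_)
  rw [card_product, card_product, card_univ]
  apply le_of_eq
  ring

end B0_

open Finset in
theorem p_B0 : T_B0 := by
  intro V _ _ ι _ J A ε U hε hJ hn hA hU
  set n : ℝ := (Fintype.card V : ℝ) with hndef
  have hn0 : 0 < n := by rw [hndef]; exact_mod_cast hn
  set G : Finset (V × V) := univ.filter (fun p => p.1 ∉ U ∧ p.2 ∉ U) with hG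
  have hJ0 : (0 : ℝ) < J.card := by exact_mod_cast hJ.card_pos
  -- each `A j` has many pairs in `G`
  have h1 : ∀ j ∈ J, ε / 2 * n ^ 2 ≤ ((G.filter (fun p => p ∈ A j)).card : ℝ) := by
    intro j hj
    have h2 : A j ⊆ (G.filter (fun p => p ∈ A j)) ∪
        (univ : Finset (V × V)).filter (fun p => ¬ (p.1 ∉ U ∧ p.2 ∉ U)) := by
      intro p hp
      simp only [hG, mem_union, mem_filter, mem_univ, true_and]
      by_cases h : p.1 ∉ U ∧ p.2 ∉ U
      · exact Or.inl ⟨h, hp⟩
      · exact Or.inr h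
    have h3 := (card_le_card h2).trans (card_union_le _ _)
    have h4 := h3.trans (Nat.add_le_add_left (B0_.touch U) _)
    have h5 : ((A j).card : ℝ) ≤ ((G.filter (fun p => p ∈ A j)).card : ℝ) +
        2 * (U.card : ℝ) * n := by
      rw [hndef]
      exact_mod_cast h4
    have h6 := hA j hj
    nlinarith
  -- double counting
  have hdc : ∑ j ∈ J, ((G.filter (fun p => p ∈ A j)).card : ℝ) =
      ∑ p ∈ G, ((J.filter (fun j => p ∈ A j)).card : ℝ) := by
    have h := Finset.sum_card_bipartiteAbove_eq_sum_card_bipartiteBelow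
      (s := J) (t := G) (r := fun j p => p ∈ A j)
    simp only [Finset.bipartiteAbove, Finset.bipartiteBelow] at h
    exact_mod_cast h
  have hlow : (J.card : ℝ) * (ε / 2 * n ^ 2) ≤
      ∑ j ∈ J, ((G.filter (fun p => p ∈ A j)).card : ℝ) := by
    rw [← nsmul_eq_mul]
    exact Finset.card_nsmul_le_sum _ _ _ h1
  have hGc : (G.card : ℝ) ≤ n ^ 2 := by
    have h : G.card ≤ (univ : Finset (V × V)).card := card_le_card (filter_subset _ _)
    rw [card_univ, Fintype.card_prod] at h
    have h' : (G.card : ℝ) ≤ (Fintype.card V : ℝ) * (Fintype.card V : ℝ) := by exact_mod_cast h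
    rw [hndef, sq]
    exact h'
  have hGne : G.Nonempty := by
    obtain ⟨j, hj⟩ := hJ
    by_contra hc
    rw [not_nonempty_iff_eq_empty] at hc
    have h := h1 j hj
    rw [hc] at h
    simp only [filter_empty, card_empty, Nat.cast_zero] at h
    have : 0 < ε / 2 * n ^ 2 := by positivity
    linarith
  by_contra hcon
  have hall : ∀ p ∈ G, ((J.filter (fun j => p ∈ A j)).card : ℝ) < ε / 2 * (J.card : ℝ) := by
    intro p hp
    by_contra hlt
    rw [not_lt] at hlt
    refine hcon ⟨p, ?_, ?_, ?_, hlt⟩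
    · exact (mem_filter.mp hp).2.1
    · exact (mem_filter.mp hp).2.2
    · have h0 : (0 : ℝ) < ((J.filter (fun j => p ∈ A j)).card : ℝ) :=
        lt_of_lt_of_le (by positivity) hlt
      have h00 : 0 < (J.filter (fun j => p ∈ A j)).card := by exact_mod_cast h0
      obtain ⟨j, hj⟩ := card_pos.mp h00
      exact ⟨j, (mem_filter.mp hj).1, (mem_filter.mp hj).2⟩
  have hlt : ∑ p ∈ G, ((J.filter (fun j => p ∈ A j)).card : ℝ) <
      ∑ _p ∈ G, ε / 2 * (J.card : ℝ) := Finset.sum_lt_sum_of_nonempty hGne hall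
  rw [Finset.sum_const, nsmul_eq_mul] at hlt
  have h7 : (G.card : ℝ) * (ε / 2 * (J.card : ℝ)) ≤ n ^ 2 * (ε / 2 * (J.card : ℝ)) :=
    mul_le_mul_of_nonneg_right hGc (by positivity)
  nlinarith [hdc, hlow, hlt, h7]

end Pool.Agent.TEH
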