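import Pool.Agent.TEH.Targets

/-!
# B1: one round of greedy steps
-/

set_option autoImplicit false

namespace Pool.Agent.TEH

open Finset

theorem p_B1 (hB0 : T_B0) : T_B1 := by
  intro V _ _ ι _ _ A ε k U hε hε1 hn hloop hA
  induction k with
  | zero =>
    intro _
    refine ⟨∅, by simp, ⟨by simp, by simp⟩, by simp, by simp, ?_⟩
    simp only [Finset.disjoint_empty_left, Finset.filter_true, pow_zero, one_mul]
    exact_mod_cast (Finset.card_univ (α := ι)).le
  | succ k ih =>
    intro hU
    have hU' : 4 * ((U.card : ℝ) + 2 * k) ≤ ε * (Fintype.card V : ℝ) := by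
      push_cast at hU
      linarith
    obtain ⟨M, hMk, hMm, hMU, hMA, hMc⟩ := ih hU'
    set J : Finset ι := Finset.univ.filter (fun j => Disjoint M (A j)) with hJ
    have hq0 : 0 ≤ 1 - ε / 2 := by linarith
    rcases J.eq_empty_or_nonempty with hJe | hJn
    · refine ⟨M, by omega, hMm, hMU, hMA, ?_⟩
      rw [← hJ, hJe]
      simp only [Finset.card_empty, Nat.cast_zero]
      positivity
    · set U1 : Finset V := U ∪ (M.image Prod.fst ∪ M.image Prod.snd) with hU1
      have hU1c : (U1.card : ℝ) ≤ (U.card : ℝ) + 2 * k := by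
        have h1 : U1.card ≤ U.card + ((M.image Prod.fst).card + (M.image Prod.snd).card) := by
          refine (Finset.card_union_le _ _).trans ?_
          exact Nat.add_le_add_left (Finset.card_union_le _ _) _
        have h2 : (M.image Prod.fst).card ≤ M.card := Finset.card_image_le
        have h3 : (M.image Prod.snd).card ≤ M.card := Finset.card_image_le
        have h4 : U1.card ≤ U.card + 2 * k := by omega
        exact_mod_cast h4
      have h4U : 4 * (U1.card : ℝ) ≤ ε * (Fintype.card V : ℝ) := by linarith
      obtain ⟨p, hp1, hp2, ⟨j0, hj0, hpj0⟩, hpc⟩ :=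
        hB0 V ι J A ε U1 hε hJn hn (fun j _ => hA j) h4U
      have hnU : ∀ x, x ∉ U1 → x ∉ U ∧ (∀ q ∈ M, x ≠ q.1) ∧ (∀ q ∈ M, x ≠ q.2) := by
        intro x hx
        rw [hU1, Finset.mem_union, Finset.mem_union, not_or, not_or] at hx
        refine ⟨hx.1, ?_, ?_⟩
        · intro q hq he
          exact hx.2.1 (Finset.mem_image.mpr ⟨q, hq, he.symm⟩)
        · intro q hq he
          exact hx.2.2 (Finset.mem_image.mpr ⟨q, hq, he.symm⟩)
      obtain ⟨ha1, ha2, ha3⟩ := hnU p.1 hp1
      obtain ⟨hb1, hb2, hb3⟩ := hnU p.2 hp2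
      refine ⟨insert p M, ?_, ⟨?_, ?_⟩, ?_, ?_, ?_⟩
      · exact (Finset.card_insert_le _ _).trans (by omega)
      · intro q hq
        rcases Finset.mem_insert.mp hq with rfl | hq
        · exact hloop j0 q hpj0
        · exact hMm.1 q hq
      · intro q hq q' hq' hne
        rcases Finset.mem_insert.mp hq with hqp | hqM
        · rcases Finset.mem_insert.mp hq' with hqp' | hqM'
          · exact absurd (hqp.trans hqp'.symm) hne
          · rw [hqp]
            exact ⟨ha2 q' hqM', ha3 q' hqM', hb2 q' hqM', hb3 q' hqM'⟩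
        · rcases Finset.mem_insert.mp hq' with hqp' | hqM'
          · rw [hqp']
            exact ⟨(ha2 q hqM).symm, (hb2 q hqM).symm, (ha3 q hqM).symm, (hb3 q hqM).symm⟩
          · exact hMm.2 q hqM q' hqM' hne
      · intro q hq
        rcases Finset.mem_insert.mp hq with rfl | hq
        · exact ⟨ha1, hb1⟩
        · exact hMU q hq
      · intro q hq
        rcases Finset.mem_insert.mp hq with rfl | hq
        · exact ⟨j0, hpj0⟩
        · exact hMA q hq
      · have hset : (Finset.univ.filter (fun j => Disjoint (insert p M) (A j))) =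
            J.filter (fun j => ¬ p ∈ A j) := by
          ext j
          rw [hJ, Finset.mem_filter, Finset.mem_filter, Finset.mem_filter,
            Finset.disjoint_insert_left]
          tauto
        have hsplit : (J.filter (fun j => p ∈ A j)).card + (J.filter (fun j => ¬ p ∈ A j)).card =
            J.card := Finset.card_filter_add_card_filter_not (s := J) (fun j => p ∈ A j)
        have hsplit' : ((J.filter (fun j => p ∈ A j)).card : ℝ) +
            ((J.filter (fun j => ¬ p ∈ A j)).card : ℝ) = (J.card : ℝ) := by exact_mod_cast hsplit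
        rw [hset]
        calc ((J.filter (fun j => ¬ p ∈ A j)).card : ℝ) ≤ (1 - ε / 2) * (J.card : ℝ) := by
              linarith
          _ ≤ (1 - ε / 2) * ((1 - ε / 2) ^ k * (Fintype.card ι : ℝ)) :=
              mul_le_mul_of_nonneg_left hMc hq0
          _ = (1 - ε / 2) ^ (k + 1) * (Fintype.card ι : ℝ) := by ring

end Pool.Agent.TEH
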