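import Pool.Agent.TEH.Targets

set_option autoImplicit false

/-!
# TEH: proof of T_B2, the `K` rounds of the greedy choice
-/

namespace Pool.Agent.TEH

namespace B2_

open Finset

/-- The vertices of a set of arcs. -/
lemma card_verts {V : Type} [DecidableEq V] (M : Finset (V × V)) :
    (M.image Prod.fst ∪ M.image Prod.snd).card ≤ 2 * M.card := by
  refine (card_union_le _ _).trans ?_
  have h1 := card_image_le (s := M) (f := Prod.fst)
  have h2 := card_image_le (s := M) (f := Prod.snd)
  omega

/-- The union of two vertex-disjoint matchings. -/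
lemma matching_union {V : Type} [DecidableEq V] (M M' : Finset (V × V)) (h : Matching M)
    (h' : Matching M')
    (hU : ∀ p ∈ M', p.1 ∉ M.image Prod.fst ∪ M.image Prod.snd ∧
      p.2 ∉ M.image Prod.fst ∪ M.image Prod.snd) : Matching (M ∪ M') := by
  have key : ∀ p ∈ M, ∀ q ∈ M', p.1 ≠ q.1 ∧ p.1 ≠ q.2 ∧ p.2 ≠ q.1 ∧ p.2 ≠ q.2 := by
    intro p hp q hq
    obtain ⟨a, b⟩ := hU q hq
    have i1 : p.1 ∈ M.image Prod.fst ∪ M.image Prod.snd :=
      mem_union_left _ (mem_image_of_mem _ hp)
    have i2 : p.2 ∈ M.image Prod.fst ∪ M.image Prod.snd :=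
      mem_union_right _ (mem_image_of_mem _ hp)
    refine ⟨?_, ?_, ?_, ?_⟩
    · intro e; exact a (e ▸ i1)
    · intro e; exact b (e ▸ i1)
    · intro e; exact a (e ▸ i2)
    · intro e; exact b (e ▸ i2)
  constructor
  · intro p hp
    rcases mem_union.mp hp with hp | hp
    · exact h.1 p hp
    · exact h'.1 p hp
  · intro p hp q hq hpq
    rcases mem_union.mp hp with hp | hp <;> rcases mem_union.mp hq with hq | hq
    · exact h.2 p hp q hq hpq
    · exact key p hp q hq
    · obtain ⟨a, b, c, d⟩ := key q hq p hp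
      exact ⟨a.symm, c.symm, b.symm, d.symm⟩
    · exact h'.2 p hp q hq hpq

/-- `r` rounds. -/
lemma rounds (hB1 : T_B1) (V : Type) [Fintype V] [DecidableEq V] (A : V × V → Finset (V × V))
    (ε : ℝ) (K k : ℕ) (h0 : 0 < ε) (h1 : ε ≤ 1) (hV : 0 < Fintype.card V)
    (hl : ∀ j, ∀ p ∈ A j, p.1 ≠ p.2)
    (hA : ∀ j, ε * (Fintype.card V : ℝ) ^ 2 ≤ ((A j).card : ℝ))
    (hk : 8 * (K : ℝ) * k ≤ ε * (Fintype.card V : ℝ))
    (hr : (1 - ε / 2) ^ k * (Fintype.card V : ℝ) ^ 2 < 1) :
    ∀ r : ℕ, r ≤ K → ∃ M : Finset (V × V), M.card ≤ r * k ∧ Matching M ∧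
      (∀ p ∈ M, ∃ j, p ∈ A j) ∧ ∀ j, r ≤ (M ∩ A j).card := by
  intro r
  induction r with
  | zero =>
    intro _
    refine ⟨∅, by simp, ⟨by simp, by simp⟩, by simp, fun j => Nat.zero_le _⟩
  | succ r ih =>
    intro hrK
    obtain ⟨M, hc, hM, hin, hhit⟩ := ih (by omega)
    have hU : 4 * (((M.image Prod.fst ∪ M.image Prod.snd).card : ℝ) + 2 * k) ≤
        ε * (Fintype.card V : ℝ) := by
      refine le_trans ?_ hk
      have a1 : ((M.image Prod.fst ∪ M.image Prod.snd).card : ℝ) ≤ 2 * (r * k) := by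
        have := (card_verts M).trans (Nat.mul_le_mul_left 2 hc)
        exact_mod_cast this
      have a2 : ((r : ℝ) + 1) * k ≤ K * k := by
        have : (r + 1) * k ≤ K * k := Nat.mul_le_mul_right k hrK
        exact_mod_cast this
      nlinarith
    obtain ⟨M', hc', hM', hU', hin', hno⟩ :=
      hB1 V (V × V) A ε k (M.image Prod.fst ∪ M.image Prod.snd) h0 h1 hV hl hA hU
    have hcard : (Fintype.card (V × V) : ℝ) = (Fintype.card V : ℝ) ^ 2 := by
      rw [Fintype.card_prod]
      push_cast
      ring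
    rw [hcard] at hno
    have hz : (univ.filter (fun j => Disjoint M' (A j))).card = 0 := by
      have h2 : ((univ.filter (fun j => Disjoint M' (A j))).card : ℝ) < 1 :=
        lt_of_le_of_lt hno hr
      have h3 : (univ.filter (fun j => Disjoint M' (A j))).card < 1 := by exact_mod_cast h2
      omega
    have hhit' : ∀ j, 1 ≤ (M' ∩ A j).card := by
      intro j
      have hj : ¬ Disjoint M' (A j) := by
        intro hd
        have : j ∈ univ.filter (fun j => Disjoint M' (A j)) := by
          simp only [mem_filter, mem_univ, true_and]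
          exact hd
        rw [Finset.card_eq_zero.mp hz] at this
        simp at this
      rw [not_disjoint_iff_nonempty_inter] at hj
      exact card_pos.mpr hj
    have hdis : Disjoint M M' := by
      rw [disjoint_left]
      intro p hp hp'
      exact (hU' p hp').1 (mem_union_left _ (mem_image_of_mem _ hp))
    refine ⟨M ∪ M', ?_, matching_union M M' hM hM' hU', ?_, ?_⟩
    · refine (card_union_le _ _).trans ?_
      calc M.card + M'.card ≤ r * k + k := Nat.add_le_add hc hc'
        _ = (r + 1) * k := by ring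
    · intro p hp
      rcases mem_union.mp hp with hp | hp
      · exact hin p hp
      · exact hin' p hp
    · intro j
      rw [union_inter_distrib_right, card_union_of_disjoint
        (disjoint_of_subset_left inter_subset_left
          (disjoint_of_subset_right inter_subset_left hdis))]
      have := hhit j
      have := hhit' j
      omega

end B2_

open B2_

theorem p_B2 (hB1 : T_B1) (hB3 : T_B3) : T_B2 := by
  intro ε δ K h0 hδ
  by_cases h1 : ε ≤ 1
  · have hK : (0 : ℝ) < (K : ℝ) + 1 := by positivity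
    obtain ⟨n1, hn1⟩ := hB3 (1 - ε / 2) (min δ (ε / 16) / ((K : ℝ) + 1)) (by linarith)
      (by linarith) (by positivity)
    refine ⟨max n1 1, ?_⟩
    intro V _ _ hn A hl hA
    have hV : 0 < Fintype.card V := lt_of_lt_of_le one_pos ((le_max_right _ _).trans hn)
    have hr := hn1 (Fintype.card V) ((le_max_left _ _).trans hn)
    set δ' := min δ (ε / 16) / ((K : ℝ) + 1) with hδ'
    have hδ0 : 0 < δ' := by positivity
    have hVr : (0 : ℝ) < Fintype.card V := by exact_mod_cast hV
    have hfl : (Nat.floor (δ' * (Fintype.card V : ℝ)) : ℝ) ≤ δ' * (Fintype.card V : ℝ) :=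
      Nat.floor_le (by positivity)
    have hmul : δ' * ((K : ℝ) + 1) = min δ (ε / 16) := by
      rw [hδ']
      field_simp
    have hb1 : δ' * ((K : ℝ) + 1) ≤ δ := hmul ▸ min_le_left _ _
    have hb2 : δ' * ((K : ℝ) + 1) ≤ ε / 16 := hmul ▸ min_le_right _ _
    have hKδ1 : (K : ℝ) * δ' ≤ δ := by nlinarith
    have hKδ2 : (K : ℝ) * δ' ≤ ε / 16 := by nlinarith
    have hK0 : (0 : ℝ) ≤ K := Nat.cast_nonneg K
    have hkk : (K : ℝ) * (Nat.floor (δ' * (Fintype.card V : ℝ)) : ℝ) ≤
        (K * δ') * (Fintype.card V : ℝ) := by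
      rw [mul_assoc]
      exact mul_le_mul_of_nonneg_left hfl hK0
    obtain ⟨M, hc, hM, hin, hhit⟩ := rounds hB1 V A ε K
      (Nat.floor (δ' * (Fintype.card V : ℝ))) h0 h1 hV hl hA
      (by
        have : (K * δ') * (Fintype.card V : ℝ) ≤ ε / 16 * (Fintype.card V : ℝ) :=
          mul_le_mul_of_nonneg_right hKδ2 hVr.le
        have h3 : 0 < ε * (Fintype.card V : ℝ) := by positivity
        linarith) hr K le_rfl
    refine ⟨M, ?_, hM, hin, hhit⟩
    have h5 : (M.card : ℝ) ≤ (K : ℝ) * (Nat.floor (δ' * (Fintype.card V : ℝ)) : ℝ) := by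
      exact_mod_cast hc
    refine h5.trans (hkk.trans ?_)
    exact mul_le_mul_of_nonneg_right hKδ1 hVr.le
  · refine ⟨1, ?_⟩
    intro V _ _ hn A hl hA
    exfalso
    have hV : 0 < Fintype.card V := hn
    obtain ⟨v⟩ := Fintype.card_pos_iff.mp hV
    have h2 := hA (v, v)
    have h3 : ((A (v, v)).card : ℝ) ≤ (Fintype.card V : ℝ) ^ 2 := by
      have := Finset.card_le_univ (A (v, v))
      rw [Fintype.card_prod] at this
      have h4 : ((A (v, v)).card : ℝ) ≤ ((Fintype.card V * Fintype.card V : ℕ) : ℝ) := by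
        exact_mod_cast this
      push_cast at h4
      nlinarith
    have hVr : (0 : ℝ) < (Fintype.card V : ℝ) ^ 2 := by positivity
    apply h1
    by_contra hε
    nlinarith

end Pool.Agent.TEH
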