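import Pool.Agent.TEH.Targets

set_option autoImplicit false

/-!
# TEH: exponential decay beats a square (target T_B3)
-/

open Filter

namespace Pool.Agent.TEH

theorem p_B3 : T_B3 := by
  intro r δ hr0 hr1 hδ
  have h1 : Tendsto (fun m : ℕ => (m : ℝ) ^ 2 * r ^ m) atTop (nhds 0) :=
    tendsto_pow_const_mul_const_pow_of_abs_lt_one 2 (by rw [abs_of_nonneg hr0]; exact hr1)
  have h2 : ∀ᶠ m : ℕ in atTop, (m : ℝ) ^ 2 * r ^ m < δ ^ 2 / 4 :=
    h1.eventually_lt_const (by positivity)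
  have h3 : Tendsto (fun n : ℕ => Nat.floor (δ * (n : ℝ))) atTop atTop :=
    tendsto_nat_floor_atTop.comp (tendsto_natCast_atTop_atTop.const_mul_atTop hδ)
  have h4 := (h3.eventually h2).and (h3.eventually (eventually_ge_atTop 1))
  obtain ⟨n0, hn0⟩ := eventually_atTop.1 h4
  refine ⟨n0, fun n hn => ?_⟩
  obtain ⟨h5, h6⟩ := hn0 n hn
  set m := Nat.floor (δ * (n : ℝ)) with hm
  have h7 : δ * (n : ℝ) < m + 1 := Nat.lt_floor_add_one _
  have h8 : (1 : ℝ) ≤ m := by exact_mod_cast h6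
  have hn : (0 : ℝ) ≤ n := Nat.cast_nonneg n
  have h9 : δ ^ 2 * (n : ℝ) ^ 2 ≤ 4 * (m : ℝ) ^ 2 := by
    have h10 : δ * (n : ℝ) ≤ 2 * m := by linarith
    have h11 : 0 ≤ δ * (n : ℝ) := by positivity
    nlinarith [mul_self_nonneg (δ * (n : ℝ)), mul_le_mul h10 h10 h11 (by positivity)]
  have hrm : 0 ≤ r ^ m := pow_nonneg hr0 m
  have h12 : δ ^ 2 * (r ^ m * (n : ℝ) ^ 2) < δ ^ 2 * 1 := by
    calc δ ^ 2 * (r ^ m * (n : ℝ) ^ 2) = r ^ m * (δ ^ 2 * (n : ℝ) ^ 2) := by ring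
      _ ≤ r ^ m * (4 * (m : ℝ) ^ 2) := by gcongr
      _ = 4 * ((m : ℝ) ^ 2 * r ^ m) := by ring
      _ < 4 * (δ ^ 2 / 4) := by linarith
      _ = δ ^ 2 * 1 := by ring
  exact lt_of_mul_lt_mul_left h12 (by positivity)

end Pool.Agent.TEH
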