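import Pool.Agent.TEH.Targets

set_option autoImplicit false

/-!
# TEH: C1, joining a matching to a cycle (helper21)
-/

namespace Pool.Agent.TEH

open Finset

namespace C1_

variable {V : Type} [Fintype V] [DecidableEq V]

/-- An arc `(a, b)` with `u → a`, `b → v` that avoids a small set. -/
lemma find {D : Finset (V × V)} {m : ℕ} {u v : V}
    (h : 8 * m * Fintype.card V < (D.filter (fun p => (u, p.1) ∈ D ∧ (p.2, v) ∈ D)).card)
    {U : Finset V} (hU : U.card ≤ 4 * m) :
    ∃ a b : V, (a, b) ∈ D ∧ (u, a) ∈ D ∧ (b, v) ∈ D ∧ a ∉ U ∧ b ∉ U := by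
  by_contra hc
  push Not at hc
  have hsub : D.filter (fun p => (u, p.1) ∈ D ∧ (p.2, v) ∈ D) ⊆
      (U ×ˢ (Finset.univ : Finset V)) ∪ ((Finset.univ : Finset V) ×ˢ U) := by
    intro p hp
    rw [Finset.mem_filter] at hp
    rw [Finset.mem_union, Finset.mem_product, Finset.mem_product]
    by_cases h1 : p.1 ∈ U
    · exact Or.inl ⟨h1, Finset.mem_univ _⟩
    · exact Or.inr ⟨Finset.mem_univ _, hc p.1 p.2 hp.1 hp.2.1 hp.2.2 h1⟩
  have h2 := (Finset.card_le_card hsub).trans (Finset.card_union_le _ _)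
  rw [Finset.card_product, Finset.card_product, Finset.card_univ] at h2
  have h3 : U.card * Fintype.card V ≤ 4 * m * Fintype.card V := Nat.mul_le_mul_right _ hU
  have h4 : Fintype.card V * U.card = U.card * Fintype.card V := Nat.mul_comm _ _
  have h5 : 8 * m * Fintype.card V = 4 * m * Fintype.card V + 4 * m * Fintype.card V := by ring
  omega

/-- The vertices of the arcs of `M`. -/
def vs (M : Finset (V × V)) : Finset V := M.image Prod.fst ∪ M.image Prod.snd

omit [Fintype V] in
lemma vs_card (M : Finset (V × V)) : (vs M).card ≤ 2 * M.card := by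
  have h1 := Finset.card_union_le (M.image Prod.fst) (M.image Prod.snd)
  have h2 := Finset.card_image_le (s := M) (f := Prod.fst)
  have h3 := Finset.card_image_le (s := M) (f := Prod.snd)
  rw [vs]
  omega

omit [Fintype V] in
lemma mem_vs1 {M : Finset (V × V)} {p : V × V} (h : p ∈ M) : p.1 ∈ vs M := by
  rw [vs, Finset.mem_union]
  exact Or.inl (Finset.mem_image_of_mem _ h)

omit [Fintype V] in
lemma mem_vs2 {M : Finset (V × V)} {p : V × V} (h : p ∈ M) : p.2 ∈ vs M := by
  rw [vs, Finset.mem_union]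
  exact Or.inr (Finset.mem_image_of_mem _ h)

/-- The paths through the arcs of a list. -/
lemma build {D M : Finset (V × V)} (hL : Loopless D) (hM : Matching M) (hMD : M ⊆ D)
    (h : ∀ u v : V, 8 * M.card * Fintype.card V <
      (D.filter (fun p => (u, p.1) ∈ D ∧ (p.2, v) ∈ D)).card) :
    ∀ (L : List (V × V)) (p : V × V), (p :: L).Nodup → (∀ q ∈ p :: L, q ∈ M) →
      ∃ (l : List V) (X : Finset V) (t : V), l.Nodup ∧ l.IsChain (fun a b => (a, b) ∈ D) ∧
        l.length + 2 ≤ 4 * (p :: L).length ∧ l.head? = some p.1 ∧ l.getLast? = some t ∧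
        X.card + 2 ≤ 2 * (p :: L).length ∧ (∀ x ∈ X, x ∉ vs M) ∧
        (∀ v ∈ l, v ∈ X ∨ ∃ q ∈ p :: L, v = q.1 ∨ v = q.2) ∧
        ∀ q ∈ p :: L, ∃ A B, l = A ++ q.1 :: q.2 :: B := by
  intro L
  induction L with
  | nil =>
    intro p hnd hp
    have hpM := hp p (by simp)
    refine ⟨[p.1, p.2], ∅, p.2, ?_, ?_, ?_, rfl, rfl, ?_, ?_, ?_, ?_⟩
    · simpa using hM.1 p hpM
    · simpa using hMD hpM
    · simp
    · simp
    · simp
    · intro v hv
      refine Or.inr ⟨p, by simp, ?_⟩
      simpa using hv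
    · intro q hq
      have : q = p := by simpa using hq
      subst this
      exact ⟨[], [], rfl⟩
  | cons q L ih =>
    intro p hnd hp
    have hnd' := List.nodup_cons.1 hnd
    obtain ⟨l, X, t, i1, i2, i3, i4, i5, i6, i7, i8, i9⟩ :=
      ih q hnd'.2 (fun r hr => hp r (List.mem_cons_of_mem _ hr))
    have hpM := hp p (by simp)
    have hlen : (p :: q :: L).length ≤ M.card := by
      have h1 : (p :: q :: L).toFinset ⊆ M := by
        intro r hr
        rw [List.mem_toFinset] at hr
        exact hp r hr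
      have h2 := Finset.card_le_card h1
      rwa [List.toFinset_card_of_nodup hnd] at h2
    have hUc : (vs M ∪ X).card ≤ 4 * M.card := by
      have h1 := Finset.card_union_le (vs M) X
      have h2 := vs_card M
      simp only [List.length_cons] at hlen i6
      omega
    obtain ⟨a, b, hab, hpa, hbq, haU, hbU⟩ := find (h p.2 q.1) hUc
    rw [Finset.mem_union, not_or] at haU hbU
    have key : ∀ v ∈ l, v ∈ X ∨ ∃ r ∈ q :: L, v = r.1 ∨ v = r.2 := i8
    have hal : ∀ v ∈ l, v ∈ vs M ∨ v ∈ X := by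
      intro v hv
      rcases key v hv with h1 | ⟨r, hr, h1 | h1⟩
      · exact Or.inr h1
      · exact Or.inl (h1 ▸ mem_vs1 (hp r (List.mem_cons_of_mem _ hr)))
      · exact Or.inl (h1 ▸ mem_vs2 (hp r (List.mem_cons_of_mem _ hr)))
    have ha : a ∉ l := fun hv => (hal a hv).elim haU.1 haU.2
    have hb : b ∉ l := fun hv => (hal b hv).elim hbU.1 hbU.2
    have hne : a ≠ b := by
      rintro rfl
      exact hL a hab
    have hpl : ∀ r ∈ q :: L, p ≠ r := by
      rintro r hr rfl
      exact hnd'.1 hr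
    have hp1 : p.1 ∉ l := by
      intro hv
      rcases key _ hv with h1 | ⟨r, hr, h1⟩
      · exact i7 _ h1 (mem_vs1 hpM)
      · have h2 := hM.2 p hpM r (hp r (List.mem_cons_of_mem _ hr)) (hpl r hr)
        rcases h1 with h1 | h1
        · exact h2.1 h1
        · exact h2.2.1 h1
    have hp2 : p.2 ∉ l := by
      intro hv
      rcases key _ hv with h1 | ⟨r, hr, h1⟩
      · exact i7 _ h1 (mem_vs2 hpM)
      · have h2 := hM.2 p hpM r (hp r (List.mem_cons_of_mem _ hr)) (hpl r hr)
        rcases h1 with h1 | h1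
        · exact h2.2.2.1 h1
        · exact h2.2.2.2 h1
    have hp12 := hM.1 p hpM
    have hp1a : p.1 ≠ a := fun e => haU.1 (e ▸ mem_vs1 hpM)
    have hp1b : p.1 ≠ b := fun e => hbU.1 (e ▸ mem_vs1 hpM)
    have hp2a : p.2 ≠ a := fun e => haU.1 (e ▸ mem_vs2 hpM)
    have hp2b : p.2 ≠ b := fun e => hbU.1 (e ▸ mem_vs2 hpM)
    obtain ⟨y, l', rfl⟩ : ∃ y l', l = y :: l' := by
      cases l with
      | nil => simp at i4
      | cons y l' => exact ⟨y, l', rfl⟩
    have hy : y = q.1 := by simpa using i4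
    refine ⟨p.1 :: p.2 :: a :: b :: y :: l', insert a (insert b X), t, ?_, ?_, ?_, rfl, ?_, ?_,
      ?_, ?_, ?_⟩
    · rw [List.nodup_cons, List.nodup_cons, List.nodup_cons, List.nodup_cons]
      refine ⟨?_, ?_, ?_, hb, i1⟩
      · rw [List.mem_cons, List.mem_cons, List.mem_cons, not_or, not_or, not_or]
        exact ⟨hp12, hp1a, hp1b, hp1⟩
      · rw [List.mem_cons, List.mem_cons, not_or, not_or]
        exact ⟨hp2a, hp2b, hp2⟩
      · rw [List.mem_cons, not_or]
        exact ⟨hne, ha⟩
    · rw [List.isChain_cons_cons, List.isChain_cons_cons, List.isChain_cons_cons,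
        List.isChain_cons_cons]
      exact ⟨hMD hpM, hpa, hab, hy ▸ hbq, i2⟩
    · simp only [List.length_cons] at i3 ⊢
      omega
    · simpa using i5
    · have h1 := Finset.card_insert_le a (insert b X)
      have h2 := Finset.card_insert_le b X
      simp only [List.length_cons] at i6 ⊢
      omega
    · intro x hx
      rcases Finset.mem_insert.1 hx with rfl | hx
      · exact haU.1
      rcases Finset.mem_insert.1 hx with rfl | hx
      · exact hbU.1
      · exact i7 x hx
    · intro v hv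
      rw [List.mem_cons, List.mem_cons, List.mem_cons, List.mem_cons] at hv
      rcases hv with h1 | h1 | h1 | h1 | h1
      · exact Or.inr ⟨p, by simp, Or.inl h1⟩
      · exact Or.inr ⟨p, by simp, Or.inr h1⟩
      · exact Or.inl (by rw [h1]; exact Finset.mem_insert_self _ _)
      · exact Or.inl (by
          rw [h1]
          exact Finset.mem_insert_of_mem (Finset.mem_insert_self _ _))
      · rcases key v h1 with h2 | ⟨r, hr, h2⟩
        · exact Or.inl (Finset.mem_insert_of_mem (Finset.mem_insert_of_mem h2))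
        · exact Or.inr ⟨r, List.mem_cons_of_mem _ hr, h2⟩
    · intro r hr
      rcases List.mem_cons.1 hr with rfl | hr
      · exact ⟨[], _, rfl⟩
      · obtain ⟨A, B, hAB⟩ := i9 r hr
        refine ⟨p.1 :: p.2 :: a :: b :: A, B, ?_⟩
        rw [hAB]
        rfl

end C1_

open C1_

theorem p_C1 : T_C1 := by
  intro V _ _ D M hL hM hMD hne h
  obtain ⟨p, L, hpL⟩ : ∃ p L, M.toList = p :: L := by
    cases hl : M.toList with
    | nil =>
      rw [Finset.toList_eq_nil] at hl
      exact absurd hl hne.ne_empty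
    | cons p L => exact ⟨p, L, rfl⟩
  have hnd : (p :: L).Nodup := hpL ▸ M.nodup_toList
  have hmem : ∀ q, q ∈ p :: L ↔ q ∈ M := by
    intro q
    rw [← hpL, Finset.mem_toList]
  have hlen : (p :: L).length = M.card := by rw [← hpL, Finset.length_toList]
  obtain ⟨l, X, t, i1, i2, i3, i4, i5, i6, i7, i8, i9⟩ :=
    build hL hM hMD h L p hnd (fun q hq => (hmem q).1 hq)
  have hUc : (vs M ∪ X).card ≤ 4 * M.card := by
    have h1 := Finset.card_union_le (vs M) X
    have h2 := vs_card M
    omega
  obtain ⟨a, b, hab, hta, hbp, haU, hbU⟩ := find (h t p.1) hUc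
  rw [Finset.mem_union, not_or] at haU hbU
  have hal : ∀ v ∈ l, v ∈ vs M ∨ v ∈ X := by
    intro v hv
    rcases i8 v hv with h1 | ⟨r, hr, h1 | h1⟩
    · exact Or.inr h1
    · exact Or.inl (h1 ▸ mem_vs1 ((hmem r).1 hr))
    · exact Or.inl (h1 ▸ mem_vs2 ((hmem r).1 hr))
  have ha : a ∉ l := fun hv => (hal a hv).elim haU.1 haU.2
  have hb : b ∉ l := fun hv => (hal b hv).elim hbU.1 hbU.2
  have hab' : a ≠ b := by
    rintro rfl
    exact hL a hab
  refine ⟨l ++ [a, b], ⟨⟨by simp, ?_, ?_⟩, ?_⟩, ?_, ?_⟩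
  · rw [List.nodup_append]
    refine ⟨i1, by simpa using hab', ?_⟩
    intro x hx y hy hxy
    rw [List.mem_cons, List.mem_singleton] at hy
    rcases hy with rfl | rfl
    · exact ha (hxy ▸ hx)
    · exact hb (hxy ▸ hx)
  · rw [List.isChain_append]
    refine ⟨i2, by simpa using hab, ?_⟩
    intro x hx y hy
    rw [i5] at hx
    simp only [Option.mem_def, Option.some.injEq, List.head?_cons] at hx hy
    rw [← hx, ← hy]
    exact hta
  · intro x hx y hy
    rw [List.head?_append, i4] at hy
    simp only [List.getLast?_append, List.getLast?_cons_cons, List.getLast?_singleton,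
      Option.some_or, Option.mem_def, Option.some.injEq] at hx hy
    rw [← hx, ← hy]
    exact hbp
  · rw [List.length_append]
    simp only [List.length_cons, List.length_nil] at i3 hlen ⊢
    omega
  · intro q hq
    obtain ⟨A, B, hAB⟩ := i9 q ((hmem q).2 hq)
    refine Or.inl ⟨A, B ++ [a, b], ?_⟩
    rw [hAB]
    simp

end Pool.Agent.TEH
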