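import Pool.Agent.TEH.Targets

/-! # TEH target D4: the counting argument for minimal path covers -/

set_option autoImplicit false

namespace Pool.Agent.TEH

open Finset

namespace D4_

/-- Many arcs from `X` to `Y`: some vertex of `Y` receives many. -/
theorem exists_many {V : Type} [Fintype V] [DecidableEq V] (D : Finset (V × V))
    (X Y : Finset V) (ε : ℝ) (hε : 0 < ε) (hn : 0 < (Fintype.card V : ℝ))
    (h : ε * (Fintype.card V : ℝ) ^ 2 ≤ (arcs D X Y : ℝ)) :
    ∃ b ∈ Y, ε * (Fintype.card V : ℝ) ≤ ((X.filter (fun a => (a, b) ∈ D)).card : ℝ) := by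
  by_contra hcon
  push Not at hcon
  have hle : arcs D X Y ≤ ∑ b ∈ Y, (X.filter (fun a => (a, b) ∈ D)).card := by
    unfold arcs
    rw [Finset.card_eq_sum_card_fiberwise (f := Prod.snd) (t := Y)
      (fun p hp => (Finset.mem_filter.1 hp).2.2)]
    refine Finset.sum_le_sum fun b _ => ?_
    refine Finset.card_le_card_of_injOn Prod.fst ?_ ?_
    · intro p hp
      have hp' := Finset.mem_filter.1 (Finset.mem_coe.1 hp)
      have hp2 := Finset.mem_filter.1 hp'.1
      refine Finset.mem_coe.2 (Finset.mem_filter.2 ⟨hp2.2.1, ?_⟩)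
      have : (p.1, b) = p := by rw [← hp'.2]
      rw [this]; exact hp2.1
    · intro p hp q hq hpq
      have hp' := (Finset.mem_filter.1 (Finset.mem_coe.1 hp)).2
      have hq' := (Finset.mem_filter.1 (Finset.mem_coe.1 hq)).2
      exact Prod.ext hpq (hp'.trans hq'.symm)
  have hpos : 0 < ε * (Fintype.card V : ℝ) ^ 2 := by positivity
  have hY : Y.Nonempty := by
    by_contra hY
    rw [Finset.not_nonempty_iff_eq_empty] at hY
    subst hY
    simp only [Finset.sum_empty, nonpos_iff_eq_zero] at hle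
    rw [hle] at h
    simp only [Nat.cast_zero] at h
    linarith
  have hlt : ((∑ b ∈ Y, (X.filter (fun a => (a, b) ∈ D)).card : ℕ) : ℝ) <
      (Y.card : ℝ) * (ε * (Fintype.card V : ℝ)) := by
    rw [Nat.cast_sum]
    calc ∑ b ∈ Y, ((X.filter (fun a => (a, b) ∈ D)).card : ℝ)
        < ∑ _b ∈ Y, ε * (Fintype.card V : ℝ) := Finset.sum_lt_sum_of_nonempty hY hcon
      _ = (Y.card : ℝ) * (ε * (Fintype.card V : ℝ)) := by
          rw [Finset.sum_const, nsmul_eq_mul]
  have hYn : (Y.card : ℝ) ≤ (Fintype.card V : ℝ) := by exact_mod_cast Finset.card_le_univ Y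
  have h1 : (Y.card : ℝ) * (ε * (Fintype.card V : ℝ)) ≤ ε * (Fintype.card V : ℝ) ^ 2 := by
    have := mul_le_mul_of_nonneg_right hYn (by positivity : 0 ≤ ε * (Fintype.card V : ℝ))
    nlinarith
  have h2 : (arcs D X Y : ℝ) ≤ ((∑ b ∈ Y, (X.filter (fun a => (a, b) ∈ D)).card : ℕ) : ℝ) := by
    exact_mod_cast hle
  linarith

end D4_

theorem p_D4 : T_D4 := by
  intro V _ _ D ε β T Nt Nt' Ns id pos pre suc hε hβ hβε hn hNE hinj hNt hNt' hNs cNt cNt' cNs
    hpre hsuc hfin
  have hnpos : 0 < (Fintype.card V : ℝ) := by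
    by_contra hcon
    push Not at hcon
    have : ε * (Fintype.card V : ℝ) ≤ 0 := mul_nonpos_of_nonneg_of_nonpos hε.le hcon
    linarith
  have injpre : Set.InjOn pre (↑(Nt ∪ Nt') : Set V) := by
    intro x hx x' hx' he
    have h1 := hpre x (Finset.mem_coe.1 hx)
    have h2 := hpre x' (Finset.mem_coe.1 hx')
    have hxT : x ∈ T := by
      rcases Finset.mem_union.1 (Finset.mem_coe.1 hx) with h | h
      · exact hNt h
      · exact hNt' h
    have hxT' : x' ∈ T := by
      rcases Finset.mem_union.1 (Finset.mem_coe.1 hx') with h | h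
      · exact hNt h
      · exact hNt' h
    refine hinj x hxT x' hxT' ?_ ?_
    · rw [← h1.2.1, ← h2.2.1, he]
    · rw [← h1.2.2.1, ← h2.2.2.1, he]
  have injsuc : Set.InjOn suc (↑Ns : Set V) := by
    intro y hy y' hy' he
    have h1 := hsuc y (Finset.mem_coe.1 hy)
    have h2 := hsuc y' (Finset.mem_coe.1 hy')
    refine hinj y (hNs (Finset.mem_coe.1 hy)) y' (hNs (Finset.mem_coe.1 hy')) ?_ ?_
    · rw [← h1.2.1, ← h2.2.1, he]
    · have h3 := h1.2.2
      have h4 := h2.2.2
      rw [he] at h3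
      omega
  set X1 := Nt.image pre with hX1
  set X3 := Nt'.image pre with hX3
  set Y := Ns.image suc with hY
  have cX1 : X1.card = Nt.card := Finset.card_image_of_injOn
    (injpre.mono (by intro x hx; exact Finset.mem_coe.2 (Finset.mem_union_left _ hx)))
  have cX3 : X3.card = Nt'.card := Finset.card_image_of_injOn
    (injpre.mono (by intro x hx; exact Finset.mem_coe.2 (Finset.mem_union_right _ hx)))
  have cY : Y.card = Ns.card := Finset.card_image_of_injOn injsuc
  have hdisj : Disjoint (X1 ∪ X3) Ns := by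
    rw [Finset.disjoint_left]
    intro a ha
    rcases Finset.mem_union.1 ha with h | h
    · obtain ⟨x, hx, rfl⟩ := Finset.mem_image.1 h
      exact (hpre x (Finset.mem_union_left _ hx)).2.2.2
    · obtain ⟨x, hx, rfl⟩ := Finset.mem_image.1 h
      exact (hpre x (Finset.mem_union_right _ hx)).2.2.2
  have hcu : (X1 ∪ X3).card + Ns.card ≤ Fintype.card V := by
    rw [← Finset.card_union_of_disjoint hdisj]
    exact Finset.card_le_univ _
  have hcd : (X1 \ X3).card + X3.card = (X1 ∪ X3).card := by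
    rw [← Finset.card_union_of_disjoint Finset.sdiff_disjoint, Finset.sdiff_union_self_eq_union]
  have hcuR : ((X1 ∪ X3).card : ℝ) + (Ns.card : ℝ) ≤ (Fintype.card V : ℝ) := by
    exact_mod_cast hcu
  have hcdR : ((X1 \ X3).card : ℝ) + (X3.card : ℝ) = ((X1 ∪ X3).card : ℝ) := by
    exact_mod_cast hcd
  have hsmall : ((X1 \ X3).card : ℝ) ≤ 2 * β * (Fintype.card V : ℝ) := by
    rw [cX3] at hcdR
    nlinarith
  have hβε' : β ≤ ε := by linarith
  have hmono : (1 / 2 - ε) * (Fintype.card V : ℝ) ≤ (1 / 2 - β) * (Fintype.card V : ℝ) :=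
    mul_le_mul_of_nonneg_right (by linarith) hnpos.le
  have harcs := hNE X1 Y (by rw [cX1]; linarith) (by rw [cY]; linarith)
  obtain ⟨b, hbY, hb⟩ := D4_.exists_many D X1 Y ε hε hnpos harcs
  obtain ⟨y, hy, rfl⟩ := Finset.mem_image.1 hbY
  set Ab := X1.filter (fun a => (a, suc y) ∈ D) with hAb
  have hne : Ab.Nonempty := by
    rw [← Finset.card_pos]
    have : (0 : ℝ) < (Ab.card : ℝ) := by
      have : 0 < ε * (Fintype.card V : ℝ) := by positivity
      linarith
    exact_mod_cast this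
  obtain ⟨a, haAb, hmax⟩ := Finset.exists_max_image Ab pos hne
  have hcer : ((X1 \ X3).card : ℝ) < ((Ab.erase a).card : ℝ) := by
    have h1 : ((Ab.erase a).card : ℝ) = (Ab.card : ℝ) - 1 := by
      rw [Finset.card_erase_of_mem haAb, Nat.cast_sub (Finset.card_pos.2 hne)]
      simp
    rw [h1]
    have h2 : 2 * β * (Fintype.card V : ℝ) ≤ ε * (Fintype.card V : ℝ) / 50 := by
      have := mul_le_mul_of_nonneg_right hβε hnpos.le
      linarith
    linarith
  have hcer' : (X1 \ X3).card < (Ab.erase a).card := by exact_mod_cast hcer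
  obtain ⟨a', ha', hna'⟩ := Finset.exists_mem_notMem_of_card_lt_card hcer'
  have ha'Ab := Finset.mem_of_mem_erase ha'
  have ha'ne := Finset.ne_of_mem_erase ha'
  have ha'X1 : a' ∈ X1 := (Finset.mem_filter.1 ha'Ab).1
  have ha'X3 : a' ∈ X3 := by
    by_contra h
    exact hna' (Finset.mem_sdiff.2 ⟨ha'X1, h⟩)
  obtain ⟨z, hz, hza'⟩ := Finset.mem_image.1 ha'X3
  obtain ⟨x, hx, hxa⟩ := Finset.mem_image.1 (Finset.mem_filter.1 haAb).1
  obtain ⟨x', hx', hxa'⟩ := Finset.mem_image.1 ha'X1
  have hA := hfin x hx y hy (by rw [hxa]; exact (Finset.mem_filter.1 haAb).2)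
  have hA' := hfin x' hx' y hy (by rw [hxa']; exact (Finset.mem_filter.1 ha'Ab).2)
  have hpz := hpre z (Finset.mem_union_right _ hz)
  have hpx := hpre x (Finset.mem_union_left _ hx)
  rw [hza'] at hpz
  rw [hxa] at hA hpx
  rw [hxa'] at hA'
  have hposne : pos a' ≠ pos a := by
    intro h
    exact ha'ne (hinj a' hpz.1 a hpx.1 (by rw [← hA'.1, hA.1]) h)
  have hle := hmax a' ha'Ab
  have h4 := hpz.2.2.1
  refine hA.2.2 z hz ?_ ?_ ?_
  · rw [← hpz.2.1, ← hA'.1, hA.1]
  · have := hA'.2.1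
    omega
  · omega

end Pool.Agent.TEH
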