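import Pool.Agent.TEH.Targets

set_option autoImplicit false

/-!
# TEH, target D5: coordinates in a minimal path cover
-/

namespace Pool.Agent.TEH

namespace D5_

variable {V : Type} [Fintype V] [DecidableEq V]

omit [Fintype V] [DecidableEq V] in
/-- A minimal cover stays minimal after a permutation of the list of paths. -/
theorem perm_min {D : Finset (V × V)} {S : Finset V} {P Q : List (List V)} (h : P.Perm Q)
    (hP : MinCov D S P) : MinCov D S Q := by
  refine ⟨⟨fun p hp => hP.1.1 p (h.mem_iff.2 hp), ?_, fun v => ?_⟩, fun Q' hQ' => ?_⟩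
  · exact (h.flatten.nodup_iff).1 hP.1.2.1
  · rw [← hP.1.2.2 v]
    exact (h.flatten.mem_iff).symm
  · rw [← h.length_eq]
    exact hP.2 Q' hQ'

omit [Fintype V] [DecidableEq V] in
theorem spl {Q : List V} {q : ℕ} {v : V} (h : Q[q]? = some v) :
    ∃ A B, Q = A ++ v :: B ∧ A.length = q := by
  obtain ⟨hq, rfl⟩ := List.getElem?_eq_some_iff.1 h
  refine ⟨Q.take q, Q.drop (q + 1), ?_, ?_⟩
  · simp
  · simp
    omega

omit [Fintype V] [DecidableEq V] in
theorem front {R : List (List V)} {i : ℕ} {Q : List V} (h : R[i]? = some Q) :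
    ∃ R', R.Perm (Q :: R') ∧ ∀ i' Q', i' ≠ i → R[i']? = some Q' →
      ∃ R'', R'.Perm (Q' :: R'') := by
  obtain ⟨hi, rfl⟩ := List.getElem?_eq_some_iff.1 h
  refine ⟨R.eraseIdx i, (List.getElem_cons_eraseIdx_perm hi).symm, ?_⟩
  intro i' Q' hne h'
  have hmem : Q' ∈ R.eraseIdx i := by
    rw [List.mem_eraseIdx_iff_getElem?]
    exact ⟨i', hne, h'⟩
  obtain ⟨s, u, hs⟩ := List.append_of_mem hmem
  exact ⟨s ++ u, by rw [hs]; exact List.perm_middle⟩

omit [Fintype V] [DecidableEq V] in
theorem uniq {R : List (List V)} (hR : R.flatten.Nodup) {i i' j j' : ℕ} {Q Q' : List V} {v : V}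
    (h1 : R[i]? = some Q) (h2 : Q[j]? = some v) (h3 : R[i']? = some Q')
    (h4 : Q'[j']? = some v) : i = i' ∧ j = j' := by
  rw [List.nodup_flatten] at hR
  obtain ⟨hi, rfl⟩ := List.getElem?_eq_some_iff.1 h1
  obtain ⟨hi', rfl⟩ := List.getElem?_eq_some_iff.1 h3
  have hij : i = i' := by
    by_contra hne
    have hd := List.pairwise_iff_getElem.1 hR.2
    rcases Nat.lt_or_gt_of_ne hne with hlt | hlt
    · exact (hd i i' hi hi' hlt) (List.mem_of_getElem? h2) (List.mem_of_getElem? h4)
    · exact (hd i' i hi' hi hlt) (List.mem_of_getElem? h4) (List.mem_of_getElem? h2)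
  subst hij
  refine ⟨rfl, ?_⟩
  obtain ⟨hj, -⟩ := List.getElem?_eq_some_iff.1 h2
  exact (List.getElem?_inj hj (hR.1 _ (List.getElem_mem hi))).1 (h2.trans h4.symm)

end D5_

open D5_

theorem p_D5 (hS1 : T_S1) (hS2 : T_S2) (hS3 : T_S3) (hS4 : T_S4) (hS5 : T_S5) : T_D5 := by
  intro V _ _ D S p1 p2 p3 t s t' R hL hM
  have hnd : R.flatten.Nodup := by
    have h1 := hM.1.2.1
    rw [List.flatten_cons, List.flatten_cons, List.flatten_cons] at h1
    exact (h1.of_append_right.of_append_right).of_append_right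
  -- coordinates
  have hloc : ∀ v, ∃ ij : ℕ × ℕ, v ∈ R.flatten →
      ∃ Q, R[ij.1]? = some Q ∧ Q[ij.2]? = some v := by
    intro v
    by_cases hv : v ∈ R.flatten
    · obtain ⟨Q, hQ, hvQ⟩ := List.mem_flatten.1 hv
      obtain ⟨i, hi⟩ := List.mem_iff_getElem?.1 hQ
      obtain ⟨j, hj⟩ := List.mem_iff_getElem?.1 hvQ
      exact ⟨(i, j), fun _ => ⟨Q, hi, hj⟩⟩
    · exact ⟨(0, 0), fun h => absurd h hv⟩
  choose f hf using hloc
  have hmem : ∀ i j Q v, R[i]? = some Q → Q[j]? = some v →
      v ∈ R.flatten ∧ (f v).1 = i ∧ (f v).2 = j := by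
    intro i j Q v h1 h2
    have hv : v ∈ R.flatten := List.mem_flatten.2
      ⟨Q, List.mem_of_getElem? h1, List.mem_of_getElem? h2⟩
    obtain ⟨Q', h3, h4⟩ := hf v hv
    exact ⟨hv, uniq hnd h3 h4 h1 h2⟩
  -- permutations
  have fA : ∀ (i : ℕ) (Q : List V), R[i]? = some Q → ∃ R' : List (List V),
      MinCov D S ((p1 ++ [t]) :: Q :: R') := by
    intro i Q h
    obtain ⟨R', hp, -⟩ := front h
    refine ⟨(s :: p2) :: (p3 ++ [t']) :: R', perm_min ?_ hM⟩
    rw [List.perm_iff_count]
    intro l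
    have := hp.count_eq l
    simp only [List.count_cons] at *
    omega
  have fB : ∀ (i : ℕ) (Q : List V), R[i]? = some Q → ∃ R' : List (List V),
      MinCov D S ((p3 ++ [t']) :: Q :: R') := by
    intro i Q h
    obtain ⟨R', hp, -⟩ := front h
    refine ⟨(s :: p2) :: (p1 ++ [t]) :: R', perm_min ?_ hM⟩
    rw [List.perm_iff_count]
    intro l
    have := hp.count_eq l
    simp only [List.count_cons] at *
    omega
  have fC : ∀ (i : ℕ) (Q : List V), R[i]? = some Q → ∃ R' : List (List V),
      MinCov D S (Q :: (s :: p2) :: R') := by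
    intro i Q h
    obtain ⟨R', hp, -⟩ := front h
    refine ⟨(p1 ++ [t]) :: (p3 ++ [t']) :: R', perm_min ?_ hM⟩
    rw [List.perm_iff_count]
    intro l
    have := hp.count_eq l
    simp only [List.count_cons] at *
    omega
  have fD : ∀ (i : ℕ) (Q : List V), R[i]? = some Q → ∃ R' : List (List V),
      MinCov D S ((p1 ++ [t]) :: (s :: p2) :: Q :: R') := by
    intro i Q h
    obtain ⟨R', hp, -⟩ := front h
    refine ⟨(p3 ++ [t']) :: R', perm_min ?_ hM⟩
    rw [List.perm_iff_count]
    intro l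
    have := hp.count_eq l
    simp only [List.count_cons] at *
    omega
  have fE : ∀ (i : ℕ) (Q : List V), R[i]? = some Q → ∃ R' : List (List V),
      MinCov D S ((p3 ++ [t']) :: (s :: p2) :: Q :: R') := by
    intro i Q h
    obtain ⟨R', hp, -⟩ := front h
    refine ⟨(p1 ++ [t]) :: R', perm_min ?_ hM⟩
    rw [List.perm_iff_count]
    intro l
    have := hp.count_eq l
    simp only [List.count_cons] at *
    omega
  have fG : ∀ (i : ℕ) (Q : List V), R[i]? = some Q → ∃ R' : List (List V),
      MinCov D S ((p1 ++ [t]) :: (s :: p2) :: (p3 ++ [t']) :: Q :: R') := by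
    intro i Q h
    obtain ⟨R', hp, -⟩ := front h
    refine ⟨R', perm_min ?_ hM⟩
    rw [List.perm_iff_count]
    intro l
    have := hp.count_eq l
    simp only [List.count_cons] at *
    omega
  have fH : ∀ (i i' : ℕ) (Q Q' : List V), i' ≠ i → R[i]? = some Q → R[i']? = some Q' →
      ∃ R' : List (List V), MinCov D S ((p1 ++ [t]) :: (s :: p2) :: Q :: Q' :: R') := by
    intro i i' Q Q' hne h h'
    obtain ⟨R', hp, hp2⟩ := front h
    obtain ⟨R'', hp'⟩ := hp2 i' Q' hne h'
    refine ⟨(p3 ++ [t']) :: R'', perm_min ?_ hM⟩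
    rw [List.perm_iff_count]
    intro l
    have h1 := hp.count_eq l
    have h2 := hp'.count_eq l
    simp only [List.count_cons] at *
    omega
  -- the predecessor
  have hpre : ∀ x ∈ R.flatten, ((t, x) ∈ D ∨ (t', x) ∈ D) → ∃ Q a, R[(f x).1]? = some Q ∧
      Q[(f x).2]? = some x ∧ 1 ≤ (f x).2 ∧ Q[(f x).2 - 1]? = some a ∧ (a, s) ∉ D := by
    intro x hx hd
    obtain ⟨Q, hQ, hxQ⟩ := hf x hx
    have hpos : 1 ≤ (f x).2 := by
      by_contra hlt
      have h0 : (f x).2 = 0 := by omega
      obtain ⟨A, B, hAB, hA⟩ := spl hxQ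
      rw [h0] at hA
      obtain rfl := List.eq_nil_of_length_eq_zero hA
      rw [List.nil_append] at hAB
      rcases hd with hd | hd
      · obtain ⟨R', hR'⟩ := fA _ Q hQ
        rw [hAB] at hR'
        exact hS1 V D S p1 B t x R' hR' hd
      · obtain ⟨R', hR'⟩ := fB _ Q hQ
        rw [hAB] at hR'
        exact hS1 V D S p3 B t' x R' hR' hd
    have hlt : (f x).2 - 1 < Q.length := by
      obtain ⟨h1, -⟩ := List.getElem?_eq_some_iff.1 hxQ
      omega
    have ha : Q[(f x).2 - 1]? = some Q[(f x).2 - 1] := List.getElem?_eq_getElem hlt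
    refine ⟨Q, Q[(f x).2 - 1], hQ, hxQ, hpos, ha, ?_⟩
    obtain ⟨A, B, hAB, hA⟩ := spl ha
    have hB : B[0]? = some x := by
      have h1 := hxQ
      rw [hAB, List.getElem?_append_right (by omega), hA,
        show (f x).2 - ((f x).2 - 1) = 0 + 1 from by omega, List.getElem?_cons_succ] at h1
      exact h1
    obtain ⟨A', B', hAB', hA'⟩ := spl hB
    obtain rfl := List.eq_nil_of_length_eq_zero hA'
    rw [List.nil_append] at hAB'
    rw [hAB'] at hAB
    rcases hd with hd | hd
    · obtain ⟨R', hR'⟩ := fD _ Q hQ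
      rw [hAB] at hR'
      exact hS2 V D S p1 p2 A B' t s _ x R' hR' hd
    · obtain ⟨R', hR'⟩ := fE _ Q hQ
      rw [hAB] at hR'
      exact hS2 V D S p3 p2 A B' t' s _ x R' hR' hd
  -- the successor
  have hsuc : ∀ y ∈ R.flatten, (y, s) ∈ D → ∃ Q b, R[(f y).1]? = some Q ∧
      Q[(f y).2]? = some y ∧ Q[(f y).2 + 1]? = some b := by
    intro y hy hd
    obtain ⟨Q, hQ, hyQ⟩ := hf y hy
    obtain ⟨h1, -⟩ := List.getElem?_eq_some_iff.1 hyQ
    have hlt : (f y).2 + 1 < Q.length := by
      by_contra hge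
      obtain ⟨A, B, hAB, hA⟩ := spl hyQ
      have hlen : Q.length = A.length + (B.length + 1) := by
        rw [hAB, List.length_append, List.length_cons]
      obtain rfl : B = [] := List.eq_nil_of_length_eq_zero (by omega)
      obtain ⟨R', hR'⟩ := fC _ Q hQ
      rw [hAB] at hR'
      exact hS1 V D S A p2 y s R' hR' hd
    exact ⟨Q, Q[(f y).2 + 1], hQ, hyQ, List.getElem?_eq_getElem hlt⟩
  refine ⟨fun v => (f v).1, fun v => (f v).2,
    fun x => ((R[(f x).1]?.getD [])[(f x).2 - 1]?).getD x,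
    fun y => ((R[(f y).1]?.getD [])[(f y).2 + 1]?).getD y, ?_, ?_, ?_, ?_⟩
  · intro u hu v hv h1 h2
    obtain ⟨Q, hQ, huQ⟩ := hf u hu
    obtain ⟨Q', hQ', hvQ⟩ := hf v hv
    simp only at h1 h2
    rw [h1, hQ'] at hQ
    obtain rfl := Option.some.inj hQ
    rw [h2, hvQ] at huQ
    exact (Option.some.inj huQ).symm
  · intro x hx hd
    obtain ⟨Q, a, hQ, hxQ, hpos, ha, has⟩ := hpre x hx hd
    have hpx : ((R[(f x).1]?.getD [])[(f x).2 - 1]?).getD x = a := by
      rw [hQ, Option.getD_some, ha, Option.getD_some]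
    simp only [hpx]
    obtain ⟨h1, h2, h3⟩ := hmem _ _ Q a hQ ha
    exact ⟨h1, h2, by rw [h3]; omega, has⟩
  · intro y hy hd
    obtain ⟨Q, b, hQ, hyQ, hb⟩ := hsuc y hy hd
    have hpy : ((R[(f y).1]?.getD [])[(f y).2 + 1]?).getD y = b := by
      rw [hQ, Option.getD_some, hb, Option.getD_some]
    simp only [hpy]
    exact hmem _ _ Q b hQ hb
  · intro x hx hdx y hy hdy hd
    obtain ⟨Q, a, hQ, hxQ, hpos, ha, has⟩ := hpre x hx (Or.inl hdx)
    have hpx : ((R[(f x).1]?.getD [])[(f x).2 - 1]?).getD x = a := by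
      rw [hQ, Option.getD_some, ha, Option.getD_some]
    obtain ⟨Q', b, hQ', hyQ, hb⟩ := hsuc y hy hdy
    have hpy : ((R[(f y).1]?.getD [])[(f y).2 + 1]?).getD y = b := by
      rw [hQ', Option.getD_some, hb, Option.getD_some]
    simp only [hpx, hpy] at hd ⊢
    obtain ⟨-, ha1, ha2⟩ := hmem _ _ Q a hQ ha
    obtain ⟨-, hb1, hb2⟩ := hmem _ _ Q' b hQ' hb
    -- same path
    have hid : (f y).1 = (f x).1 := by
      by_contra hne
      obtain ⟨R', hR'⟩ := fH _ _ Q Q' hne hQ hQ'
      obtain ⟨A, B, hAB, hA⟩ := spl ha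
      obtain ⟨A', B', hAB', hA'⟩ := spl hyQ
      have hB : B[0]? = some x := by
        have h1 := hxQ
        rw [hAB, List.getElem?_append_right (by omega), hA,
          show (f x).2 - ((f x).2 - 1) = 0 + 1 from by omega, List.getElem?_cons_succ] at h1
        exact h1
      have hB' : B'[0]? = some b := by
        have h1 := hb
        rw [hAB', List.getElem?_append_right (by omega), hA',
          show (f y).2 + 1 - (f y).2 = 0 + 1 from by omega, List.getElem?_cons_succ] at h1
        exact h1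
      obtain ⟨A2, B2, h2, hA2⟩ := spl hB
      obtain rfl := List.eq_nil_of_length_eq_zero hA2
      obtain ⟨A3, B3, h3, hA3⟩ := spl hB'
      obtain rfl := List.eq_nil_of_length_eq_zero hA3
      rw [List.nil_append] at h2 h3
      rw [hAB, hAB', h2, h3] at hR'
      exact hS3 V D S p1 p2 A B2 A' B3 t s a x y b R' hR' hdx hdy hd
    rw [hid, hQ] at hQ'
    obtain rfl := Option.some.inj hQ'
    have hlt : (f y).2 + 1 < (f x).2 - 1 := by
      by_contra hge
      rcases Nat.lt_or_ge ((f y).2 + 1) (f x).2 with h1 | h1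
      · -- equal: a loop
        have h2 : (f y).2 + 1 = (f x).2 - 1 := by omega
        rw [h2, ha] at hb
        obtain rfl := Option.some.inj hb
        exact hL a hd
      · rcases Nat.lt_or_ge (f x).2 ((f y).2 + 1) with h2 | h2
        · -- S4
          obtain ⟨A, B1, hAB, hA⟩ := spl ha
          have hget : ∀ j, B1[j]? = Q[(f x).2 + j]? := by
            intro j
            rw [hAB, List.getElem?_append_right (by omega), hA,
              show (f x).2 + j - ((f x).2 - 1) = j + 1 from by omega, List.getElem?_cons_succ]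
          have hbB : B1[(f y).2 + 1 - (f x).2]? = some b := by
            rw [hget, show (f x).2 + ((f y).2 + 1 - (f x).2) = (f y).2 + 1 from by omega]
            exact hb
          obtain ⟨C, B, hCB, hC⟩ := spl hbB
          obtain ⟨R', hR'⟩ := fD _ Q hQ
          rw [hAB, hCB] at hR'
          refine hS4 V D S p1 p2 A B C t s a x y b R' hR' ?_ ?_ hdx hdy hd
          · rw [List.head?_eq_getElem?]
            have h3 : B1[0]? = some x := by
              rw [hget, Nat.add_zero]
              exact hxQ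
            rw [hCB, List.getElem?_append_left (by omega)] at h3
            exact h3
          · rw [List.getLast?_eq_getElem?]
            have h3 : B1[C.length - 1]? = some y := by
              rw [hget, show (f x).2 + (C.length - 1) = (f y).2 from by omega]
              exact hyQ
            rw [hCB, List.getElem?_append_left (by omega)] at h3
            exact h3
        · -- y = a
          have h3 : (f y).2 = (f x).2 - 1 := by omega
          rw [h3, ha] at hyQ
          obtain rfl := Option.some.inj hyQ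
          exact has hdy
    refine ⟨by rw [hb1, ha1, hid], by rw [hb2, ha2]; exact hlt, ?_⟩
    intro z hz hdz hidz hz1 hz2
    rw [ha1] at hidz
    rw [hb2] at hz1
    rw [ha2] at hz2
    obtain ⟨Qz, hQz, hzQ⟩ := hf z hz
    rw [hidz, hQ] at hQz
    obtain rfl := Option.some.inj hQz
    obtain ⟨A, B1, hAB, hA⟩ := spl hyQ
    have hget : ∀ j, B1[j]? = Q[(f y).2 + 1 + j]? := by
      intro j
      rw [hAB, List.getElem?_append_right (by omega), hA,
        show (f y).2 + 1 + j - (f y).2 = j + 1 from by omega, List.getElem?_cons_succ]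
    have hxB : B1[(f x).2 - ((f y).2 + 1)]? = some x := by
      rw [hget, show (f y).2 + 1 + ((f x).2 - ((f y).2 + 1)) = (f x).2 from by omega]
      exact hxQ
    obtain ⟨C, B, hCB, hC⟩ := spl hxB
    have hgetC : ∀ j, j < C.length → C[j]? = Q[(f y).2 + 1 + j]? := by
      intro j hj
      rw [← hget, hCB, List.getElem?_append_left hj]
    have hzC : C[(f z).2 - ((f y).2 + 1)]? = some z := by
      rw [hgetC _ (by omega),
        show (f y).2 + 1 + ((f z).2 - ((f y).2 + 1)) = (f z).2 from by omega]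
      exact hzQ
    obtain ⟨C1, C2, hC12, hC1⟩ := spl hzC
    obtain ⟨R', hR'⟩ := fG _ Q hQ
    rw [hAB, hCB, hC12] at hR'
    refine hS5 V D S p1 p2 p3 A B C1 C2 t s t' a x y b z R' hR' ?_ ?_ hdx hdy hd hdz
    · rw [← hC12, List.head?_eq_getElem?, hgetC 0 (by omega), Nat.add_zero]
      exact hb
    · rw [← hC12, List.getLast?_eq_getElem?, hgetC _ (by omega),
        show (f y).2 + 1 + (C.length - 1) = (f x).2 - 1 from by omega]
      exact ha

end Pool.Agent.TEH
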