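import Pool.Agent.TEH.Targets

/-!
# TEH: the target T_D7
-/

set_option autoImplicit false

namespace Pool.Agent.TEH

namespace D7_

variable {V : Type} [Fintype V] [DecidableEq V]

theorem cov_exists (D : Finset (V × V)) (S : Finset V) : ∃ P, PCov D S P := by
  refine ⟨S.toList.map (fun v => [v]), ?_, ?_, ?_⟩
  · intro p hp
    rw [List.mem_map] at hp
    obtain ⟨v, -, rfl⟩ := hp
    refine ⟨by simp, by simp, ?_⟩
    exact List.IsChain.singleton v
  · have h : (S.toList.map (fun v => [v])).flatten = S.toList := by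
      induction S.toList with
      | nil => rfl
      | cons a l ih =>
        rw [List.map_cons, List.flatten_cons, ih]
        rfl
    rw [h]
    exact S.nodup_toList
  · intro v
    have h : (S.toList.map (fun v => [v])).flatten = S.toList := by
      induction S.toList with
      | nil => rfl
      | cons a l ih =>
        rw [List.map_cons, List.flatten_cons, ih]
        rfl
    rw [h, Finset.mem_toList]

theorem min_exists (D : Finset (V × V)) (S : Finset V) : ∃ P, MinCov D S P := by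
  classical
  have h : ∃ k, ∃ P, PCov D S P ∧ P.length = k := by
    obtain ⟨P, hP⟩ := cov_exists D S
    exact ⟨P.length, P, hP, rfl⟩
  obtain ⟨P, hP, hk⟩ := Nat.find_spec h
  refine ⟨P, hP, fun Q hQ => ?_⟩
  rw [hk]
  exact Nat.find_min' h ⟨Q, hQ, rfl⟩

theorem cov_perm {D : Finset (V × V)} {S : Finset V} {P Q : List (List V)} (h : P.Perm Q)
    (hP : PCov D S P) : PCov D S Q := by
  obtain ⟨h1, h2, h3⟩ := hP
  refine ⟨fun p hp => h1 p (h.symm.subset hp), (h.flatten.nodup_iff).1 h2, fun v => ?_⟩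
  rw [← h3 v]
  exact ⟨fun hv => h.flatten.symm.subset hv, fun hv => h.flatten.subset hv⟩

theorem min_perm {D : Finset (V × V)} {S : Finset V} {P Q : List (List V)} (h : P.Perm Q)
    (hP : MinCov D S P) : MinCov D S Q := by
  refine ⟨cov_perm h hP.1, fun R hR => ?_⟩
  rw [← h.length_eq]
  exact hP.2 R hR

theorem card_inter (A T : Finset V) (c g : ℝ)
    (hA : c ≤ (A.card : ℝ)) (hT : (Fintype.card V : ℝ) - (T.card : ℝ) ≤ g) :
    c - g ≤ ((A ∩ T).card : ℝ) := by
  have h1 : A.card ≤ (A ∩ T).card + (Finset.univ \ T).card := by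
    rw [← Finset.card_sdiff_add_card_inter A T, add_comm]
    have h2 : (A \ T).card ≤ (Finset.univ \ T).card :=
      Finset.card_le_card (Finset.sdiff_subset_sdiff (Finset.subset_univ _) (le_refl _))
    omega
  have h3 : (Finset.univ \ T).card + T.card = Fintype.card V := by
    rw [Finset.card_sdiff_add_card_eq_card (Finset.subset_univ _), Finset.card_univ]
  have h4 : ((Finset.univ \ T).card : ℝ) + (T.card : ℝ) = (Fintype.card V : ℝ) := by
    exact_mod_cast h3
  have h5 : (A.card : ℝ) ≤ ((A ∩ T).card : ℝ) + ((Finset.univ \ T).card : ℝ) := by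
    exact_mod_cast h1
  linarith

end D7_

theorem p_D7 (hD4 : T_D4) (hD5 : T_D5) (hD6 : T_D6) : T_D7 := by
  intro ε hε
  have hγ : 0 < ε / 1000 := by positivity
  refine ⟨⌈1 / (ε / 1000)⌉₊ + 2, ⌈100 / ε⌉₊, ?_⟩
  intro V _ _ D S hn hloop hS hout hin hNE
  obtain ⟨P, hP⟩ := D7_.min_exists D S
  refine ⟨P, hP.1, ?_⟩
  by_contra hK
  rw [not_le] at hK
  set n : ℝ := (Fintype.card V : ℝ) with hndef
  have hn1 : 100 / ε ≤ n := by
    have h1 : ((⌈100 / ε⌉₊ : ℕ) : ℝ) ≤ ((Fintype.card V : ℕ) : ℝ) := Nat.cast_le.2 hn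
    exact (Nat.le_ceil _).trans h1
  have hn2 : 100 ≤ ε * n := by
    rw [div_le_iff₀ hε] at hn1
    linarith
  have hn0 : 0 < n := by
    by_contra h
    rw [not_lt] at h
    have : ε * n ≤ 0 := mul_nonpos_of_nonneg_of_nonpos hε.le h
    linarith
  set L : ℕ := ⌊ε / 1000 * n⌋₊ with hL
  have hLn : (L : ℝ) ≤ ε / 1000 * n := Nat.floor_le (by positivity)
  have hLn' : ε / 1000 * n < (L : ℝ) + 1 := Nat.lt_floor_add_one _
  have hcount : Fintype.card V < (P.length - 2) * (L + 1) := by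
    have h1 : ⌈1 / (ε / 1000)⌉₊ + 1 ≤ P.length - 2 := by omega
    have h2 : (⌈1 / (ε / 1000)⌉₊ + 1) * (L + 1) ≤ (P.length - 2) * (L + 1) :=
      Nat.mul_le_mul_right _ h1
    refine lt_of_lt_of_le ?_ h2
    have h3 : (1 / (ε / 1000) : ℝ) ≤ (⌈1 / (ε / 1000)⌉₊ : ℝ) := Nat.le_ceil _
    have h4 : n < ((⌈1 / (ε / 1000)⌉₊ : ℝ) + 1) * ((L : ℝ) + 1) := by
      calc n = 1 / (ε / 1000) * (ε / 1000 * n) := by field_simp
        _ < ((⌈1 / (ε / 1000)⌉₊ : ℝ) + 1) * ((L : ℝ) + 1) := by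
          refine mul_lt_mul'' (by linarith) hLn' (by positivity) (by positivity)
    have h5 : ((Fintype.card V : ℕ) : ℝ) <
        (((⌈1 / (ε / 1000)⌉₊ + 1) * (L + 1) : ℕ) : ℝ) := by
      push_cast
      exact h4
    exact_mod_cast h5
  obtain ⟨P1, P2, P3, R, hperm, hl1, hl2, hl3⟩ :=
    hD6 V P L hP.1.2.1 (by omega) hcount
  have hM := D7_.min_perm hperm hP
  have hp1 : P1 ≠ [] := (hM.1.1 P1 (by simp)).1
  have hp2 : P2 ≠ [] := (hM.1.1 P2 (by simp)).1
  have hp3 : P3 ≠ [] := (hM.1.1 P3 (by simp)).1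
  obtain ⟨p1, t, rfl⟩ : ∃ p1 t, P1 = p1 ++ [t] :=
    ⟨P1.dropLast, P1.getLast hp1, (List.dropLast_append_getLast hp1).symm⟩
  obtain ⟨s, p2, rfl⟩ : ∃ s p2, P2 = s :: p2 := List.exists_cons_of_ne_nil hp2
  obtain ⟨p3, t', rfl⟩ : ∃ p3 t', P3 = p3 ++ [t'] :=
    ⟨P3.dropLast, P3.getLast hp3, (List.dropLast_append_getLast hp3).symm⟩
  obtain ⟨id, pos, pre, suc, hco, hpre, hsuc, hmain⟩ :=
    hD5 V D S p1 p2 p3 t s t' R hloop hM
  set T : Finset V := R.flatten.toFinset with hT
  have hmT : ∀ v, v ∈ T ↔ v ∈ R.flatten := fun v => by rw [hT, List.mem_toFinset]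
  have hTc : n - (T.card : ℝ) ≤ 4 * (ε / 1000 * n) := by
    have h1 : S ⊆ (p1 ++ [t]).toFinset ∪ (s :: p2).toFinset ∪ (p3 ++ [t']).toFinset ∪ T := by
      intro v hv
      have h2 := (hM.1.2.2 v).2 hv
      have h3 : v ∈ (p1 ++ [t]) ∨ v ∈ (s :: p2) ∨ v ∈ (p3 ++ [t']) ∨ v ∈ R.flatten := by
        simpa only [List.flatten_cons, List.mem_append (α := V)] using h2
      rw [Finset.mem_union, Finset.mem_union, Finset.mem_union, List.mem_toFinset,
        List.mem_toFinset, List.mem_toFinset, hmT]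
      rcases h3 with h2 | h2 | h2 | h2
      · exact Or.inl (Or.inl (Or.inl h2))
      · exact Or.inl (Or.inl (Or.inr h2))
      · exact Or.inl (Or.inr h2)
      · exact Or.inr h2
    have h2 : S.card ≤ L + L + L + T.card := by
      refine (Finset.card_le_card h1).trans ?_
      refine (Finset.card_union_le _ _).trans (Nat.add_le_add_right ?_ _)
      refine (Finset.card_union_le _ _).trans (Nat.add_le_add ?_ ?_)
      · refine (Finset.card_union_le _ _).trans (Nat.add_le_add ?_ ?_)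
        · exact (List.toFinset_card_le _).trans hl1
        · exact (List.toFinset_card_le _).trans hl2
      · exact (List.toFinset_card_le _).trans hl3
    have h3 : (S.card : ℝ) ≤ (L : ℝ) + L + L + T.card := by exact_mod_cast h2
    linarith
  have hNt : ∀ v, (1 / 2 - 5 * (ε / 1000)) * n ≤ (((outN D v) ∩ T).card : ℝ) := by
    intro v
    have h1 := D7_.card_inter (outN D v) T _ _ (hout v) hTc
    refine le_trans (le_of_eq ?_) h1
    ring
  have hNs : (1 / 2 - 5 * (ε / 1000)) * n ≤ (((inN D s) ∩ T).card : ℝ) := by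
    have h1 := D7_.card_inter (inN D s) T _ _ (hin s) hTc
    refine le_trans (le_of_eq ?_) h1
    ring
  have hmo : ∀ v x, x ∈ outN D v ∩ T ↔ (v, x) ∈ D ∧ x ∈ R.flatten := by
    intro v x
    rw [Finset.mem_inter, hmT]
    unfold outN
    rw [Finset.mem_filter]
    simp
  have hmi : ∀ x, x ∈ inN D s ∩ T ↔ (x, s) ∈ D ∧ x ∈ R.flatten := by
    intro x
    rw [Finset.mem_inter, hmT]
    unfold inN
    rw [Finset.mem_filter]
    simp
  refine hD4 V D ε (5 * (ε / 1000)) T (outN D t ∩ T) (outN D t' ∩ T) (inN D s ∩ T) id pos pre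
    suc hε (by positivity) (by linarith) hn2 hNE ?_ Finset.inter_subset_right
    Finset.inter_subset_right Finset.inter_subset_right (hNt t) (hNt t') hNs ?_ ?_ ?_
  · intro u hu v hv
    exact hco u ((hmT u).1 hu) v ((hmT v).1 hv)
  · intro x hx
    rw [Finset.mem_union, hmo, hmo] at hx
    have h1 : x ∈ R.flatten := by
      rcases hx with hx | hx
      · exact hx.2
      · exact hx.2
    have h2 : (t, x) ∈ D ∨ (t', x) ∈ D := by
      rcases hx with hx | hx
      · exact Or.inl hx.1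
      · exact Or.inr hx.1
    obtain ⟨h3, h4, h5, h6⟩ := hpre x h1 h2
    exact ⟨(hmT _).2 h3, h4, h5, fun h7 => h6 ((hmi _).1 h7).1⟩
  · intro y hy
    rw [hmi] at hy
    obtain ⟨h3, h4, h5⟩ := hsuc y hy.2 hy.1
    exact ⟨(hmT _).2 h3, h4, h5⟩
  · intro x hx y hy hxy
    rw [hmo] at hx
    rw [hmi] at hy
    obtain ⟨h3, h4, h5⟩ := hmain x hx.2 hx.1 y hy.2 hy.1 hxy
    refine ⟨h3, h4, fun z hz => ?_⟩
    rw [hmo] at hz
    exact h5 z hz.2 hz.1

end Pool.Agent.TEH
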