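import Pool.Agent.TEH.Targets

set_option autoImplicit false

/-!
# TEH, E1: a 1-factor containing `F` and otherwise typical arcs
-/

namespace Pool.Agent.TEH

namespace E1_

variable {V : Type} [Fintype V] [DecidableEq V]

/-- The candidate sets for Hall's theorem. -/
def tt (D F : Finset (V × V)) (o i : V → Bool) (v : V) : Finset V :=
  if v ∈ fo F then (fi F).filter (fun w => i w = o v ∧ (v, w) ∈ D)
  else Finset.univ.filter (fun w => (v, w) ∈ F)

theorem not_fo {F : Finset (V × V)} {v : V} (h : v ∉ fo F) : ∃ w, (v, w) ∈ F := by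
  unfold fo at h
  rw [Finset.mem_sdiff, not_and_not_right] at h
  have := h (Finset.mem_univ v)
  rw [Finset.mem_image] at this
  obtain ⟨⟨a, b⟩, hp, rfl⟩ := this
  exact ⟨b, hp⟩

theorem fst_not_fo {F : Finset (V × V)} {p : V × V} (h : p ∈ F) : p.1 ∉ fo F := by
  unfold fo
  rw [Finset.mem_sdiff, not_and_not_right]
  exact fun _ => Finset.mem_image_of_mem _ h

theorem snd_not_fi {F : Finset (V × V)} {p : V × V} (h : p ∈ F) : p.2 ∉ fi F := by
  unfold fi
  rw [Finset.mem_sdiff, not_and_not_right]
  exact fun _ => Finset.mem_image_of_mem _ h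

theorem hall0 {D F : Finset (V × V)} {o i : V → Bool} (hF : Lin F) (A : Finset V)
    (hA : ∀ v ∈ A, v ∉ fo F) : A.card ≤ (A.biUnion (tt D F o i)).card := by
  classical
  have hw : ∀ v : V, ∃ w, v ∈ A → (v, w) ∈ F := by
    intro v
    by_cases hv : v ∈ A
    · obtain ⟨w, hw⟩ := not_fo (hA v hv)
      exact ⟨w, fun _ => hw⟩
    · exact ⟨v, fun h => absurd h hv⟩
  choose f hf using hw
  refine Finset.card_le_card_of_injOn f ?_ ?_
  · intro v hv
    rw [Finset.mem_coe] at hv
    rw [Finset.mem_coe, Finset.mem_biUnion]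
    refine ⟨v, hv, ?_⟩
    unfold tt
    rw [if_neg (hA v hv)]
    simp only [Finset.mem_filter, Finset.mem_univ, true_and]
    exact hf v hv
  · intro v hv w hw h
    rw [Finset.mem_coe] at hv hw
    have := hF.2.1 _ (hf v hv) _ (hf w hw) h
    exact congrArg Prod.fst this

theorem hall1 {D F : Finset (V × V)} {o i : V → Bool} {m : ℕ}
    (h1 : ∀ v ∈ fo F, ((fi F).filter (fun w => i w = o v ∧ (v, w) ∉ D)).card ≤ m)
    (h2 : ∀ w ∈ fi F, ((fo F).filter (fun v => o v = i w ∧ (v, w) ∉ D)).card ≤ m)
    (h3 : ∀ c, ((fo F).filter (fun v => o v = c)).card = ((fi F).filter (fun w => i w = c)).card)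
    (h4 : ∀ c, 2 * m < ((fo F).filter (fun v => o v = c)).card)
    (c : Bool) (A : Finset V) (hA : ∀ v ∈ A, v ∈ fo F ∧ o v = c) :
    A.card ≤ (A.biUnion (tt D F o i)).card := by
  classical
  rcases A.eq_empty_or_nonempty with rfl | ⟨v, hv⟩
  · simp
  have hAsub : A ⊆ (fo F).filter (fun v => o v = c) := by
    intro x hx
    rw [Finset.mem_filter]
    exact hA x hx
  by_cases hc : A.card + m ≤ ((fo F).filter (fun v => o v = c)).card
  · have hvF := (hA v hv).1
    have hvc := (hA v hv).2
    have hs : tt D F o i v ⊆ A.biUnion (tt D F o i) :=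
      Finset.subset_biUnion_of_mem (tt D F o i) hv
    have hle := Finset.card_le_card hs
    have e1 : ((fi F).filter (fun w => i w = c)).card =
        (tt D F o i v).card + ((fi F).filter (fun w => i w = o v ∧ (v, w) ∉ D)).card := by
      unfold tt
      rw [if_pos hvF, ← Finset.card_union_of_disjoint]
      · congr 1
        ext w
        simp only [Finset.mem_filter, Finset.mem_union]
        rw [hvc]
        tauto
      · rw [Finset.disjoint_left]
        intro w hw hw'
        rw [Finset.mem_filter] at hw hw'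
        exact hw'.2.2 hw.2.2
    have e2 := h1 v hvF
    have e3 := h3 c
    omega
  · have hall : (fi F).filter (fun w => i w = c) ⊆ A.biUnion (tt D F o i) := by
      intro w hw
      rw [Finset.mem_filter] at hw
      by_contra hcon
      have hsub : A ⊆ (fo F).filter (fun v => o v = i w ∧ (v, w) ∉ D) := by
        intro x hx
        rw [Finset.mem_filter]
        refine ⟨(hA x hx).1, by rw [(hA x hx).2, hw.2], fun hxD => hcon ?_⟩
        rw [Finset.mem_biUnion]
        refine ⟨x, hx, ?_⟩
        unfold tt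
        rw [if_pos (hA x hx).1, Finset.mem_filter]
        exact ⟨hw.1, by rw [(hA x hx).2, hw.2], hxD⟩
      have e1 := Finset.card_le_card hsub
      have e2 := h2 w hw.1
      have e3 := h4 c
      omega
    have e1 := Finset.card_le_card hall
    have e2 := Finset.card_le_card hAsub
    have e3 := h3 c
    omega

theorem hall {D F : Finset (V × V)} {o i : V → Bool} {m : ℕ} (hF : Lin F)
    (h1 : ∀ v ∈ fo F, ((fi F).filter (fun w => i w = o v ∧ (v, w) ∉ D)).card ≤ m)
    (h2 : ∀ w ∈ fi F, ((fo F).filter (fun v => o v = i w ∧ (v, w) ∉ D)).card ≤ m)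
    (h3 : ∀ c, ((fo F).filter (fun v => o v = c)).card = ((fi F).filter (fun w => i w = c)).card)
    (h4 : ∀ c, 2 * m < ((fo F).filter (fun v => o v = c)).card) (A : Finset V) :
    A.card ≤ (A.biUnion (tt D F o i)).card := by
  classical
  set A0 := A.filter (fun v => v ∉ fo F) with hA0
  set A1 := A.filter (fun v => v ∈ fo F ∧ o v = false) with hA1
  set A2 := A.filter (fun v => v ∈ fo F ∧ o v = true) with hA2
  have c0 : A0.card ≤ (A0.biUnion (tt D F o i)).card := by
    apply hall0 hF
    intro v hv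
    rw [hA0, Finset.mem_filter] at hv
    exact hv.2
  have c1 : A1.card ≤ (A1.biUnion (tt D F o i)).card := by
    apply hall1 h1 h2 h3 h4 false
    intro v hv
    rw [hA1, Finset.mem_filter] at hv
    exact hv.2
  have c2 : A2.card ≤ (A2.biUnion (tt D F o i)).card := by
    apply hall1 h1 h2 h3 h4 true
    intro v hv
    rw [hA2, Finset.mem_filter] at hv
    exact hv.2
  have hu : A = A0 ∪ (A1 ∪ A2) := by
    ext v
    simp only [hA0, hA1, hA2, Finset.mem_union, Finset.mem_filter]
    constructor
    · intro hv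
      by_cases hvF : v ∈ fo F
      · rcases hb : o v with _ | _
        · exact Or.inr (Or.inl ⟨hv, hvF, rfl⟩)
        · exact Or.inr (Or.inr ⟨hv, hvF, rfl⟩)
      · exact Or.inl ⟨hv, hvF⟩
    · rintro (h | h | h) <;> exact h.1
  have b0 : ∀ w ∈ A0.biUnion (tt D F o i), w ∉ fi F := by
    intro w hw
    rw [Finset.mem_biUnion] at hw
    obtain ⟨v, hv, hw⟩ := hw
    rw [hA0, Finset.mem_filter] at hv
    unfold tt at hw
    rw [if_neg hv.2, Finset.mem_filter] at hw
    exact snd_not_fi hw.2
  have b1 : ∀ w ∈ A1.biUnion (tt D F o i), w ∈ fi F ∧ i w = false := by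
    intro w hw
    rw [Finset.mem_biUnion] at hw
    obtain ⟨v, hv, hw⟩ := hw
    rw [hA1, Finset.mem_filter] at hv
    unfold tt at hw
    rw [if_pos hv.2.1, Finset.mem_filter] at hw
    exact ⟨hw.1, by rw [hw.2.1, hv.2.2]⟩
  have b2 : ∀ w ∈ A2.biUnion (tt D F o i), w ∈ fi F ∧ i w = true := by
    intro w hw
    rw [Finset.mem_biUnion] at hw
    obtain ⟨v, hv, hw⟩ := hw
    rw [hA2, Finset.mem_filter] at hv
    unfold tt at hw
    rw [if_pos hv.2.1, Finset.mem_filter] at hw
    exact ⟨hw.1, by rw [hw.2.1, hv.2.2]⟩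
  have d12 : Disjoint (A1.biUnion (tt D F o i)) (A2.biUnion (tt D F o i)) := by
    rw [Finset.disjoint_left]
    intro w hw hw'
    have := (b1 w hw).2
    rw [(b2 w hw').2] at this
    exact absurd this (by decide)
  have d0 : Disjoint (A0.biUnion (tt D F o i))
      (A1.biUnion (tt D F o i) ∪ A2.biUnion (tt D F o i)) := by
    rw [Finset.disjoint_left]
    intro w hw hw'
    rw [Finset.mem_union] at hw'
    rcases hw' with h | h
    · exact b0 w hw (b1 w h).1
    · exact b0 w hw (b2 w h).1
  have hle : A.card ≤ A0.card + (A1.card + A2.card) := by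
    conv_lhs => rw [hu]
    exact (Finset.card_union_le _ _).trans (Nat.add_le_add_left (Finset.card_union_le _ _) _)
  have hge : (A0.biUnion (tt D F o i)).card +
      ((A1.biUnion (tt D F o i)).card + (A2.biUnion (tt D F o i)).card) ≤
      (A.biUnion (tt D F o i)).card := by
    rw [← Finset.card_union_of_disjoint d12, ← Finset.card_union_of_disjoint d0]
    apply Finset.card_le_card
    conv_rhs => rw [hu]
    rw [Finset.union_biUnion, Finset.union_biUnion]
  omega

end E1_

theorem p_E1 : T_E1 := by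
  classical
  intro V _ _ D F o i m hF h1 h2 h3 h4
  obtain ⟨f, hf, hft⟩ := (Finset.all_card_le_biUnion_card_iff_exists_injective
    (E1_.tt D F o i)).1 (E1_.hall hF h1 h2 h3 h4)
  refine ⟨Equiv.ofBijective f (Finite.injective_iff_bijective.1 hf), ?_, ?_⟩
  · intro p hp
    have h := hft p.1
    unfold E1_.tt at h
    rw [if_neg (E1_.fst_not_fo hp), Finset.mem_filter] at h
    have := hF.1 _ h.2 p hp rfl
    exact congrArg Prod.snd this
  · intro v hv
    have h := hft v
    unfold E1_.tt at h
    rw [if_pos hv, Finset.mem_filter] at h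
    exact ⟨h.2.2, h.2.1⟩

end Pool.Agent.TEH
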