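import Pool.Agent.TEH.Targets

set_option autoImplicit false

namespace Pool.Agent.TEH

namespace E2_

theorem aux {V : Type} [Fintype V] [DecidableEq V] (σ : Equiv.Perm V) (a b : V)
    (hab : ¬ σ.SameCycle a b) (x : V) (hx : σ.SameCycle b x) :
    (σ * Equiv.swap a b).SameCycle a x := by
  have key : ∀ k : ℕ, (σ * Equiv.swap a b).SameCycle a ((σ ^ (k + 1)) b) := by
    intro k
    induction k with
    | zero =>
      have h : (σ * Equiv.swap a b) a = (σ ^ (0 + 1)) b := by
        simp [Equiv.Perm.mul_apply]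
      rw [← h]
      exact (Equiv.Perm.sameCycle_apply_right).2 (Equiv.Perm.SameCycle.refl _ _)
    | succ k ih =>
      have h1 : (σ ^ (k + 1 + 1)) b = σ ((σ ^ (k + 1)) b) := by
        rw [pow_succ' σ (k + 1), Equiv.Perm.mul_apply]
      by_cases hb : (σ ^ (k + 1)) b = b
      · have h : (σ * Equiv.swap a b) a = (σ ^ (k + 1 + 1)) b := by
          rw [h1, hb]
          simp [Equiv.Perm.mul_apply]
        rw [← h]
        exact (Equiv.Perm.sameCycle_apply_right).2 (Equiv.Perm.SameCycle.refl _ _)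
      · have ha : (σ ^ (k + 1)) b ≠ a := by
          intro h
          apply hab
          have h2 : σ.SameCycle b ((σ ^ (k + 1)) b) :=
            (Equiv.Perm.sameCycle_pow_right).2 (Equiv.Perm.SameCycle.refl _ _)
          rw [h] at h2
          exact h2.symm
        have h : (σ * Equiv.swap a b) ((σ ^ (k + 1)) b) = (σ ^ (k + 1 + 1)) b := by
          rw [h1, Equiv.Perm.mul_apply, Equiv.swap_apply_of_ne_of_ne ha hb]
        rw [← h]
        exact (Equiv.Perm.sameCycle_apply_right).2 ih
  obtain ⟨i, hi0, -, hi⟩ := hx.exists_pow_eq'' 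
  obtain ⟨k, rfl⟩ : ∃ k, i = k + 1 := ⟨i - 1, by omega⟩
  rw [← hi]
  exact key k

end E2_

theorem p_E2 : T_E2 := by
  intro V _ _ σ s u u' hu hu'
  have hab : ¬ σ.SameCycle u u' := fun h => hu' (hu.trans h)
  have hba : ¬ σ.SameCycle u' u := fun h => hab h.symm
  have h1 : ∀ x, σ.SameCycle u' x → (σ * Equiv.swap u u').SameCycle u x :=
    E2_.aux σ u u' hab
  have h2 : ∀ x, σ.SameCycle u x → (σ * Equiv.swap u u').SameCycle u' x := by
    intro x hx
    have h := E2_.aux σ u' u hba x hx
    rwa [Equiv.swap_comm] at h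
  have hs : (σ * Equiv.swap u u').SameCycle u' s := h2 s hu.symm
  have huu : (σ * Equiv.swap u u').SameCycle u' u := h2 u (Equiv.Perm.SameCycle.refl _ _)
  refine ⟨fun x hx => hs.symm.trans (h2 x (hu.symm.trans hx)), fun x hx => ?_⟩
  exact hs.symm.trans (huu.trans (h1 x hx))

end Pool.Agent.TEH
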