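import Pool.Agent.TEH.Targets

/-!
# TEH: E3, a Hamilton cycle through a linear forest in a typed digraph
-/

set_option autoImplicit false

namespace Pool.Agent.TEH

namespace E3_

variable {V : Type} [Fintype V] [DecidableEq V]

/-- Valid permutations: they follow `F`, and otherwise use typical arcs of `D`. -/
def Val (D F : Finset (V × V)) (o i : V → Bool) (σ : Equiv.Perm V) : Prop :=
  (∀ p ∈ F, σ p.1 = p.2) ∧ ∀ v ∈ fo F, (v, σ v) ∈ D ∧ i (σ v) = o v

theorem mem_fo {F : Finset (V × V)} {v : V} : v ∈ fo F ↔ ∀ w, (v, w) ∉ F := by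
  simp [fo]

theorem mem_fi {F : Finset (V × V)} {w : V} : w ∈ fi F ↔ ∀ v, (v, w) ∉ F := by
  simp [fi]

theorem arc_of_not_fo {D F : Finset (V × V)} {o i : V → Bool} {σ : Equiv.Perm V}
    (hσ : Val D F o i σ) {v : V} (hv : v ∉ fo F) : (v, σ v) ∈ F := by
  rw [mem_fo] at hv
  push Not at hv
  obtain ⟨w, hw⟩ := hv
  have h := hσ.1 _ hw
  have h' : σ v = w := h
  rw [h']
  exact hw

theorem fi_of_fo {D F : Finset (V × V)} {o i : V → Bool} {σ : Equiv.Perm V}
    (hσ : Val D F o i σ) {v : V} (hv : v ∈ fo F) : σ v ∈ fi F := by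
  rw [mem_fi]
  intro u hu
  have h1 : σ u = σ v := hσ.1 _ hu
  have h2 := σ.injective h1
  rw [h2] at hu
  exact (mem_fo.mp hv) _ hu

theorem bad_le {D F : Finset (V × V)} {o i : V → Bool} {m : ℕ} {σ : Equiv.Perm V}
    (hσ : Val D F o i σ)
    (h1 : ∀ v ∈ fo F, ((fi F).filter (fun w => i w = o v ∧ (v, w) ∉ D)).card ≤ m)
    (h2 : ∀ w ∈ fi F, ((fo F).filter (fun v => o v = i w ∧ (v, w) ∉ D)).card ≤ m)
    {a : V} (ha : a ∈ fo F) :
    ((fo F).filter (fun b => o b = o a ∧ ((a, σ b) ∉ D ∨ (b, σ a) ∉ D))).card ≤ 2 * m := by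
  have hsub : (fo F).filter (fun b => o b = o a ∧ ((a, σ b) ∉ D ∨ (b, σ a) ∉ D)) ⊆
      (fo F).filter (fun b => o b = o a ∧ (a, σ b) ∉ D) ∪
        (fo F).filter (fun b => o b = i (σ a) ∧ (b, σ a) ∉ D) := by
    intro b hb
    simp only [Finset.mem_filter, Finset.mem_union] at hb ⊢
    rw [(hσ.2 a ha).2]
    tauto
  have hA : ((fo F).filter (fun b => o b = o a ∧ (a, σ b) ∉ D)).card ≤ m := by
    refine le_trans ?_ (h1 a ha)
    refine Finset.card_le_card_of_injOn σ ?_ σ.injective.injOn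
    intro b hb
    rw [Finset.mem_coe, Finset.mem_filter] at hb ⊢
    exact ⟨fi_of_fo hσ hb.1, by rw [(hσ.2 b hb.1).2]; exact hb.2.1, hb.2.2⟩
  have hB := h2 (σ a) (fi_of_fo hσ ha)
  have hle := (Finset.card_le_card hsub).trans (Finset.card_union_le _ _)
  omega

theorem swap_val {D F : Finset (V × V)} {o i : V → Bool} {σ : Equiv.Perm V}
    (hσ : Val D F o i σ) {u u' : V} (hu : u ∈ fo F) (hu' : u' ∈ fo F) (ho : o u = o u')
    (h1 : (u, σ u') ∈ D) (h2 : (u', σ u) ∈ D) : Val D F o i (σ * Equiv.swap u u') := by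
  refine ⟨fun p hp => ?_, fun v hv => ?_⟩
  · have hpu : p.1 ≠ u := fun h => (mem_fo.mp hu) p.2 (by rw [← h]; exact hp)
    have hpu' : p.1 ≠ u' := fun h => (mem_fo.mp hu') p.2 (by rw [← h]; exact hp)
    rw [Equiv.Perm.mul_apply, Equiv.swap_apply_of_ne_of_ne hpu hpu']
    exact hσ.1 p hp
  · rw [Equiv.Perm.mul_apply]
    by_cases hvu : v = u
    · rw [hvu, Equiv.swap_apply_left]
      exact ⟨h1, by rw [(hσ.2 u' hu').2, ho]⟩
    · by_cases hvu' : v = u'
      · rw [hvu', Equiv.swap_apply_right]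
        exact ⟨h2, by rw [(hσ.2 u hu).2, ho]⟩
      · rw [Equiv.swap_apply_of_ne_of_ne hvu hvu']
        exact hσ.2 v hv

end E3_

open E3_

/-- E3 -/
theorem p_E3 (hE1 : T_E1) (hE2 : T_E2) : T_E3 := by
  intro V _ _ D F o i m s t hLin hFD h1 h2 hbal hbig hs his ht hot hst
  classical
  obtain ⟨σ0, hσ0⟩ : ∃ σ, Val D F o i σ :=
    hE1 V D F o i m hLin h1 h2 hbal (fun c => by have := hbig c; omega)
  obtain ⟨σ, hσm, hmax⟩ := Finset.exists_max_image
    (Finset.univ.filter (fun σ => Val D F o i σ))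
    (fun σ => Set.ncard {x | σ.SameCycle s x}) ⟨σ0, by simp [hσ0]⟩
  have hσ : Val D F o i σ := by simpa using hσm
  have hK : ∀ u ∈ fo F, ∀ u' ∈ fo F, σ.SameCycle s u → ¬ σ.SameCycle s u' → o u = o u' →
      (u, σ u') ∈ D → (u', σ u) ∈ D → False := by
    intro u hu u' hu' hc hc' ho a1 a2
    have hv := swap_val hσ hu hu' ho a1 a2
    obtain ⟨e1, e2⟩ := hE2 V σ s u u' hc hc'
    have hle := hmax (σ * Equiv.swap u u') (by simp [hv])
    have hlt : Set.ncard {x | σ.SameCycle s x} <
        Set.ncard {x | (σ * Equiv.swap u u').SameCycle s x} := by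
      refine Set.ncard_lt_ncard ?_ (Set.toFinite _)
      exact ⟨fun x hx => e1 x hx, fun hss => hc' (hss (e2 u' (Equiv.Perm.SameCycle.refl _ _)))⟩
    exact absurd hle (not_le.mpr hlt)
  -- one vertex of each label in the cycle
  have hsc : ∀ c, ∃ u ∈ fo F, σ.SameCycle s u ∧ o u = c := by
    intro c
    cases c with
    | false =>
      refine ⟨t, ht, ?_, hot⟩
      clear ht hot hbig hbal
      induction hst with
      | refl => exact Equiv.Perm.SameCycle.refl _ _
      | tail _ hbc ih =>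
        have h3 := hσ.1 _ hbc
        simp only at h3
        rw [← h3]
        exact Equiv.Perm.sameCycle_apply_right.mpr ih
    | true =>
      have h3 : σ (σ⁻¹ s) = s := by simp
      have hu : σ⁻¹ s ∈ fo F := by
        by_contra hn
        have h4 := arc_of_not_fo hσ hn
        rw [h3] at h4
        exact (mem_fi.mp hs) _ h4
      refine ⟨σ⁻¹ s, hu, ?_, ?_⟩
      · refine Equiv.Perm.sameCycle_apply_right.mp ?_
        rw [h3]
      · have h4 := (hσ.2 _ hu).2
        rw [h3, his] at h4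
        exact h4.symm
  -- few vertices of each label outside the cycle
  have hout : ∀ c, ((fo F).filter (fun v => o v = c ∧ ¬ σ.SameCycle s v)).card ≤ 2 * m := by
    intro c
    obtain ⟨u, hu, hcu, hou⟩ := hsc c
    refine le_trans (Finset.card_le_card ?_) (bad_le hσ h1 h2 hu)
    intro v hv
    simp only [Finset.mem_filter] at hv ⊢
    refine ⟨hv.1, by rw [hv.2.1, hou], ?_⟩
    by_contra hcon
    push Not at hcon
    exact hK u hu v hv.1 hcu hv.2.2 (by rw [hv.2.1, hou]) hcon.1 hcon.2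
  -- everything is in the cycle
  have hall : ∀ x, σ.SameCycle s x := by
    intro x
    by_contra hx
    obtain ⟨h, hh⟩ := hLin.2.2
    obtain ⟨y, hym, hymax⟩ := Finset.exists_max_image
      (Finset.univ.filter (fun y => σ.SameCycle x y)) h
      ⟨x, by simpa using Equiv.Perm.SameCycle.refl σ x⟩
    have hxy : σ.SameCycle x y := by simpa using hym
    have hy : y ∈ fo F := by
      by_contra hn
      have h3 := arc_of_not_fo hσ hn
      have h4 := hh _ h3
      simp only at h4
      have h5 := hymax (σ y) (by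
        simp only [Finset.mem_filter, Finset.mem_univ, true_and]
        exact Equiv.Perm.sameCycle_apply_right.mpr hxy)
      omega
    have hyc : ¬ σ.SameCycle s y := fun hc => hx (hc.trans hxy.symm)
    have hin : ((fo F).filter (fun v => o v = o y ∧ σ.SameCycle s v)).card ≤ 2 * m := by
      refine le_trans (Finset.card_le_card ?_) (bad_le hσ h1 h2 hy)
      intro v hv
      simp only [Finset.mem_filter] at hv ⊢
      refine ⟨hv.1, hv.2.1, ?_⟩
      by_contra hcon
      push Not at hcon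
      exact hK v hv.1 y hy hv.2.2 hyc hv.2.1 hcon.2 hcon.1
    have hsplit : (fo F).filter (fun v => o v = o y) ⊆
        (fo F).filter (fun v => o v = o y ∧ σ.SameCycle s v) ∪
          (fo F).filter (fun v => o v = o y ∧ ¬ σ.SameCycle s v) := by
      intro v hv
      simp only [Finset.mem_filter, Finset.mem_union] at hv ⊢
      tauto
    have hle := (Finset.card_le_card hsplit).trans (Finset.card_union_le _ _)
    have hb := hbig (o y)
    have ho := hout (o y)
    omega
  refine ⟨σ, ⟨fun v => ?_, fun u v => (hall u).symm.trans (hall v)⟩, fun v => ?_⟩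
  · by_cases hv : v ∈ fo F
    · exact (hσ.2 v hv).1
    · exact hFD (arc_of_not_fo hσ hv)
  · by_cases hv : v ∈ fo F
    · exact Or.inr (hσ.2 v hv).2.symm
    · exact Or.inl (arc_of_not_fo hσ hv)

end Pool.Agent.TEH
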