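import Pool.Agent.TEH.Targets

/-!
# TEH-E4: giving every exceptional vertex an in-arc and an out-arc
-/

set_option autoImplicit false

namespace Pool.Agent.TEH

namespace E4_

/-- The state of the greedy process after `k` steps. -/
def St (V : Type) [Fintype V] [DecidableEq V] (D F0 : Finset (V × V)) (o i : V → Bool)
    (W Z : Finset V) (F : Finset (V × V)) (k : ℕ) : Prop :=
  F0 ⊆ F ∧ F ⊆ D ∧ Lin F ∧ F.card ≤ F0.card + k ∧ (∀ p ∈ F, p ∈ F0 ∨ o p.1 = i p.2) ∧
    (∀ z ∈ Z, z ∈ fo F0 → z ∈ fo F) ∧ (∀ z ∈ Z, z ∈ fi F0 → z ∈ fi F) ∧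
    ∃ T : Finset V, W ⊆ T ∧ Z ⊆ T ∧ (∀ p ∈ F, p.1 ∈ T ∧ p.2 ∈ T) ∧
      T.card ≤ 2 * F0.card + W.card + Z.card + k

variable {V : Type} [Fintype V] [DecidableEq V]

lemma mem_fo (F : Finset (V × V)) (v : V) : v ∈ fo F ↔ ∀ p ∈ F, p.1 ≠ v := by
  simp only [fo, Finset.mem_sdiff, Finset.mem_univ, true_and, Finset.mem_image, not_exists,
    not_and]

lemma mem_fi (F : Finset (V × V)) (v : V) : v ∈ fi F ↔ ∀ p ∈ F, p.2 ≠ v := by
  simp only [fi, Finset.mem_sdiff, Finset.mem_univ, true_and, Finset.mem_image, not_exists,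
    not_and]

lemma fo_anti {F F' : Finset (V × V)} (h : F ⊆ F') {v : V} (hv : v ∉ fo F) : v ∉ fo F' := by
  intro h'
  apply hv
  rw [mem_fo] at h' ⊢
  exact fun p hp => h' p (h hp)

lemma fi_anti {F F' : Finset (V × V)} (h : F ⊆ F') {v : V} (hv : v ∉ fi F) : v ∉ fi F' := by
  intro h'
  apply hv
  rw [mem_fi] at h' ⊢
  exact fun p hp => h' p (h hp)

lemma st_succ {D F0 : Finset (V × V)} {o i : V → Bool} {W Z : Finset V} {F : Finset (V × V)}
    {k : ℕ} (h : St V D F0 o i W Z F k) : St V D F0 o i W Z F (k + 1) := by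
  obtain ⟨h1, h2, h3, h4, h5, h6, h7, T, hT1, hT2, hT3, hT4⟩ := h
  exact ⟨h1, h2, h3, by omega, h5, h6, h7, T, hT1, hT2, hT3, by omega⟩

lemma st_zero {D F0 : Finset (V × V)} {o i : V → Bool} {W Z : Finset V} (hL : Lin F0)
    (hD : F0 ⊆ D) : St V D F0 o i W Z F0 0 := by
  refine ⟨Finset.Subset.refl _, hD, hL, by omega, fun p hp => Or.inl hp, fun z _ h => h,
    fun z _ h => h, W ∪ Z ∪ (F0.image Prod.fst ∪ F0.image Prod.snd), ?_, ?_, ?_, ?_⟩
  · intro x hx
    simp [hx]
  · intro x hx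
    simp [hx]
  · intro p hp
    constructor
    · apply Finset.mem_union_right
      apply Finset.mem_union_left
      exact Finset.mem_image_of_mem _ hp
    · apply Finset.mem_union_right
      apply Finset.mem_union_right
      exact Finset.mem_image_of_mem _ hp
  · have a1 := Finset.card_union_le (W ∪ Z) (F0.image Prod.fst ∪ F0.image Prod.snd)
    have a2 := Finset.card_union_le W Z
    have a3 := Finset.card_union_le (F0.image Prod.fst) (F0.image Prod.snd)
    have a4 : (F0.image Prod.fst).card ≤ F0.card := Finset.card_image_le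
    have a5 : (F0.image Prod.snd).card ≤ F0.card := Finset.card_image_le
    omega

lemma exists_new {S T : Finset V} (h : T.card < S.card) : ∃ v ∈ S, v ∉ T := by
  by_contra hc
  push Not at hc
  exact absurd (Finset.card_le_card hc) (by omega)

lemma step_out (hE : T_E4a) {D F0 : Finset (V × V)} {o i : V → Bool} {W Z : Finset V}
    (hZ : Disjoint Z W)
    (hd : ∀ w ∈ W, 2 * F0.card + 3 * W.card + Z.card <
      ((cls i (o w)).filter (fun v => (w, v) ∈ D)).card)
    {F : Finset (V × V)} {k : ℕ} (hk : k < 2 * W.card) (h : St V D F0 o i W Z F k)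
    {w : V} (hw : w ∈ W) :
    ∃ F', St V D F0 o i W Z F' (k + 1) ∧ F ⊆ F' ∧ w ∉ fo F' := by
  by_cases hf : w ∉ fo F
  · exact ⟨F, st_succ h, Finset.Subset.refl _, hf⟩
  rw [not_not] at hf
  obtain ⟨h1, h2, h3, h4, h5, h6, h7, T, hT1, hT2, hT3, hT4⟩ := h
  obtain ⟨v, hv, hvT⟩ := exists_new (T := T) (lt_of_le_of_lt (by omega) (hd w hw))
  rw [Finset.mem_filter, cls, Finset.mem_filter] at hv
  obtain ⟨⟨_, hv1⟩, hv2⟩ := hv
  have hvw : v ≠ w := fun e => hvT (e ▸ hT1 hw)
  have hun : ∀ p ∈ F, p.1 ≠ v ∧ p.2 ≠ v := by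
    intro p hp
    exact ⟨fun e => hvT (e ▸ (hT3 p hp).1), fun e => hvT (e ▸ (hT3 p hp).2)⟩
  refine ⟨insert (w, v) F, ⟨?_, ?_, ?_, ?_, ?_, ?_, ?_, insert v T, ?_, ?_, ?_, ?_⟩,
    Finset.subset_insert _ _, ?_⟩
  · exact h1.trans (Finset.subset_insert _ _)
  · intro p hp
    rcases Finset.mem_insert.1 hp with e | e
    · rw [e]; exact hv2
    · exact h2 e
  · exact (hE V F w v h3 hvw hun).1 hf
  · have := Finset.card_insert_le (w, v) F
    omega
  · intro p hp
    rcases Finset.mem_insert.1 hp with e | e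
    · right
      rw [e]
      exact hv1.symm
    · exact h5 p e
  · intro z hz hz0
    have h8 := h6 z hz hz0
    rw [mem_fo] at h8 ⊢
    intro p hp
    rcases Finset.mem_insert.1 hp with e | e
    · rw [e]
      intro e2
      exact (Finset.disjoint_left.1 hZ hz) (e2 ▸ hw)
    · exact h8 p e
  · intro z hz hz0
    have h8 := h7 z hz hz0
    rw [mem_fi] at h8 ⊢
    intro p hp
    rcases Finset.mem_insert.1 hp with e | e
    · rw [e]
      intro e2
      exact hvT (hT2 ((show v = z from e2) ▸ hz))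
    · exact h8 p e
  · exact hT1.trans (Finset.subset_insert _ _)
  · exact hT2.trans (Finset.subset_insert _ _)
  · intro p hp
    rcases Finset.mem_insert.1 hp with e | e
    · rw [e]
      exact ⟨Finset.mem_insert_of_mem (hT1 hw), Finset.mem_insert_self _ _⟩
    · exact ⟨Finset.mem_insert_of_mem (hT3 p e).1, Finset.mem_insert_of_mem (hT3 p e).2⟩
  · have := Finset.card_insert_le v T
    omega
  · intro h8
    rw [mem_fo] at h8
    exact h8 (w, v) (Finset.mem_insert_self _ _) rfl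

lemma step_in (hE : T_E4a) {D F0 : Finset (V × V)} {o i : V → Bool} {W Z : Finset V}
    (hZ : Disjoint Z W)
    (hd : ∀ w ∈ W, 2 * F0.card + 3 * W.card + Z.card <
      ((cls o (i w)).filter (fun v => (v, w) ∈ D)).card)
    {F : Finset (V × V)} {k : ℕ} (hk : k < 2 * W.card) (h : St V D F0 o i W Z F k)
    {w : V} (hw : w ∈ W) :
    ∃ F', St V D F0 o i W Z F' (k + 1) ∧ F ⊆ F' ∧ w ∉ fi F' := by
  by_cases hf : w ∉ fi F
  · exact ⟨F, st_succ h, Finset.Subset.refl _, hf⟩
  rw [not_not] at hf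
  obtain ⟨h1, h2, h3, h4, h5, h6, h7, T, hT1, hT2, hT3, hT4⟩ := h
  obtain ⟨v, hv, hvT⟩ := exists_new (T := T) (lt_of_le_of_lt (by omega) (hd w hw))
  rw [Finset.mem_filter, cls, Finset.mem_filter] at hv
  obtain ⟨⟨_, hv1⟩, hv2⟩ := hv
  have hvw : v ≠ w := fun e => hvT (e ▸ hT1 hw)
  have hun : ∀ p ∈ F, p.1 ≠ v ∧ p.2 ≠ v := by
    intro p hp
    exact ⟨fun e => hvT (e ▸ (hT3 p hp).1), fun e => hvT (e ▸ (hT3 p hp).2)⟩
  refine ⟨insert (v, w) F, ⟨?_, ?_, ?_, ?_, ?_, ?_, ?_, insert v T, ?_, ?_, ?_, ?_⟩,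
    Finset.subset_insert _ _, ?_⟩
  · exact h1.trans (Finset.subset_insert _ _)
  · intro p hp
    rcases Finset.mem_insert.1 hp with e | e
    · rw [e]; exact hv2
    · exact h2 e
  · exact (hE V F w v h3 hvw hun).2 hf
  · have := Finset.card_insert_le (v, w) F
    omega
  · intro p hp
    rcases Finset.mem_insert.1 hp with e | e
    · right
      rw [e]
      exact hv1
    · exact h5 p e
  · intro z hz hz0
    have h8 := h6 z hz hz0
    rw [mem_fo] at h8 ⊢
    intro p hp
    rcases Finset.mem_insert.1 hp with e | e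
    · rw [e]
      intro e2
      exact hvT (hT2 ((show v = z from e2) ▸ hz))
    · exact h8 p e
  · intro z hz hz0
    have h8 := h7 z hz hz0
    rw [mem_fi] at h8 ⊢
    intro p hp
    rcases Finset.mem_insert.1 hp with e | e
    · rw [e]
      intro e2
      exact (Finset.disjoint_left.1 hZ hz) (e2 ▸ hw)
    · exact h8 p e
  · exact hT1.trans (Finset.subset_insert _ _)
  · exact hT2.trans (Finset.subset_insert _ _)
  · intro p hp
    rcases Finset.mem_insert.1 hp with e | e
    · rw [e]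
      exact ⟨Finset.mem_insert_self _ _, Finset.mem_insert_of_mem (hT1 hw)⟩
    · exact ⟨Finset.mem_insert_of_mem (hT3 p e).1, Finset.mem_insert_of_mem (hT3 p e).2⟩
  · have := Finset.card_insert_le v T
    omega
  · intro h8
    rw [mem_fi] at h8
    exact h8 (v, w) (Finset.mem_insert_self _ _) rfl

lemma stage_out (hE : T_E4a) {D F0 : Finset (V × V)} {o i : V → Bool} {W Z : Finset V}
    (hZ : Disjoint Z W)
    (hd : ∀ w ∈ W, 2 * F0.card + 3 * W.card + Z.card <
      ((cls i (o w)).filter (fun v => (w, v) ∈ D)).card)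
    (hL : Lin F0) (hD : F0 ⊆ D) (S : Finset V) :
    S ⊆ W → ∃ F, St V D F0 o i W Z F S.card ∧ ∀ w ∈ S, w ∉ fo F := by
  induction S using Finset.induction_on with
  | empty =>
    intro _
    exact ⟨F0, st_zero hL hD, fun w hw => absurd hw (Finset.notMem_empty _)⟩
  | insert a S ha ih =>
    intro hS
    have haW : a ∈ W := hS (Finset.mem_insert_self _ _)
    obtain ⟨F, hF, hF2⟩ := ih ((Finset.subset_insert _ _).trans hS)
    have hc : S.card + 1 ≤ W.card := by
      rw [← Finset.card_insert_of_notMem ha]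
      exact Finset.card_le_card hS
    obtain ⟨F', h1, h2, h3⟩ := step_out hE hZ hd (by omega) hF haW
    refine ⟨F', ?_, ?_⟩
    · rw [Finset.card_insert_of_notMem ha]
      exact h1
    · intro w hw
      rcases Finset.mem_insert.1 hw with e | e
      · rw [e]; exact h3
      · exact fo_anti h2 (hF2 w e)

lemma stage_in (hE : T_E4a) {D F0 : Finset (V × V)} {o i : V → Bool} {W Z : Finset V}
    (hZ : Disjoint Z W)
    (hd : ∀ w ∈ W, 2 * F0.card + 3 * W.card + Z.card <
      ((cls o (i w)).filter (fun v => (v, w) ∈ D)).card)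
    {F1 : Finset (V × V)} (hF1 : St V D F0 o i W Z F1 W.card) (S : Finset V) :
    S ⊆ W → ∃ F, St V D F0 o i W Z F (W.card + S.card) ∧ F1 ⊆ F ∧ ∀ w ∈ S, w ∉ fi F := by
  induction S using Finset.induction_on with
  | empty =>
    intro _
    exact ⟨F1, hF1, Finset.Subset.refl _, fun w hw => absurd hw (Finset.notMem_empty _)⟩
  | insert a S ha ih =>
    intro hS
    have haW : a ∈ W := hS (Finset.mem_insert_self _ _)
    obtain ⟨F, hF, hF1', hF2⟩ := ih ((Finset.subset_insert _ _).trans hS)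
    have hc : S.card + 1 ≤ W.card := by
      rw [← Finset.card_insert_of_notMem ha]
      exact Finset.card_le_card hS
    obtain ⟨F', h1, h2, h3⟩ := step_in hE hZ hd (by omega) hF haW
    refine ⟨F', ?_, hF1'.trans h2, ?_⟩
    · rw [Finset.card_insert_of_notMem ha]
      exact h1
    · intro w hw
      rcases Finset.mem_insert.1 hw with e | e
      · rw [e]; exact h3
      · exact fi_anti h2 (hF2 w e)

end E4_

open E4_ in
theorem p_E4 (hE4a : T_E4a) : T_E4 := by
  intro V _ _ D F0 o i W Z hL hD hZ hout hin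
  obtain ⟨F1, h1, h2⟩ := stage_out hE4a hZ hout hL hD W (Finset.Subset.refl _)
  obtain ⟨F, h3, h4, h5⟩ := stage_in hE4a hZ hin h1 W (Finset.Subset.refl _)
  obtain ⟨g1, g2, g3, g4, g5, g6, g7, _⟩ := h3
  exact ⟨F, g1, g2, g3, by omega, fun w hw => ⟨fo_anti h4 (h2 w hw), h5 w hw⟩, g5, g6, g7⟩

end Pool.Agent.TEH
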