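import Pool.Agent.TEH.Targets

/-!
# TEH: proof of the target E4a (adding one arc to a linear forest)
-/

set_option autoImplicit false

namespace Pool.Agent.TEH

/-- Target E4a. -/
theorem p_E4a : T_E4a := by
  intro V _ _ F w v hF hvw hv
  obtain ⟨h1, h2, h, hh⟩ := hF
  constructor
  · intro hw
    have hw' : ∀ p ∈ F, p.1 ≠ w := by
      intro p hp hc
      simp only [fo, Finset.mem_sdiff, Finset.mem_univ, true_and, Finset.mem_image, not_exists,
        not_and] at hw
      exact hw p hp hc
    refine ⟨?_, ?_, Function.update h v (h w + 1), ?_⟩
    · intro p hp q hq hpq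
      rcases Finset.mem_insert.1 hp with rfl | hp <;> rcases Finset.mem_insert.1 hq with rfl | hq
      · rfl
      · exact absurd hpq.symm (hw' q hq)
      · exact absurd hpq (hw' p hp)
      · exact h1 p hp q hq hpq
    · intro p hp q hq hpq
      rcases Finset.mem_insert.1 hp with rfl | hp <;> rcases Finset.mem_insert.1 hq with rfl | hq
      · rfl
      · exact absurd hpq.symm (hv q hq).2
      · exact absurd hpq (hv p hp).2
      · exact h2 p hp q hq hpq
    · intro p hp
      rcases Finset.mem_insert.1 hp with rfl | hp
      · simp only [Function.update_self, Function.update_of_ne hvw.symm]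
        omega
      · rw [Function.update_of_ne (hv p hp).1, Function.update_of_ne (hv p hp).2]
        exact hh p hp
  · intro hw
    have hw' : ∀ p ∈ F, p.2 ≠ w := by
      intro p hp hc
      simp only [fi, Finset.mem_sdiff, Finset.mem_univ, true_and, Finset.mem_image, not_exists,
        not_and] at hw
      exact hw p hp hc
    refine ⟨?_, ?_, fun x => if x = v then 0 else h x + 1, ?_⟩
    · intro p hp q hq hpq
      rcases Finset.mem_insert.1 hp with rfl | hp <;> rcases Finset.mem_insert.1 hq with rfl | hq
      · rfl
      · exact absurd hpq.symm (hv q hq).1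
      · exact absurd hpq (hv p hp).1
      · exact h1 p hp q hq hpq
    · intro p hp q hq hpq
      rcases Finset.mem_insert.1 hp with rfl | hp <;> rcases Finset.mem_insert.1 hq with rfl | hq
      · rfl
      · exact absurd hpq.symm (hw' q hq)
      · exact absurd hpq (hw' p hp)
      · exact h2 p hp q hq hpq
    · intro p hp
      rcases Finset.mem_insert.1 hp with rfl | hp
      · simp only [if_true, if_neg hvw.symm]
        omega
      · simp only [if_neg (hv p hp).1, if_neg (hv p hp).2]
        have := hh p hp
        omega

end Pool.Agent.TEH
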