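import Pool.Agent.TEH.Targets

/-!
# TEH, target E5: one Hamilton cycle from a balanced matching
-/

set_option autoImplicit false

namespace Pool.Agent.TEH

set_option linter.unusedSectionVars false

variable {V : Type} [Fintype V] [DecidableEq V]

/-- A matching is a linear forest. -/
theorem E5_lin (M : Finset (V × V)) (hM : Matching M) : Lin M := by
  refine ⟨?_, ?_, fun v => if v ∈ M.image Prod.fst then 0 else 1, ?_⟩
  · intro p hp q hq h
    by_contra hne
    exact (hM.2 p hp q hq hne).1 h
  · intro p hp q hq h
    by_contra hne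
    exact (hM.2 p hp q hq hne).2.2.2 h
  · intro p hp
    have h1 : p.1 ∈ M.image Prod.fst := Finset.mem_image_of_mem _ hp
    have h2 : p.2 ∉ M.image Prod.fst := by
      intro h
      obtain ⟨q, hq, hqp⟩ := Finset.mem_image.1 h
      by_cases hne : p = q
      · subst hne
        exact hM.1 p hp hqp
      · exact (hM.2 p hp q hq hne).2.2.1 hqp.symm
    simp only [h1, h2, if_true, if_false]
    exact Nat.zero_lt_one

/-- The touched vertices. -/
def E5_tch (M : Finset (V × V)) : Finset V := M.image Prod.fst ∪ M.image Prod.snd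

theorem E5_tch_card (M : Finset (V × V)) : (E5_tch M).card ≤ 2 * M.card := by
  unfold E5_tch
  have h1 : (M.image Prod.fst).card ≤ M.card := Finset.card_image_le
  have h2 : (M.image Prod.snd).card ≤ M.card := Finset.card_image_le
  have h3 := Finset.card_union_le (M.image Prod.fst) (M.image Prod.snd)
  omega

theorem E5_unt {M : Finset (V × V)} {v : V} (h : v ∉ E5_tch M) :
    ∀ p ∈ M, p.1 ≠ v ∧ p.2 ≠ v := by
  intro p hp
  constructor
  · intro h1
    exact h (Finset.mem_union_left _ (Finset.mem_image.2 ⟨p, hp, h1⟩))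
  · intro h1
    exact h (Finset.mem_union_right _ (Finset.mem_image.2 ⟨p, hp, h1⟩))

theorem E5_mem_fi {F : Finset (V × V)} {v : V} (h : ∀ p ∈ F, p.2 ≠ v) : v ∈ fi F := by
  unfold fi
  rw [Finset.mem_sdiff]
  refine ⟨Finset.mem_univ _, ?_⟩
  intro h1
  obtain ⟨p, hp, hpv⟩ := Finset.mem_image.1 h1
  exact h p hp hpv

theorem E5_mem_fo {F : Finset (V × V)} {v : V} (h : ∀ p ∈ F, p.1 ≠ v) : v ∈ fo F := by
  unfold fo
  rw [Finset.mem_sdiff]
  refine ⟨Finset.mem_univ _, ?_⟩
  intro h1
  obtain ⟨p, hp, hpv⟩ := Finset.mem_image.1 h1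
  exact h p hp hpv

theorem E5_of_fi {F : Finset (V × V)} {v : V} (h : v ∈ fi F) : ∀ p ∈ F, p.2 ≠ v := by
  intro p hp hpv
  unfold fi at h
  rw [Finset.mem_sdiff] at h
  exact h.2 (Finset.mem_image.2 ⟨p, hp, hpv⟩)

theorem E5_of_fo {F : Finset (V × V)} {v : V} (h : v ∈ fo F) : ∀ p ∈ F, p.1 ≠ v := by
  intro p hp hpv
  unfold fo at h
  rw [Finset.mem_sdiff] at h
  exact h.2 (Finset.mem_image.2 ⟨p, hp, hpv⟩)

/-- Adding a typical arc keeps the balance. -/
theorem E5_bal (F : Finset (V × V)) (o i : V → Bool) (a b : V) (hF : Balanced F o i)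
    (hab : o a = i b) : Balanced (insert (a, b) F) o i := by
  by_cases hmem : (a, b) ∈ F
  · rw [Finset.insert_eq_of_mem hmem]
    exact hF
  intro c
  have h := hF c
  rw [Finset.filter_insert, Finset.filter_insert]
  by_cases hc : i b = c
  · have hc2 : o a = c := hab.trans hc
    rw [if_pos hc, if_pos hc2, Finset.card_insert_of_notMem, Finset.card_insert_of_notMem]
    · omega
    · intro h1
      exact hmem (Finset.mem_filter.1 h1).1
    · intro h1
      exact hmem (Finset.mem_filter.1 h1).1
  · have hc2 : ¬ (o a = c) := fun h1 => hc (hab.symm.trans h1)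
    rw [if_neg hc, if_neg hc2]
    exact h

/-- Choice of a vertex outside a small set. -/
theorem E5_pick (A X : Finset V) (h : X.card < A.card) : ∃ v ∈ A, v ∉ X :=
  Finset.exists_mem_notMem_of_card_lt_card h

/-- The size of the set `i = false`, `o = true`. -/
theorem E5_S (M : Finset (V × V)) (o i : V → Bool) (hB : Balanced M o i) :
    (Finset.univ.filter (fun v => i v = false ∧ o v = true)).card ≤
      (Finset.univ.filter (fun v => i v = true ∧ o v = false)).card + M.card := by
  have h := hB false
  have h1 : (cls o false).card = (Finset.univ.filter (fun v => i v = true ∧ o v = false)).card +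
      (Finset.univ.filter (fun v => i v = false ∧ o v = false)).card := by
    rw [← Finset.card_union_of_disjoint]
    · congr 1
      ext v
      simp only [cls, Finset.mem_filter, Finset.mem_univ, true_and, Finset.mem_union]
      cases i v <;> simp
    · rw [Finset.disjoint_left]
      intro v hv hv2
      simp only [Finset.mem_filter, Finset.mem_univ, true_and] at hv hv2
      rw [hv.1] at hv2
      exact absurd hv2.1 (by decide)
  have h2 : (cls i false).card = (Finset.univ.filter (fun v => i v = false ∧ o v = true)).card +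
      (Finset.univ.filter (fun v => i v = false ∧ o v = false)).card := by
    rw [← Finset.card_union_of_disjoint]
    · congr 1
      ext v
      simp only [cls, Finset.mem_filter, Finset.mem_univ, true_and, Finset.mem_union]
      cases o v <;> simp
    · rw [Finset.disjoint_left]
      intro v hv hv2
      simp only [Finset.mem_filter, Finset.mem_univ, true_and] at hv hv2
      rw [hv.2] at hv2
      exact absurd hv2.2 (by decide)
  have h3 : (M.filter (fun p => i p.2 = false)).card ≤ M.card := Finset.card_filter_le _ _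
  omega

/-- Case (A). -/
theorem E5_A (hE4a : T_E4a) (hE5b : T_E5b) (D M : Finset (V × V))
    (o i : V → Bool) (W : Finset V) (m k : ℕ) (hT : Typed D o i W m k) (hk : 20 * m + 20 ≤ k)
    (hM : Matching M) (hMD : M ⊆ D) (hMc : M.card ≤ m + 2) (hB : Balanced M o i)
    (p0 : V) (hp0i : i p0 = true) (hp0o : o p0 = false)
    (hp0 : ∀ q ∈ M, q.1 ≠ p0 ∧ q.2 ≠ p0) :
    ∃ σ : Equiv.Perm V, Ham D σ ∧ ∀ v, (v, σ v) ∈ M ∨ o v = i (σ v) := by
  classical
  have hLin := E5_lin M hM
  by_cases hex : ∃ p1, p1 ∉ W ∧ (∀ q ∈ M, q.1 ≠ p1 ∧ q.2 ≠ p1) ∧ i p1 = true ∧ o p1 = false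
  · obtain ⟨p1, hpW, hun, hpi, hpo⟩ := hex
    exact hE5b V D M o i W m k p1 p1 hT hk hLin hMD (by omega) hB hpW hpW
      (E5_mem_fi fun p hp => (hun p hp).2) (E5_mem_fo fun p hp => (hun p hp).1) hpi hpo
      Relation.ReflTransGen.refl
  · have hp0W : p0 ∈ W := by
      by_contra h
      exact hex ⟨p0, h, hp0, hp0i, hp0o⟩
    -- sizes
    have htc := E5_tch_card M
    have hWc := hT.cardW
    have hP : (Finset.univ.filter (fun v => i v = true ∧ o v = false)).card ≤
        (W ∪ E5_tch M).card := by
      apply Finset.card_le_card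
      intro v hv
      simp only [Finset.mem_filter, Finset.mem_univ, true_and] at hv
      by_contra h
      rw [Finset.mem_union, not_or] at h
      exact hex ⟨v, h.1, E5_unt h.2, hv.1, hv.2⟩
    have hP2 := Finset.card_union_le W (E5_tch M)
    have hS := E5_S M o i hB
    obtain ⟨S, hSdef⟩ : ∃ S, S = Finset.univ.filter (fun v => i v = false ∧ o v = true) :=
      ⟨_, rfl⟩
    rw [← hSdef] at hS
    have hX : ((W ∪ E5_tch M) ∪ S).card < k := by
      have := Finset.card_union_le (W ∪ E5_tch M) S
      omega
    -- the in-neighbour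
    have hin := hT.inW p0 hp0W
    obtain ⟨r, hr1, hr2⟩ := E5_pick _ _ (lt_of_lt_of_le hX hin)
    have hr1' := Finset.mem_filter.1 hr1
    have hror : o r = true := by
      have h := hr1'.1
      unfold cls at h
      rw [(Finset.mem_filter.1 h).2, hp0i]
    have hrD : (r, p0) ∈ D := hr1'.2
    rw [Finset.mem_union, Finset.mem_union, not_or, not_or] at hr2
    have hrU := E5_unt hr2.1.2
    have hri : i r = true := by
      cases hir : i r with
      | true => rfl
      | false =>
        exfalso
        apply hr2.2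
        rw [hSdef, Finset.mem_filter]
        exact ⟨Finset.mem_univ _, hir, hror⟩
    -- the out-neighbour
    have hout := hT.outW p0 hp0W
    obtain ⟨q, hq1, hq2⟩ := E5_pick _ _ (lt_of_lt_of_le hX hout)
    have hq1' := Finset.mem_filter.1 hq1
    have hqi : i q = false := by
      have h := hq1'.1
      unfold cls at h
      rw [(Finset.mem_filter.1 h).2, hp0o]
    have hqD : (p0, q) ∈ D := hq1'.2
    rw [Finset.mem_union, Finset.mem_union, not_or, not_or] at hq2
    have hqU := E5_unt hq2.1.2
    have hqo : o q = false := by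
      cases hoq : o q with
      | false => rfl
      | true =>
        exfalso
        apply hq2.2
        rw [hSdef, Finset.mem_filter]
        exact ⟨Finset.mem_univ _, hqi, hoq⟩
    have hrq : r ≠ q := by
      intro h
      rw [h, hqi] at hri
      exact absurd hri (by decide)
    have hrp : r ≠ p0 := fun h => hr2.1.1 (by rw [h]; exact hp0W)
    have hqp : q ≠ p0 := fun h => hq2.1.1 (by rw [h]; exact hp0W)
    have hL1 : Lin (insert (r, p0) M) :=
      (hE4a V M p0 r hLin hrp hrU).2 (E5_mem_fi fun p hp => (hp0 p hp).2)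
    have hqU1 : ∀ p ∈ insert (r, p0) M, p.1 ≠ q ∧ p.2 ≠ q := by
      intro p hp
      rcases Finset.mem_insert.1 hp with h | h
      · subst h
        exact ⟨hrq, hqp.symm⟩
      · exact hqU p h
    have hL2 : Lin (insert (p0, q) (insert (r, p0) M)) := by
      refine (hE4a V (insert (r, p0) M) p0 q hL1 hqp hqU1).1 (E5_mem_fo ?_)
      intro p hp
      rcases Finset.mem_insert.1 hp with h | h
      · subst h
        exact hrp
      · exact (hp0 p h).1
    have hBal : Balanced (insert (p0, q) (insert (r, p0) M)) o i := by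
      apply E5_bal
      · apply E5_bal _ _ _ _ _ hB
        rw [hror, hp0i]
      · rw [hp0o, hqi]
    have hsub : insert (p0, q) (insert (r, p0) M) ⊆ D := by
      intro p hp
      rcases Finset.mem_insert.1 hp with h | h
      · subst h
        exact hqD
      · rcases Finset.mem_insert.1 h with h | h
        · subst h
          exact hrD
        · exact hMD h
    have hcard : (insert (p0, q) (insert (r, p0) M)).card ≤ m + 4 := by
      have h1 := Finset.card_insert_le (p0, q) (insert (r, p0) M)
      have h2 := Finset.card_insert_le (r, p0) M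
      omega
    obtain ⟨σ, hσ, hσ2⟩ := hE5b V D _ o i W m k r q hT hk hL2 hsub hcard hBal hr2.1.1 hq2.1.1
      (E5_mem_fi (by
        intro p hp
        rcases Finset.mem_insert.1 hp with h | h
        · subst h
          exact hrq.symm
        · rcases Finset.mem_insert.1 h with h | h
          · subst h
            exact hrp.symm
          · exact (hrU p h).2))
      (E5_mem_fo (by
        intro p hp
        rcases Finset.mem_insert.1 hp with h | h
        · subst h
          exact hqp.symm
        · exact (hqU1 p h).1)) hri hqo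
      ((Relation.ReflTransGen.single
        (Finset.mem_insert_of_mem (Finset.mem_insert_self _ _))).tail
        (Finset.mem_insert_self _ _))
    refine ⟨σ, hσ, fun v => ?_⟩
    rcases hσ2 v with h | h
    · rcases Finset.mem_insert.1 h with h | h
      · right
        have h1 : v = p0 := congrArg Prod.fst h
        have h2 : σ v = q := congrArg Prod.snd h
        rw [h2, h1, hp0o, hqi]
      · rcases Finset.mem_insert.1 h with h | h
        · right
          have h1 : v = r := congrArg Prod.fst h
          have h2 : σ v = p0 := congrArg Prod.snd h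
          rw [h2, h1, hror, hp0i]
        · exact Or.inl h
    · exact Or.inr h

theorem E5_mono (F G : Finset (V × V)) (hFG : F ⊆ G) (s t : V)
    (h : Relation.ReflTransGen (fun a b => (a, b) ∈ F) s t) :
    Relation.ReflTransGen (fun a b => (a, b) ∈ G) s t := by
  induction h with
  | refl => exact Relation.ReflTransGen.refl
  | tail _ h2 ih => exact ih.tail (hFG h2)

/-- Case (B), first half: the anchor start `s`. -/
theorem E5_B1 (hE4a : T_E4a) (D M : Finset (V × V))
    (o i : V → Bool) (W : Finset V) (m k : ℕ) (hT : Typed D o i W m k) (hk : 20 * m + 20 ≤ k)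
    (hM : Matching M) (hMD : M ⊆ D) (hMc : M.card ≤ m + 2) (hB : Balanced M o i)
    (hoi : ∀ v, o v = i v) (r q : V) (hf : (r, q) ∈ M) (hr : o r = true) :
    ∃ (F : Finset (V × V)) (s : V), Lin F ∧ M ⊆ F ∧ F ⊆ D ∧ F.card ≤ M.card + 1 ∧
      Balanced F o i ∧ s ∉ W ∧ s ∈ fi F ∧ i s = true ∧
      Relation.ReflTransGen (fun a b => (a, b) ∈ F) s r ∧
      (∀ p ∈ F, p ∈ M ∨ o p.1 = i p.2) ∧ q ∈ fo F ∧
      (∀ y, (∀ p ∈ M, p.1 ≠ y ∧ p.2 ≠ y) → y ≠ s → ∀ p ∈ F, p.1 ≠ y ∧ p.2 ≠ y) := by
  classical
  have hLin := E5_lin M hM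
  have hrfi : r ∈ fi M := by
    apply E5_mem_fi
    intro p hp h
    by_cases hne : (r, q) = p
    · subst hne
      exact hM.1 _ hp h.symm
    · exact (hM.2 _ hf p hp hne).2.1 h.symm
  have hqfo : q ∈ fo M := by
    apply E5_mem_fo
    intro p hp h
    by_cases hne : (r, q) = p
    · subst hne
      exact hM.1 _ hp h
    · exact (hM.2 _ hf p hp hne).2.2.1 h.symm
  by_cases hrW : r ∈ W
  · have hin := hT.inW r hrW
    have htc := E5_tch_card M
    have hWc := hT.cardW
    have hX : (W ∪ E5_tch M).card < k := by
      have := Finset.card_union_le W (E5_tch M)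
      omega
    obtain ⟨x, hx1, hx2⟩ := E5_pick _ _ (lt_of_lt_of_le hX hin)
    have hx1' := Finset.mem_filter.1 hx1
    have hir : i r = true := by rw [← hoi r, hr]
    have hox : o x = true := by
      have h := hx1'.1
      unfold cls at h
      rw [(Finset.mem_filter.1 h).2, hir]
    have hxD : (x, r) ∈ D := hx1'.2
    rw [Finset.mem_union, not_or] at hx2
    have hxU := E5_unt hx2.2
    have hxr : x ≠ r := fun h => hx2.1 (by rw [h]; exact hrW)
    have hL1 : Lin (insert (x, r) M) := (hE4a V M r x hLin hxr hxU).2 hrfi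
    refine ⟨insert (x, r) M, x, hL1, Finset.subset_insert _ _, ?_, Finset.card_insert_le _ _,
      ?_, hx2.1, ?_, ?_, ?_, ?_, ?_, ?_⟩
    · intro p hp
      rcases Finset.mem_insert.1 hp with h | h
      · subst h
        exact hxD
      · exact hMD h
    · apply E5_bal _ _ _ _ _ hB
      rw [hox, hir]
    · apply E5_mem_fi
      intro p hp
      rcases Finset.mem_insert.1 hp with h | h
      · subst h
        exact hxr.symm
      · exact (hxU p h).2
    · rw [← hoi x, hox]
    · exact Relation.ReflTransGen.single (Finset.mem_insert_self _ _)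
    · intro p hp
      rcases Finset.mem_insert.1 hp with h | h
      · subst h
        right
        rw [hox, hir]
      · exact Or.inl h
    · apply E5_mem_fo
      intro p hp
      rcases Finset.mem_insert.1 hp with h | h
      · subst h
        exact fun h => (hxU _ hf).2 h.symm
      · exact E5_of_fo hqfo p h
    · intro y hy hyx p hp
      rcases Finset.mem_insert.1 hp with h | h
      · subst h
        exact ⟨hyx.symm, (hy _ hf).1⟩
      · exact hy p h
  · refine ⟨M, r, hLin, Finset.Subset.refl _, hMD, Nat.le_succ _, hB, hrW, hrfi, ?_,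
      Relation.ReflTransGen.refl, fun p hp => Or.inl hp, hqfo, fun y hy _ => hy⟩
    rw [← hoi r, hr]

/-- Case (B). -/
theorem E5_B (hE4a : T_E4a) (hE5b : T_E5b) (D M : Finset (V × V))
    (o i : V → Bool) (W : Finset V) (m k : ℕ) (hT : Typed D o i W m k) (hk : 20 * m + 20 ≤ k)
    (hM : Matching M) (hMD : M ⊆ D) (hMc : M.card ≤ m + 2) (hB : Balanced M o i)
    (hoi : ∀ v, o v = i v) (r q : V) (hf : (r, q) ∈ M) (hr : o r = true) (hq : i q = false) :
    ∃ σ : Equiv.Perm V, Ham D σ ∧ ∀ v, (v, σ v) ∈ M ∨ o v = i (σ v) := by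
  classical
  obtain ⟨F, s, hL, hMF, hFD, hFc, hFB, hsW, hsfi, his, hsr, hFM, hqfo, hunt⟩ :=
    E5_B1 hE4a D M o i W m k hT hk hM hMD hMc hB hoi r q hf hr
  have hsq : Relation.ReflTransGen (fun a b => (a, b) ∈ F) s q := hsr.tail (hMF hf)
  have hoq : o q = false := by rw [hoi q, hq]
  by_cases hqW : q ∈ W
  · have hout := hT.outW q hqW
    have htc := E5_tch_card M
    have hWc := hT.cardW
    have hX : (W ∪ E5_tch M).card < k := by
      have := Finset.card_union_le W (E5_tch M)
      omega
    obtain ⟨y, hy1, hy2⟩ := E5_pick _ _ (lt_of_lt_of_le hX hout)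
    have hy1' := Finset.mem_filter.1 hy1
    have hiy : i y = false := by
      have h := hy1'.1
      unfold cls at h
      rw [(Finset.mem_filter.1 h).2, hoq]
    have hyD : (q, y) ∈ D := hy1'.2
    rw [Finset.mem_union, not_or] at hy2
    have hys : y ≠ s := by
      intro h
      rw [h, his] at hiy
      exact absurd hiy (by decide)
    have hyU := hunt y (E5_unt hy2.2) hys
    have hyq : y ≠ q := fun h => hy2.1 (by rw [h]; exact hqW)
    have hL1 : Lin (insert (q, y) F) := (hE4a V F q y hL hyq hyU).1 hqfo
    have hoy : o y = false := by rw [hoi y, hiy]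
    have hsub : insert (q, y) F ⊆ D := by
      intro p hp
      rcases Finset.mem_insert.1 hp with h | h
      · subst h
        exact hyD
      · exact hFD h
    have hcard : (insert (q, y) F).card ≤ m + 4 := by
      have h1 := Finset.card_insert_le (q, y) F
      omega
    have hBal : Balanced (insert (q, y) F) o i := by
      apply E5_bal _ _ _ _ _ hFB
      rw [hoq, hiy]
    obtain ⟨σ, hσ, hσ2⟩ := hE5b V D _ o i W m k s y hT hk hL1 hsub hcard hBal hsW hy2.1
      (E5_mem_fi (by
        intro p hp
        rcases Finset.mem_insert.1 hp with h | h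
        · subst h
          exact hys
        · exact E5_of_fi hsfi p h))
      (E5_mem_fo (by
        intro p hp
        rcases Finset.mem_insert.1 hp with h | h
        · subst h
          exact hyq.symm
        · exact (hyU p h).1)) his hoy
      ((E5_mono F (insert (q, y) F) (Finset.subset_insert _ _) s q hsq).tail
        (Finset.mem_insert_self _ _))
    refine ⟨σ, hσ, fun v => ?_⟩
    rcases hσ2 v with h | h
    · rcases Finset.mem_insert.1 h with h | h
      · right
        have h1 : v = q := congrArg Prod.fst h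
        have h2 : σ v = y := congrArg Prod.snd h
        rw [h2, h1, hoq, hiy]
      · exact hFM _ h
    · exact Or.inr h
  · obtain ⟨σ, hσ, hσ2⟩ := hE5b V D F o i W m k s q hT hk hL hFD (by omega) hFB hsW hqW
      hsfi hqfo his hoq hsq
    refine ⟨σ, hσ, fun v => ?_⟩
    rcases hσ2 v with h | h
    · exact hFM _ h
    · exact Or.inr h

/-- Target E5. -/
theorem p_E5 (hE4a : T_E4a) (hE5b : T_E5b) : T_E5 := by
  intro V _ _ D M o i W m k hT hk hM hMD hMc hB hcase
  rcases hcase with ⟨p0, h1, h2, h3⟩ | ⟨hoi, f, hf, h1, h2⟩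
  · exact E5_A hE4a hE5b D M o i W m k hT hk hM hMD hMc hB p0 h1 h2 h3
  · obtain ⟨r, q⟩ := f
    exact E5_B hE4a hE5b D M o i W m k hT hk hM hMD hMc hB hoi r q hf h1 h2

end Pool.Agent.TEH
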