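import Pool.Agent.TEH.Targets

/-!
# TEH, target E5b: Hamilton cycle from a small balanced linear forest with an anchor
-/

set_option autoImplicit false

namespace Pool.Agent.TEH

variable {V : Type} [Fintype V] [DecidableEq V]

/-- Splitting a class according to whether an arc of the forest leaves the vertex. -/
theorem E5b_out (F : Finset (V × V)) (o : V → Bool) (c : Bool)
    (hF : ∀ p ∈ F, ∀ q ∈ F, p.1 = q.1 → p = q) :
    (cls o c).card = ((fo F).filter (fun v => o v = c)).card +
      (F.filter (fun p => o p.1 = c)).card := by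
  classical
  have h1 : (F.filter (fun p => o p.1 = c)).card =
      ((F.filter (fun p => o p.1 = c)).image Prod.fst).card := by
    rw [Finset.card_image_of_injOn]
    intro p hp q hq hpq
    have hp' := (Finset.mem_filter.1 (Finset.mem_coe.1 hp)).1
    have hq' := (Finset.mem_filter.1 (Finset.mem_coe.1 hq)).1
    exact hF p hp' q hq' hpq
  rw [h1, ← Finset.card_union_of_disjoint]
  · congr 1
    ext v
    simp only [cls, fo, Finset.mem_filter, Finset.mem_univ, true_and, Finset.mem_union,
      Finset.mem_sdiff, Finset.mem_image]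
    constructor
    · intro hv
      by_cases h : ∃ p ∈ F, p.1 = v
      · right
        obtain ⟨p, hp, hpv⟩ := h
        exact ⟨p, ⟨hp, by rw [hpv]; exact hv⟩, hpv⟩
      · left
        exact ⟨h, hv⟩
    · rintro (⟨_, hv⟩ | ⟨p, ⟨_, hp⟩, hpv⟩)
      · exact hv
      · rw [← hpv]
        exact hp
  · rw [Finset.disjoint_left]
    intro v hv hv2
    simp only [fo, Finset.mem_filter, Finset.mem_univ, true_and,
      Finset.mem_sdiff, Finset.mem_image] at hv hv2
    obtain ⟨p, ⟨hp, _⟩, hpv⟩ := hv2
    exact hv.1 ⟨p, hp, hpv⟩

/-- Splitting a class according to whether an arc of the forest comes to the vertex. -/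
theorem E5b_in (F : Finset (V × V)) (i : V → Bool) (c : Bool)
    (hF : ∀ p ∈ F, ∀ q ∈ F, p.2 = q.2 → p = q) :
    (cls i c).card = ((fi F).filter (fun v => i v = c)).card +
      (F.filter (fun p => i p.2 = c)).card := by
  classical
  have h1 : (F.filter (fun p => i p.2 = c)).card =
      ((F.filter (fun p => i p.2 = c)).image Prod.snd).card := by
    rw [Finset.card_image_of_injOn]
    intro p hp q hq hpq
    have hp' := (Finset.mem_filter.1 (Finset.mem_coe.1 hp)).1
    have hq' := (Finset.mem_filter.1 (Finset.mem_coe.1 hq)).1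
    exact hF p hp' q hq' hpq
  rw [h1, ← Finset.card_union_of_disjoint]
  · congr 1
    ext v
    simp only [cls, fi, Finset.mem_filter, Finset.mem_univ, true_and, Finset.mem_union,
      Finset.mem_sdiff, Finset.mem_image]
    constructor
    · intro hv
      by_cases h : ∃ p ∈ F, p.2 = v
      · right
        obtain ⟨p, hp, hpv⟩ := h
        exact ⟨p, ⟨hp, by rw [hpv]; exact hv⟩, hpv⟩
      · left
        exact ⟨h, hv⟩
    · rintro (⟨_, hv⟩ | ⟨p, ⟨_, hp⟩, hpv⟩)
      · exact hv
      · rw [← hpv]
        exact hp
  · rw [Finset.disjoint_left]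
    intro v hv hv2
    simp only [fi, Finset.mem_filter, Finset.mem_univ, true_and,
      Finset.mem_sdiff, Finset.mem_image] at hv hv2
    obtain ⟨p, ⟨hp, _⟩, hpv⟩ := hv2
    exact hv.1 ⟨p, hp, hpv⟩

/-- Adding typical arcs keeps the balance. -/
theorem E5b_bal (F0 F : Finset (V × V)) (o i : V → Bool) (hsub : F0 ⊆ F)
    (htyp : ∀ p ∈ F, p ∈ F0 ∨ o p.1 = i p.2) (hB : Balanced F0 o i) : Balanced F o i := by
  classical
  intro c
  have key : ∀ P : V × V → Prop, [DecidablePred P] → (F.filter P).card =
      (F0.filter P).card + ((F \ F0).filter P).card := by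
    intro P _
    rw [← Finset.card_union_of_disjoint]
    · congr 1
      ext p
      simp only [Finset.mem_filter, Finset.mem_union, Finset.mem_sdiff]
      constructor
      · rintro ⟨h1, h2⟩
        by_cases h : p ∈ F0
        · exact Or.inl ⟨h, h2⟩
        · exact Or.inr ⟨⟨h1, h⟩, h2⟩
      · rintro (⟨h1, h2⟩ | ⟨⟨h1, _⟩, h2⟩)
        · exact ⟨hsub h1, h2⟩
        · exact ⟨h1, h2⟩
    · rw [Finset.disjoint_left]
      intro p hp hp2
      simp only [Finset.mem_filter, Finset.mem_sdiff] at hp hp2
      exact hp2.1.2 hp.1
  have e : ((F \ F0).filter (fun p => i p.2 = c)).card =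
      ((F \ F0).filter (fun p => o p.1 = c)).card := by
    congr 1
    apply Finset.filter_congr
    intro p hp
    rw [Finset.mem_sdiff] at hp
    rcases htyp p hp.1 with h | h
    · exact absurd h hp.2
    · rw [h]
  have h0 := hB c
  rw [key (fun p => i p.2 = c), key (fun p => o p.1 = c), e]
  omega

theorem p_E5b (hE3 : T_E3) (hE4 : T_E4) : T_E5b := by
  classical
  intro V _ _ D F0 o i W m k s t hT hk hL hsub hc hB hsW htW hs ht his hot hpath
  have hWc := hT.cardW
  have hZ : Disjoint ({s, t} : Finset V) W := by
    rw [Finset.disjoint_left]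
    intro z hz
    rw [Finset.mem_insert, Finset.mem_singleton] at hz
    rcases hz with h | h
    · rw [h]
      exact hsW
    · rw [h]
      exact htW
  have hZc : ({s, t} : Finset V).card ≤ 2 := Finset.card_le_two
  obtain ⟨F, hF0, hFD, hFL, hFc, hW, htyp, hzo, hzi⟩ := hE4 V D F0 o i W {s, t} hL hsub hZ
    (fun w hw => by
      have := hT.outW w hw
      omega)
    (fun w hw => by
      have := hT.inW w hw
      omega)
  have hBF := E5b_bal F0 F o i hF0 htyp hB
  have hout : ∀ c, (cls o c).card = ((fo F).filter (fun v => o v = c)).card +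
      (F.filter (fun p => o p.1 = c)).card := fun c => E5b_out F o c hFL.1
  have hin : ∀ c, (cls i c).card = ((fi F).filter (fun v => i v = c)).card +
      (F.filter (fun p => i p.2 = c)).card := fun c => E5b_in F i c hFL.2.1
  have hpath2 : Relation.ReflTransGen (fun a b => (a, b) ∈ F) s t := by
    have hgen : ∀ a b, Relation.ReflTransGen (fun a b => (a, b) ∈ F0) a b →
        Relation.ReflTransGen (fun a b => (a, b) ∈ F) a b := by
      intro a b hab
      induction hab with
      | refl => exact Relation.ReflTransGen.refl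
      | tail _ h ih => exact Relation.ReflTransGen.tail ih (hF0 h)
    exact hgen s t hpath
  obtain ⟨σ, hσ, hσ2⟩ := hE3 V D F o i m s t hFL hFD
    (by
      intro v hv
      have hvW : v ∉ W := fun h => (hW v h).1 hv
      refine le_trans (Finset.card_le_card ?_) (hT.outG v hvW)
      intro w hw
      rw [Finset.mem_filter] at hw
      rw [Finset.mem_filter]
      refine ⟨?_, hw.2.2⟩
      rw [cls, Finset.mem_filter]
      exact ⟨Finset.mem_univ _, hw.2.1⟩)
    (by
      intro w hw
      have hwW : w ∉ W := fun h => (hW w h).2 hw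
      refine le_trans (Finset.card_le_card ?_) (hT.inG w hwW)
      intro v hv
      rw [Finset.mem_filter] at hv
      rw [Finset.mem_filter]
      refine ⟨?_, hv.2.2⟩
      rw [cls, Finset.mem_filter]
      exact ⟨Finset.mem_univ _, hv.2.1⟩)
    (by
      intro c
      have h1 := hout c
      have h2 := hin c
      have h3 := hBF c
      omega)
    (by
      intro c
      have h1 := hout c
      have h2 := hT.bigO c
      have h3 : (F.filter (fun p => o p.1 = c)).card ≤ F.card :=
        Finset.card_filter_le _ _
      omega)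
    (hzi s (by simp) hs) his (hzo t (by simp) ht) hot
    hpath2
  refine ⟨σ, hσ, ?_⟩
  intro v
  rcases hσ2 v with h | h
  · rcases htyp _ h with h' | h'
    · exact Or.inl h'
    · exact Or.inr h'
  · exact Or.inr h

end Pool.Agent.TEH
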