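import Pool.Agent.TEH.Targets

set_option autoImplicit false

/-! # TEH, target E6a: base labels from an extremal pair (helper30) -/

namespace Pool.Agent.TEH

open Finset

namespace E6a_

variable {V : Type} [Fintype V] [DecidableEq V]

theorem fib_out (D : Finset (V × V)) (P : Finset V) :
    ∑ v ∈ P, (outN D v).card = (D.filter (fun p => p.1 ∈ P)).card := by
  rw [Finset.card_eq_sum_card_fiberwise (f := Prod.fst) (s := D.filter (fun p => p.1 ∈ P)) (t := P)]
  · refine Finset.sum_congr rfl fun v hv => ?_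
    refine Finset.card_bij (fun w _ => (v, w)) ?_ ?_ ?_
    · intro w hw
      simp only [outN, mem_filter, mem_univ, true_and] at hw ⊢
      exact ⟨⟨hw, hv⟩, trivial⟩
    · intro w _ w' _ h
      exact (Prod.ext_iff.1 h).2
    · rintro ⟨u, w⟩ hp
      simp only [mem_filter] at hp
      obtain ⟨⟨h1, h2⟩, h3⟩ := hp
      subst h3
      exact ⟨w, by simp [outN, h1], rfl⟩
  · intro p hp
    have := (mem_filter.1 hp).2
    exact this

theorem fib_in (D : Finset (V × V)) (Q : Finset V) :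
    ∑ w ∈ Q, (inN D w).card = (D.filter (fun p => p.2 ∈ Q)).card := by
  rw [Finset.card_eq_sum_card_fiberwise (f := Prod.snd) (s := D.filter (fun p => p.2 ∈ Q)) (t := Q)]
  · refine Finset.sum_congr rfl fun v hv => ?_
    refine Finset.card_bij (fun w _ => (w, v)) ?_ ?_ ?_
    · intro w hw
      simp only [inN, mem_filter, mem_univ, true_and] at hw ⊢
      exact ⟨⟨hw, hv⟩, trivial⟩
    · intro w _ w' _ h
      exact (Prod.ext_iff.1 h).1
    · rintro ⟨u, w⟩ hp
      simp only [mem_filter] at hp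
      obtain ⟨⟨h1, h2⟩, h3⟩ := hp
      subst h3
      exact ⟨u, by simp [inN, h1], rfl⟩
  · intro p hp
    have := (mem_filter.1 hp).2
    exact this

theorem split_out (D : Finset (V × V)) (P Q : Finset V) :
    (D.filter (fun p => p.1 ∈ P)).card = arcs D P Q + arcs D P Qᶜ := by
  unfold arcs
  rw [← Finset.card_filter_add_card_filter_not (s := D.filter (fun p => p.1 ∈ P))
    (p := fun p => p.2 ∈ Q), filter_filter, filter_filter]
  simp only [mem_compl]

theorem split_in (D : Finset (V × V)) (P Q : Finset V) :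
    (D.filter (fun p => p.2 ∈ Q)).card = arcs D P Q + arcs D Pᶜ Q := by
  unfold arcs
  rw [← Finset.card_filter_add_card_filter_not (s := D.filter (fun p => p.2 ∈ Q))
    (p := fun p => p.1 ∈ P), filter_filter, filter_filter]
  simp only [mem_compl]
  congr 2
  · ext p; simp [and_comm]
  · ext p; simp [and_comm]

omit [Fintype V] in
theorem non (D : Finset (V × V)) (P Q : Finset V) :
    arcs D P Q + ((P ×ˢ Q).filter (fun p => p ∉ D)).card = P.card * Q.card := by
  rw [← Finset.card_product, ← Finset.card_filter_add_card_filter_not (s := P ×ˢ Q)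
    (p := fun p => p ∈ D)]
  congr 1
  unfold arcs
  congr 1
  ext p
  simp only [mem_filter, mem_product]
  tauto

theorem ar (x y N A m : ℝ) (hN : 0 < N) (hx : (1 / 2 - 1 / 10 ^ 12) * N ≤ x) (hxN : x ≤ N)
    (hy : (1 / 2 - 1 / 10 ^ 12) * N ≤ y) (hA : A < 1 / 10 ^ 12 * N ^ 2) (hm : 0 ≤ m)
    (h : x * (y - N / 2) + m ≤ A) : y ≤ N / 2 + 3 / 10 ^ 12 * N ∧ m ≤ 2 / 10 ^ 12 * N ^ 2 := by
  have hNN : 0 < N * N := mul_pos hN hN
  have hx0 : 0 ≤ x := le_trans (mul_nonneg (by norm_num) hN.le) hx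
  constructor
  · by_contra hc
    push Not at hc
    have h1 : 3 / 10 ^ 12 * N ≤ y - N / 2 := by linarith
    have h2 : (1 / 2 - 1 / 10 ^ 12) * N * (3 / 10 ^ 12 * N) ≤ x * (y - N / 2) :=
      mul_le_mul hx h1 (by positivity) hx0
    have h3 : (1 / 2 - 1 / 10 ^ 12) * N * (3 / 10 ^ 12 * N)
        = (1 / 2 - 1 / 10 ^ 12) * (3 / 10 ^ 12) * (N * N) := by ring
    have h4 : 1 / 10 ^ 12 * N ^ 2 = 1 / 10 ^ 12 * (N * N) := by ring
    rw [h3] at h2
    rw [h4] at hA
    have h5 : (1 / 10 ^ 12 : ℝ) * (N * N) ≤ (1 / 2 - 1 / 10 ^ 12) * (3 / 10 ^ 12) * (N * N) :=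
      mul_le_mul_of_nonneg_right (by norm_num) hNN.le
    linarith
  · have h1 : -(1 / 10 ^ 12 * N) ≤ y - N / 2 := by linarith
    have h2 : x * -(1 / 10 ^ 12 * N) ≤ x * (y - N / 2) := mul_le_mul_of_nonneg_left h1 hx0
    have h3 : x * (1 / 10 ^ 12 * N) ≤ N * (1 / 10 ^ 12 * N) :=
      mul_le_mul_of_nonneg_right hxN (by positivity)
    nlinarith

/-- few vertices have many elements in their fibre -/
theorem mark {I J : Type} [DecidableEq I] [Fintype I] (M : Finset J) (f : J → I) (a : ℕ) :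
    (univ.filter (fun v => a < (M.filter (fun p => f p = v)).card)).card * (a + 1) ≤ M.card := by
  rw [Finset.card_eq_sum_card_fiberwise (f := f) (s := M) (t := univ) (fun _ _ => by simp)]
  have h := Finset.sum_le_sum_of_subset (f := fun v => (M.filter (fun p => f p = v)).card)
    (filter_subset (fun v => a < (M.filter (fun p => f p = v)).card) univ)
  refine le_trans ?_ h
  rw [← smul_eq_mul]
  exact Finset.card_nsmul_le_sum _ _ _ fun v hv => (mem_filter.1 hv).2

end E6a_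

theorem p_E6a : T_E6a := by
  intro V _ _ D X Y _ hn hout hin hX hY hA
  obtain ⟨n, hnV⟩ : ∃ n, n = Fintype.card V := ⟨_, rfl⟩
  rw [← hnV] at hn hX hY hA ⊢
  have hnR : (10 : ℝ) ^ 7 ≤ n := by exact_mod_cast hn
  have hout' : ∀ v, (n : ℝ) / 2 ≤ (outN D v).card := fun v => by
    have h := hout v
    rw [← hnV] at h
    have h' : (n : ℝ) ≤ 2 * (outN D v).card := by exact_mod_cast h
    linarith
  have hin' : ∀ v, (n : ℝ) / 2 ≤ (inN D v).card := fun v => by
    have h := hin v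
    rw [← hnV] at h
    have h' : (n : ℝ) ≤ 2 * (inN D v).card := by exact_mod_cast h
    linarith
  have hXc : (X.card : ℝ) + (Xᶜ.card : ℝ) = n := by
    have h := Finset.card_add_card_compl X
    rw [hnV]
    exact_mod_cast h
  have hYc : (Y.card : ℝ) + (Yᶜ.card : ℝ) = n := by
    have h := Finset.card_add_card_compl Y
    rw [hnV]
    exact_mod_cast h
  -- sums of degrees
  have h1 : (X.card : ℝ) * (n / 2) ≤ arcs D X Y + arcs D X Yᶜ := by
    have h := E6a_.fib_out D X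
    rw [E6a_.split_out D X Y] at h
    have h' : ((∑ v ∈ X, (outN D v).card : ℕ) : ℝ) = arcs D X Y + arcs D X Yᶜ := by
      rw [h]; push_cast; ring
    rw [← h', Nat.cast_sum, ← nsmul_eq_mul]
    exact Finset.card_nsmul_le_sum _ _ _ fun v _ => hout' v
  have h2 : (Y.card : ℝ) * (n / 2) ≤ arcs D X Y + arcs D Xᶜ Y := by
    have h := E6a_.fib_in D Y
    rw [E6a_.split_in D X Y] at h
    have h' : ((∑ v ∈ Y, (inN D v).card : ℕ) : ℝ) = arcs D X Y + arcs D Xᶜ Y := by
      rw [h]; push_cast; ring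
    rw [← h', Nat.cast_sum, ← nsmul_eq_mul]
    exact Finset.card_nsmul_le_sum _ _ _ fun v _ => hin' v
  obtain ⟨m1, hm1⟩ : ∃ m1, m1 = ((X ×ˢ Yᶜ).filter (fun p => p ∉ D)).card := ⟨_, rfl⟩
  obtain ⟨m2, hm2⟩ : ∃ m2, m2 = ((Xᶜ ×ˢ Y).filter (fun p => p ∉ D)).card := ⟨_, rfl⟩
  have h3 : (arcs D X Yᶜ : ℝ) + m1 = X.card * Yᶜ.card := by
    rw [hm1]; exact_mod_cast E6a_.non D X Yᶜ
  have h4 : (arcs D Xᶜ Y : ℝ) + m2 = Xᶜ.card * Y.card := by
    rw [hm2]; exact_mod_cast E6a_.non D Xᶜ Y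
  have hm10 : (0 : ℝ) ≤ m1 := Nat.cast_nonneg _
  have hm20 : (0 : ℝ) ≤ m2 := Nat.cast_nonneg _
  have hX0 : (0 : ℝ) ≤ X.card := Nat.cast_nonneg _
  have hY0 : (0 : ℝ) ≤ Y.card := Nat.cast_nonneg _
  have hXc0 : (0 : ℝ) ≤ Xᶜ.card := Nat.cast_nonneg _
  have hYc0 : (0 : ℝ) ≤ Yᶜ.card := Nat.cast_nonneg _
  obtain ⟨x, hx⟩ : ∃ x : ℝ, x = X.card := ⟨_, rfl⟩
  obtain ⟨y, hy⟩ : ∃ y : ℝ, y = Y.card := ⟨_, rfl⟩
  obtain ⟨x', hx'⟩ : ∃ x' : ℝ, x' = Xᶜ.card := ⟨_, rfl⟩
  obtain ⟨y', hy'⟩ : ∃ y' : ℝ, y' = Yᶜ.card := ⟨_, rfl⟩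
  rw [← hx, ← hy'] at h3
  rw [← hx', ← hy] at h4
  rw [← hx] at h1 hX hX0
  rw [← hy] at h2 hY hY0
  rw [← hx, ← hx'] at hXc
  rw [← hy, ← hy'] at hYc
  obtain ⟨N, hN⟩ : ∃ N : ℝ, N = n := ⟨_, rfl⟩
  rw [← hN] at hX hY hA h1 h2 hXc hYc hnR
  have hN0 : 0 < N := by linarith [show (0 : ℝ) < 10 ^ 7 by norm_num]
  have hxx := E6a_.ar x y N (arcs D X Y) m1 hN0 hX (by linarith) hY hA hm10 (by nlinarith)
  have hyy := E6a_.ar y x N (arcs D X Y) m2 hN0 hY (by linarith) hX hA hm20 (by nlinarith)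
  obtain ⟨hy2, hm1'⟩ := hxx
  obtain ⟨hx2, hm2'⟩ := hyy
  -- the error
  obtain ⟨a, ha⟩ : ∃ a, a = n / 100000 := ⟨_, rfl⟩
  rw [← ha]
  have ha1 : n < 100000 * (a + 1) := by omega
  have ha2 : (N : ℝ) < 100000 * (a + 1) := by
    rw [hN]
    exact_mod_cast ha1
  have ha3 : 99 / 100 * N ≤ 100000 * a := by linarith
  have ha0 : (0 : ℝ) < a := by linarith
  -- labels
  let o : V → Bool := fun v => decide (v ∉ X)
  let i : V → Bool := fun v => decide (v ∈ Y)
  have hoF : cls o false = X := by ext v; simp [cls, o]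
  have hoT : cls o true = Xᶜ := by ext v; simp [cls, o]
  have hiF : cls i false = Yᶜ := by ext v; simp [cls, i]
  have hiT : cls i true = Y := by ext v; simp [cls, i]
  obtain ⟨Mis, hMis⟩ : ∃ Mis : Finset (V × V), Mis = univ.filter (fun p => o p.1 = i p.2 ∧ p ∉ D) :=
    ⟨_, rfl⟩
  have hMc : Mis.card = m1 + m2 := by
    rw [hm1, hm2, ← Finset.card_union_of_disjoint]
    · congr 1
      rw [hMis]
      ext p
      simp only [mem_filter, mem_univ, true_and, mem_union, mem_product, mem_compl, o, i,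
        decide_eq_decide]
      tauto
    · rw [Finset.disjoint_left]
      intro p hp hp'
      simp only [mem_filter, mem_product, mem_compl] at hp hp'
      exact hp'.1.1 hp.1.1
  have hMR : (Mis.card : ℝ) ≤ 4 / 10 ^ 12 * N ^ 2 := by
    rw [hMc]
    push_cast
    linarith
  obtain ⟨W1, hW1⟩ : ∃ W1 : Finset V, W1 = univ.filter
      (fun v => a < (Mis.filter (fun p => p.1 = v)).card) := ⟨_, rfl⟩
  obtain ⟨W2, hW2⟩ : ∃ W2 : Finset V, W2 = univ.filter
      (fun v => a < (Mis.filter (fun p => p.2 = v)).card) := ⟨_, rfl⟩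
  have hW1c : W1.card * (a + 1) ≤ Mis.card := hW1 ▸ E6a_.mark Mis Prod.fst a
  have hW2c : W2.card * (a + 1) ≤ Mis.card := hW2 ▸ E6a_.mark Mis Prod.snd a
  have hfo : ∀ v, ((cls i (o v)).filter (fun w => (v, w) ∉ D)).card
      = (Mis.filter (fun p => p.1 = v)).card := by
    intro v
    refine Finset.card_bij (fun w _ => (v, w)) ?_ ?_ ?_
    · intro w hw
      simp only [cls, mem_filter, mem_univ, true_and] at hw
      simp only [hMis, mem_filter, mem_univ, true_and]
      exact ⟨⟨hw.1.symm, hw.2⟩, trivial⟩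
    · intro w _ w' _ h
      exact (Prod.ext_iff.1 h).2
    · rintro ⟨u, w⟩ hp
      simp only [hMis, mem_filter, mem_univ, true_and] at hp
      obtain ⟨⟨h1, h2⟩, h3⟩ := hp
      subst h3
      exact ⟨w, by simp only [cls, mem_filter, mem_univ, true_and]; exact ⟨h1.symm, h2⟩, rfl⟩
  have hfi : ∀ w, ((cls o (i w)).filter (fun v => (v, w) ∉ D)).card
      = (Mis.filter (fun p => p.2 = w)).card := by
    intro w
    refine Finset.card_bij (fun v _ => (v, w)) ?_ ?_ ?_
    · intro v hv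
      simp only [cls, mem_filter, mem_univ, true_and] at hv
      simp only [hMis, mem_filter, mem_univ, true_and]
      exact ⟨⟨hv.1, hv.2⟩, trivial⟩
    · intro w _ w' _ h
      exact (Prod.ext_iff.1 h).1
    · rintro ⟨u, v⟩ hp
      simp only [hMis, mem_filter, mem_univ, true_and] at hp
      obtain ⟨⟨h1, h2⟩, h3⟩ := hp
      subst h3
      exact ⟨u, by simp only [cls, mem_filter, mem_univ, true_and]; exact ⟨h1, h2⟩, rfl⟩
  have hcX : ((cls o false).card : ℝ) = x ∧ ((cls o true).card : ℝ) = x' := by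
    rw [hoF, hoT, hx, hx']; exact ⟨rfl, rfl⟩
  have hcY : ((cls i false).card : ℝ) = y' ∧ ((cls i true).card : ℝ) = y := by
    rw [hiF, hiT, hy, hy']; exact ⟨rfl, rfl⟩
  refine ⟨o, i, W1 ∪ W2, ⟨?_, ?_, ?_, ?_, ?_, ?_, ?_⟩⟩
  · have h5 : ((W1.card + W2.card : ℕ) : ℝ) * a ≤ 8 / 10 ^ 12 * N ^ 2 := by
      have h6 : (W1.card : ℝ) * (a + 1) ≤ Mis.card := by exact_mod_cast hW1c
      have h7 : (W2.card : ℝ) * (a + 1) ≤ Mis.card := by exact_mod_cast hW2c
      have h8 : (0 : ℝ) ≤ W1.card := Nat.cast_nonneg _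
      have h9 : (0 : ℝ) ≤ W2.card := Nat.cast_nonneg _
      push_cast
      nlinarith
    have h6 : 8 / 10 ^ 12 * N ^ 2 ≤ (a : ℝ) * a := by
      have h7 : 99 / 10 ^ 7 * N ≤ a := by linarith
      have h8 : (99 / 10 ^ 7 * N) * (99 / 10 ^ 7 * N) ≤ (a : ℝ) * a :=
        mul_le_mul h7 h7 (by positivity) ha0.le
      nlinarith [mul_pos hN0 hN0]
    have h7 : ((W1.card + W2.card : ℕ) : ℝ) ≤ a := by
      by_contra hc
      push Not at hc
      have := mul_lt_mul_of_pos_right hc ha0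
      linarith
    exact (Finset.card_union_le _ _).trans (by exact_mod_cast h7)
  · intro v hv
    rw [hfo v]
    by_contra hc
    push Not at hc
    exact hv (mem_union_left _ (by rw [hW1]; simpa using hc))
  · intro v hv
    rw [hfi v]
    by_contra hc
    push Not at hc
    exact hv (mem_union_right _ (by rw [hW2]; simpa using hc))
  · intro c
    rw [← hnV]
    have h5 : (n : ℝ) ≤ 2 * (cls o c).card + 2 * a := by
      rcases c with _ | _
      · rw [hcX.1, ← hN]; linarith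
      · rw [hcX.2, ← hN]; linarith
    exact_mod_cast h5
  · intro c
    rw [← hnV]
    have h5 : 2 * ((cls o c).card : ℝ) ≤ n + 2 * a := by
      rcases c with _ | _
      · rw [hcX.1, ← hN]; linarith
      · rw [hcX.2, ← hN]; linarith
    exact_mod_cast h5
  · intro c
    rw [← hnV]
    have h5 : (n : ℝ) ≤ 2 * (cls i c).card + 2 * a := by
      rcases c with _ | _
      · rw [hcY.1, ← hN]; linarith
      · rw [hcY.2, ← hN]; linarith
    exact_mod_cast h5
  · intro c
    rw [← hnV]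
    have h5 : 2 * ((cls i c).card : ℝ) ≤ n + 2 * a := by
      rcases c with _ | _
      · rw [hcY.1, ← hN]; linarith
      · rw [hcY.2, ← hN]; linarith
    exact_mod_cast h5

end Pool.Agent.TEH
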