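import Pool.Agent.TEH.Targets

/-!
# TEH, part E6b: re-typing of base labels
-/

set_option autoImplicit false

namespace Pool.Agent.TEH

open Finset

namespace E6b_

variable {V : Type} [Fintype V] [DecidableEq V]

lemma mem_cls (o : V → Bool) (c : Bool) (v : V) : v ∈ cls o c ↔ o v = c := by
  simp [cls]

/-- Changing labels inside `W` changes the filtered classes by at most `|W|`. -/
lemma filter_le (i i' : V → Bool) (W : Finset V) (h : ∀ v ∉ W, i v = i' v) (c : Bool)
    (p : V → Prop) [DecidablePred p] :
    ((cls i c).filter p).card ≤ ((cls i' c).filter p).card + W.card := by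
  have h1 : (cls i c).filter p ⊆ (cls i' c).filter p ∪ W := by
    intro v hv
    rw [mem_filter, mem_cls] at hv
    rw [mem_union, mem_filter, mem_cls]
    by_cases hw : v ∈ W
    · right; exact hw
    · left; rw [← h v hw]; exact hv
  exact (card_le_card h1).trans (card_union_le _ _)

lemma cls_le (i i' : V → Bool) (W : Finset V) (h : ∀ v ∉ W, i v = i' v) (c : Bool) :
    (cls i c).card ≤ (cls i' c).card + W.card := by
  have h1 : cls i c ⊆ cls i' c ∪ W := by
    intro v hv
    rw [mem_cls] at hv
    rw [mem_union, mem_cls]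
    by_cases hw : v ∈ W
    · right; exact hw
    · left; rw [← h v hw]; exact hv
  exact (card_le_card h1).trans (card_union_le _ _)

/-- The two classes of a labelling have `n` elements together. -/
lemma cls_add (i : V → Bool) : (cls i true).card + (cls i false).card = Fintype.card V := by
  have h1 : (cls i true) ∪ (cls i false) = (univ : Finset V) := by
    ext v
    rw [mem_union, mem_cls, mem_cls]
    cases i v <;> simp
  have h2 : Disjoint (cls i true) (cls i false) := by
    rw [Finset.disjoint_left]
    intro v h3 h4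
    rw [mem_cls] at h3 h4
    rw [h3] at h4
    exact Bool.noConfusion h4
  rw [← card_union_of_disjoint h2, h1, card_univ]

/-- Splitting a filtered set according to a labelling. -/
lemma filter_add (i : V → Bool) (p : V → Prop) [DecidablePred p] :
    ((cls i true).filter p).card + ((cls i false).filter p).card = (univ.filter p).card := by
  have h1 : (cls i true).filter p ∪ (cls i false).filter p = univ.filter p := by
    ext v
    rw [mem_union, mem_filter, mem_filter, mem_cls, mem_cls, mem_filter]
    cases i v <;> simp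
  have h2 : Disjoint ((cls i true).filter p) ((cls i false).filter p) := by
    rw [Finset.disjoint_left]
    intro v h3 h4
    rw [mem_filter, mem_cls] at h3 h4
    rw [h3.1] at h4
    exact Bool.noConfusion h4.1
  rw [← card_union_of_disjoint h2, h1]

/-- Majority label. -/
lemma majority (i : V → Bool) (p : V → Prop) [DecidablePred p]
    (h : Fintype.card V ≤ 2 * (univ.filter p).card) :
    ∃ c : Bool, Fintype.card V ≤ 4 * ((cls i c).filter p).card := by
  have h1 := filter_add i p
  by_cases h2 : Fintype.card V ≤ 4 * ((cls i true).filter p).card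
  · exact ⟨true, h2⟩
  · refine ⟨false, ?_⟩
    omega

/-- Step 1 for one side. -/
lemma step1 (R : V → V → Prop) [∀ v, DecidablePred (R v)] (o0 i0 : V → Bool) (W0 : Finset V)
    (h : ∀ v, Fintype.card V ≤ 2 * (univ.filter (R v)).card) :
    ∃ o1 : V → Bool, (∀ v ∉ W0, o1 v = o0 v) ∧
      ∀ v ∈ W0, Fintype.card V ≤ 4 * ((cls i0 (o1 v)).filter (R v)).card := by
  choose c hc using fun v => majority i0 (R v) (h v)
  refine ⟨fun v => if v ∈ W0 then c v else o0 v, fun v hv => if_neg hv, fun v hv => ?_⟩
  have h1 : (if v ∈ W0 then c v else o0 v) = c v := if_pos hv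
  simp only [h1]
  exact hc v

/-- Choosing two subsets with given total size. -/
lemma choose2 (A B : Finset V) (k : ℕ) (hk : k ≤ A.card + B.card) :
    ∃ A' B' : Finset V, A' ⊆ A ∧ B' ⊆ B ∧ A'.card + B'.card = k := by
  obtain ⟨A', hA, hA'⟩ := exists_subset_card_eq (s := A) (n := min k A.card) (min_le_right _ _)
  obtain ⟨B', hB, hB'⟩ := exists_subset_card_eq (s := B) (n := k - min k A.card) (by omega)
  exact ⟨A', B', hA, hB, by omega⟩

/-- Every vertex has many typical arcs with respect to the base classes (one side). -/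
lemma many (R : V → V → Prop) [∀ v, DecidablePred (R v)] (o0 o1 i0 : V → Bool)
    (W0 A' : Finset V) (a : ℕ) (ha : 1 ≤ a) (hn : 100000 * a ≤ Fintype.card V)
    (hlo : ∀ c, Fintype.card V ≤ 2 * (cls i0 c).card + 2 * a)
    (hG : ∀ v ∉ W0, ((cls i0 (o0 v)).filter (fun w => ¬ R v w)).card ≤ a)
    (ho1 : ∀ v ∉ W0, o1 v = o0 v)
    (ho1' : ∀ v ∈ W0, Fintype.card V ≤ 4 * ((cls i0 (o1 v)).filter (R v)).card)
    (o : V → Bool) (c : Bool) (hoA : ∀ v ∈ A', o v = c) (hoA' : ∀ v ∉ A', o v = o1 v)
    (hA : ∀ v ∈ A', Fintype.card V ≤ 300 * ((cls i0 c).filter (R v)).card) (v : V) :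
    Fintype.card V ≤ 300 * ((cls i0 (o v)).filter (R v)).card := by
  by_cases h1 : v ∈ A'
  · rw [hoA v h1]
    exact hA v h1
  · rw [hoA' v h1]
    by_cases h2 : v ∈ W0
    · have := ho1' v h2
      omega
    · rw [ho1 v h2]
      have h3 := hG v h2
      have h4 := hlo (o0 v)
      have h5 := card_filter_add_card_filter_not (s := cls i0 (o0 v)) (R v)
      omega

/-- The conclusion of E6b. -/
def Concl (D : Finset (V × V)) (a : ℕ) : Prop :=
  ∃ (o i : V → Bool) (W : Finset V) (d : ℕ), Typed D o i W (6 * a) (180 * a) ∧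
    (cls o false).card = (cls i false).card + d ∧ d ≤ 4 * a ∧
    (0 < d →
      (∀ v, o v = false →
        250 * ((cls i true).filter (fun w => (v, w) ∈ D)).card ≤ Fintype.card V) ∧
      (∀ w, i w = true →
        250 * ((cls o false).filter (fun v => (v, w) ∈ D)).card ≤ Fintype.card V)) ∧
    ∀ c, 2 * Fintype.card V ≤ 5 * (cls o c).card ∧ 2 * Fintype.card V ≤ 5 * (cls i c).card

/-- Step 2: the labels after step 1 are changed on `A'` and `B'`. -/
lemma step2 (D : Finset (V × V)) (o0 i0 o1 i1 : V → Bool) (W0 : Finset V) (a : ℕ)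
    (hl : Loopless D) (hB : Base D o0 i0 W0 a) (ha : 1 ≤ a)
    (hn : 100000 * a ≤ Fintype.card V)
    (ho1 : ∀ v ∉ W0, o1 v = o0 v) (hi1 : ∀ v ∉ W0, i1 v = i0 v)
    (ho1' : ∀ v ∈ W0,
      Fintype.card V ≤ 4 * ((cls i0 (o1 v)).filter (fun w => (v, w) ∈ D)).card)
    (hi1' : ∀ w ∈ W0,
      Fintype.card V ≤ 4 * ((cls o0 (i1 w)).filter (fun v => (v, w) ∈ D)).card)
    (hd : (cls i1 false).card ≤ (cls o1 false).card) : Concl D a := by
  classical
  -- sizes after step 1
  have so1 := cls_le o1 o0 W0 ho1 false
  have si1 := cls_le i0 i1 W0 (fun v hv => (hi1 v hv).symm) false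
  have hW0 := hB.cardW
  have hiO := hB.hiO false
  have loI := hB.loI false
  -- the sets `A` and `B`
  set A : Finset V := (cls o1 false).filter (fun v =>
    Fintype.card V ≤ 300 * ((cls i0 true).filter (fun w => (v, w) ∈ D)).card) with hAdef
  set B : Finset V := (cls i1 true).filter (fun w =>
    Fintype.card V ≤ 300 * ((cls o0 false).filter (fun v => (v, w) ∈ D)).card) with hBdef
  obtain ⟨A', B', hA, hB', hAB⟩ := choose2 A B
    (min ((cls o1 false).card - (cls i1 false).card) (A.card + B.card)) (min_le_right _ _)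
  -- the new labels
  obtain ⟨o, ho⟩ : ∃ o : V → Bool, o = fun v => if v ∈ A' then true else o1 v := ⟨_, rfl⟩
  obtain ⟨i, hi⟩ : ∃ i : V → Bool, i = fun v => if v ∈ B' then false else i1 v := ⟨_, rfl⟩
  have hoA : ∀ v ∈ A', o v = true := fun v hv => by rw [ho]; exact if_pos hv
  have hoA' : ∀ v ∉ A', o v = o1 v := fun v hv => by rw [ho]; exact if_neg hv
  have hiB : ∀ v ∈ B', i v = false := fun v hv => by rw [hi]; exact if_pos hv
  have hiB' : ∀ v ∉ B', i v = i1 v := fun v hv => by rw [hi]; exact if_neg hv
  clear_value A B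
  clear ho hi
  have hAo : ∀ v ∈ A', o1 v = false := by
    intro v hv
    have := hA hv
    rw [hAdef, mem_filter, mem_cls] at this
    exact this.1
  have hBi : ∀ v ∈ B', i1 v = true := by
    intro v hv
    have := hB' hv
    rw [hBdef, mem_filter, mem_cls] at this
    exact this.1
  -- sizes of the new classes
  have c1 : (cls o false).card + A'.card = (cls o1 false).card := by
    have e : cls o1 false = cls o false ∪ A' := by
      ext v
      rw [mem_union, mem_cls, mem_cls]
      by_cases hv : v ∈ A'
      · simp [hv, hAo v hv]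
      · simp [hv, hoA' v hv]
    have dj : Disjoint (cls o false) A' := by
      rw [Finset.disjoint_left]
      intro v h3 h4
      rw [mem_cls, hoA v h4] at h3
      exact Bool.noConfusion h3
    rw [e, card_union_of_disjoint dj]
  have c2 : (cls i false).card = (cls i1 false).card + B'.card := by
    have e : cls i false = cls i1 false ∪ B' := by
      ext v
      rw [mem_union, mem_cls, mem_cls]
      by_cases hv : v ∈ B'
      · simp [hv, hiB v hv]
      · simp [hv, hiB' v hv]
    have dj : Disjoint (cls i1 false) B' := by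
      rw [Finset.disjoint_left]
      intro v h3 h4
      rw [mem_cls, hBi v h4] at h3
      exact Bool.noConfusion h3
    rw [e, card_union_of_disjoint dj]
  -- the exceptional set
  obtain ⟨W, hW⟩ : ∃ W : Finset V, W = W0 ∪ (A' ∪ B') := ⟨_, rfl⟩
  have cW : W.card ≤ 5 * a := by
    have h1 : W.card ≤ W0.card + (A' ∪ B').card := by rw [hW]; exact card_union_le _ _
    have h2 : (A' ∪ B').card ≤ A'.card + B'.card := card_union_le _ _
    omega
  have nW : ∀ v ∉ W, v ∉ W0 ∧ v ∉ A' ∧ v ∉ B' := by
    intro v hv
    rw [hW, mem_union, mem_union] at hv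
    push Not at hv
    exact hv
  have oo : ∀ v ∉ W, o v = o0 v := fun v hv => by
    rw [hoA' v (nW v hv).2.1, ho1 v (nW v hv).1]
  have ii : ∀ v ∉ W, i v = i0 v := fun v hv => by
    rw [hiB' v (nW v hv).2.2, hi1 v (nW v hv).1]
  have manyO : ∀ v, Fintype.card V ≤ 300 * ((cls i0 (o v)).filter (fun w => (v, w) ∈ D)).card :=
    many (fun v w => (v, w) ∈ D) o0 o1 i0 W0 A' a ha hn hB.loI hB.outG ho1 ho1' o true hoA hoA'
      (fun v hv => by
        have := hA hv
        rw [hAdef, mem_filter] at this
        exact this.2)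
  have manyI : ∀ w, Fintype.card V ≤ 300 * ((cls o0 (i w)).filter (fun v => (v, w) ∈ D)).card :=
    many (fun w v => (v, w) ∈ D) i0 i1 o0 W0 B' a ha hn hB.loO hB.inG hi1 hi1' i false hiB hiB'
      (fun v hv => by
        have := hB' hv
        rw [hBdef, mem_filter] at this
        exact this.2)
  have bO : ∀ c, Fintype.card V ≤ 2 * (cls o c).card + 12 * a := by
    intro c
    have h1 := cls_le o0 o W (fun v hv => (oo v hv).symm) c
    have h2 := hB.loO c
    omega
  have bI : ∀ c, Fintype.card V ≤ 2 * (cls i c).card + 12 * a := by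
    intro c
    have h1 := cls_le i0 i W (fun v hv => (ii v hv).symm) c
    have h2 := hB.loI c
    omega
  refine ⟨o, i, W, (cls o1 false).card - (cls i1 false).card - (A'.card + B'.card), ?_, ?_, ?_,
    ?_, ?_⟩
  · refine ⟨hl, by omega, ?_, ?_, ?_, ?_, ?_, ?_⟩
    · intro v hv
      have h1 := filter_le i i0 W ii (o v) (fun w => (v, w) ∉ D)
      have h2 := hB.outG v (nW v hv).1
      rw [← oo v hv] at h2
      omega
    · intro w hw
      have h1 := filter_le o o0 W oo (i w) (fun v => (v, w) ∉ D)
      have h2 := hB.inG w (nW w hw).1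
      rw [← ii w hw] at h2
      omega
    · intro v _
      have h1 := filter_le i0 i W (fun v hv => (ii v hv).symm) (o v) (fun w => (v, w) ∈ D)
      have h2 := manyO v
      omega
    · intro w _
      have h1 := filter_le o0 o W (fun v hv => (oo v hv).symm) (i w) (fun v => (v, w) ∈ D)
      have h2 := manyI w
      omega
    · intro c
      have := bO c
      omega
    · intro c
      have := bI c
      omega
  · omega
  · omega
  · intro hpos
    -- now `A' = A` and `B' = B`
    have kA := card_le_card hA
    have kB := card_le_card hB'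
    have eA : A' = A := eq_of_subset_of_card_le hA (by omega)
    have eB : B' = B := eq_of_subset_of_card_le hB' (by omega)
    constructor
    · intro v hv
      have h1 : v ∉ A' := fun h => by
        rw [hoA v h] at hv
        exact Bool.noConfusion hv
      have h2 : o1 v = false := by rw [← hoA' v h1]; exact hv
      have h3 : ¬ Fintype.card V ≤ 300 * ((cls i0 true).filter (fun w => (v, w) ∈ D)).card := by
        intro h
        apply h1
        rw [eA, hAdef, mem_filter, mem_cls]
        exact ⟨h2, h⟩
      have h4 := filter_le i i0 W ii true (fun w => (v, w) ∈ D)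
      omega
    · intro w hw
      have h1 : w ∉ B' := fun h => by
        rw [hiB w h] at hw
        exact Bool.noConfusion hw
      have h2 : i1 w = true := by rw [← hiB' w h1]; exact hw
      have h3 : ¬ Fintype.card V ≤ 300 * ((cls o0 false).filter (fun v => (v, w) ∈ D)).card := by
        intro h
        apply h1
        rw [eB, hBdef, mem_filter, mem_cls]
        exact ⟨h2, h⟩
      have h4 := filter_le o o0 W oo false (fun v => (v, w) ∈ D)
      omega
  · intro c
    have h1 := bO c
    have h2 := bI c
    constructor <;> omega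

/-- Exchange of the two labels. -/
lemma cls_not (o : V → Bool) (c : Bool) : cls (fun v => !o v) c = cls o (!c) := by
  ext v
  rw [mem_cls, mem_cls]
  cases o v <;> cases c <;> simp

lemma base_not (D : Finset (V × V)) (o0 i0 : V → Bool) (W0 : Finset V) (a : ℕ)
    (hB : Base D o0 i0 W0 a) : Base D (fun v => !o0 v) (fun v => !i0 v) W0 a := by
  refine ⟨hB.cardW, ?_, ?_, ?_, ?_, ?_, ?_⟩
  · intro v hv
    rw [cls_not, Bool.not_not]
    exact hB.outG v hv
  · intro v hv
    rw [cls_not, Bool.not_not]
    exact hB.inG v hv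
  · intro c
    rw [cls_not]
    exact hB.loO _
  · intro c
    rw [cls_not]
    exact hB.hiO _
  · intro c
    rw [cls_not]
    exact hB.loI _
  · intro c
    rw [cls_not]
    exact hB.hiI _

end E6b_

/-- E6b. Re-typing. -/
theorem p_E6b : T_E6b := by
  intro V _ _ D o0 i0 W0 a hl hB ha hn hout hin
  obtain ⟨o1, ho1, ho1'⟩ := E6b_.step1 (fun v w => (v, w) ∈ D) o0 i0 W0 hout
  obtain ⟨i1, hi1, hi1'⟩ := E6b_.step1 (fun w v => (v, w) ∈ D) i0 o0 W0 hin
  rcases le_total (cls i1 false).card (cls o1 false).card with hd | hd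
  · exact E6b_.step2 D o0 i0 o1 i1 W0 a hl hB ha hn ho1 hi1 ho1' hi1' hd
  · refine E6b_.step2 D (fun v => !o0 v) (fun v => !i0 v) (fun v => !o1 v) (fun v => !i1 v) W0 a
      hl (E6b_.base_not D o0 i0 W0 a hB) ha hn ?_ ?_ ?_ ?_ ?_
    · intro v hv
      simp only [ho1 v hv]
    · intro v hv
      simp only [hi1 v hv]
    · intro v hv
      rw [E6b_.cls_not, Bool.not_not]
      exact ho1' v hv
    · intro v hv
      rw [E6b_.cls_not, Bool.not_not]
      exact hi1' v hv
    · rw [E6b_.cls_not, E6b_.cls_not]
      have h1 := E6b_.cls_add o1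
      have h2 := E6b_.cls_add i1
      simp only [Bool.not_false]
      omega

end Pool.Agent.TEH
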