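import Pool.Agent.TEH.Targets

set_option autoImplicit false

open Finset

namespace Pool.Agent.TEH

namespace E6c_

variable {V : Type} [Fintype V] [DecidableEq V]

/-- The special arcs. -/
def sp (D : Finset (V × V)) (o i : V → Bool) : Finset (V × V) :=
  D.filter (fun p => o p.1 = false ∧ i p.2 = true)

theorem cls_add (o : V → Bool) : (cls o false).card + (cls o true).card = Fintype.card V := by
  unfold cls
  rw [← card_union_of_disjoint, ← card_univ]
  · congr 1
    ext v
    simp only [mem_union, mem_filter, mem_univ, true_and]
    cases o v <;> simp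
  · rw [disjoint_left]
    intro v h1 h2
    simp only [mem_filter, mem_univ, true_and] at h1 h2
    rw [h1] at h2
    exact absurd h2 (by decide)

theorem tail_card (D : Finset (V × V)) (o i : V → Bool) (v : V) (hv : o v = false) :
    ((sp D o i).filter (fun p => p.1 = v)).card =
      ((cls i true).filter (fun w => (v, w) ∈ D)).card := by
  refine card_bij' (fun p _ => p.2) (fun w _ => (v, w)) ?_ ?_ ?_ ?_
  · rintro ⟨a, b⟩ h
    simp only [sp, cls, mem_filter, mem_univ, true_and] at h ⊢
    obtain ⟨⟨h1, _, h3⟩, rfl⟩ := h
    exact ⟨h3, h1⟩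
  · intro w h
    simp only [sp, cls, mem_filter, mem_univ, true_and] at h ⊢
    exact ⟨⟨h.2, hv, h.1⟩, trivial⟩
  · rintro ⟨a, b⟩ h
    simp only [mem_filter] at h
    rw [h.2]
  · intro w _
    rfl

theorem head_card (D : Finset (V × V)) (o i : V → Bool) (w : V) (hw : i w = true) :
    ((sp D o i).filter (fun p => p.2 = w)).card =
      ((cls o false).filter (fun v => (v, w) ∈ D)).card := by
  refine card_bij' (fun p _ => p.1) (fun v _ => (v, w)) ?_ ?_ ?_ ?_
  · rintro ⟨a, b⟩ h
    simp only [sp, cls, mem_filter, mem_univ, true_and] at h ⊢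
    obtain ⟨⟨h1, h2, _⟩, rfl⟩ := h
    exact ⟨h2, h1⟩
  · intro v h
    simp only [sp, cls, mem_filter, mem_univ, true_and] at h ⊢
    exact ⟨⟨h.2, h.1, hw⟩, trivial⟩
  · rintro ⟨a, b⟩ h
    simp only [mem_filter] at h
    rw [h.2]
  · intro v _
    rfl

theorem tail_le (D : Finset (V × V)) (o i : V → Bool)
    (h : ∀ v, o v = false →
      250 * ((cls i true).filter (fun w => (v, w) ∈ D)).card ≤ Fintype.card V) (v : V) :
    250 * ((sp D o i).filter (fun p => p.1 = v)).card ≤ Fintype.card V := by
  by_cases hv : o v = false
  · rw [tail_card D o i v hv]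
    exact h v hv
  · have : (sp D o i).filter (fun p => p.1 = v) = ∅ := by
      refine filter_eq_empty_iff.mpr fun p hp h1 => hv ?_
      simp only [sp, mem_filter] at hp
      rw [← h1]
      exact hp.2.1
    rw [this]
    simp

theorem head_le (D : Finset (V × V)) (o i : V → Bool)
    (h : ∀ w, i w = true →
      250 * ((cls o false).filter (fun v => (v, w) ∈ D)).card ≤ Fintype.card V) (w : V) :
    250 * ((sp D o i).filter (fun p => p.2 = w)).card ≤ Fintype.card V := by
  by_cases hw : i w = true
  · rw [head_card D o i w hw]
    exact h w hw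
  · have : (sp D o i).filter (fun p => p.2 = w) = ∅ := by
      refine filter_eq_empty_iff.mpr fun p hp h1 => hw ?_
      simp only [sp, mem_filter] at hp
      rw [← h1]
      exact hp.2.2
    rw [this]
    simp

theorem sum_tail (D : Finset (V × V)) (o i : V → Bool) :
    (sp D o i).card =
      ∑ v ∈ cls o false, ((cls i true).filter (fun w => (v, w) ∈ D)).card := by
  rw [card_eq_sum_card_fiberwise (f := Prod.fst) (t := cls o false)]
  · refine sum_congr rfl fun v hv => ?_
    simp only [cls, mem_filter, mem_univ, true_and] at hv
    exact tail_card D o i v hv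
  · intro p hp
    have hp' : p ∈ sp D o i := hp
    simp only [sp, mem_filter] at hp'
    change p.1 ∈ cls o false
    simp only [cls, mem_filter, mem_univ, true_and]
    exact hp'.2.1

theorem sum_head (D : Finset (V × V)) (o i : V → Bool) :
    (sp D o i).card =
      ∑ w ∈ cls i true, ((cls o false).filter (fun v => (v, w) ∈ D)).card := by
  rw [card_eq_sum_card_fiberwise (f := Prod.snd) (t := cls i true)]
  · refine sum_congr rfl fun v hv => ?_
    simp only [cls, mem_filter, mem_univ, true_and] at hv
    exact head_card D o i v hv
  · intro p hp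
    have hp' : p ∈ sp D o i := hp
    simp only [sp, mem_filter] at hp'
    change p.2 ∈ cls i true
    simp only [cls, mem_filter, mem_univ, true_and]
    exact hp'.2.2

theorem out_split (D : Finset (V × V)) (i : V → Bool) (v : V) :
    (outN D v).card ≤ (cls i false).card + ((cls i true).filter (fun w => (v, w) ∈ D)).card := by
  refine le_trans (card_le_card ?_) (card_union_le _ _)
  intro w hw
  simp only [outN, cls, mem_filter, mem_univ, true_and, mem_union] at hw ⊢
  cases h : i w
  · exact Or.inl rfl
  · exact Or.inr ⟨rfl, hw⟩

theorem in_split (D : Finset (V × V)) (o : V → Bool) (w : V) :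
    (inN D w).card ≤ (cls o true).card + ((cls o false).filter (fun v => (v, w) ∈ D)).card := by
  refine le_trans (card_le_card ?_) (card_union_le _ _)
  intro v hv
  simp only [inN, cls, mem_filter, mem_univ, true_and, mem_union] at hv ⊢
  cases h : o v
  · exact Or.inr ⟨rfl, hv⟩
  · exact Or.inl rfl

end E6c_

open E6c_ in
theorem p_E6c : T_E6c := by
  classical
  intro V _ _ D o i d hl hn hd hod hout hin hflo hfli hbig p0
  set n := Fintype.card V with hnn
  have hO := cls_add o
  have hI := cls_add i
  rw [← hnn] at hO hI
  -- many special arcs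
  have hmany : n * d ≤ 5 * (sp D o i).card := by
    by_cases hc : 2 * (cls i false).card + d ≤ n
    · have h1 : ∀ v ∈ cls o false,
          d ≤ 2 * ((cls i true).filter (fun w => (v, w) ∈ D)).card := fun v _ => by
        have := out_split D i v
        have := hout v
        omega
      have h2 : (cls o false).card * d ≤ 2 * (sp D o i).card := by
        rw [sum_tail, mul_sum, ← smul_eq_mul, ← sum_const]
        exact sum_le_sum h1
      have h3 : 2 * n * d ≤ 5 * (cls o false).card * d := Nat.mul_le_mul_right d (hbig false).1
      nlinarith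
    · have h1 : ∀ w ∈ cls i true,
          d ≤ 2 * ((cls o false).filter (fun v => (v, w) ∈ D)).card := fun w _ => by
        have := in_split D o w
        have := hin w
        omega
      have h2 : (cls i true).card * d ≤ 2 * (sp D o i).card := by
        rw [sum_head, mul_sum, ← smul_eq_mul, ← sum_const]
        exact sum_le_sum h1
      have h3 : 2 * n * d ≤ 5 * (cls i true).card * d := Nat.mul_le_mul_right d (hbig true).2
      nlinarith
  -- a largest matching
  obtain ⟨M, hM, hmax⟩ := exists_max_image
    ((sp D o i).powerset.filter (fun M => Matching M ∧ ∀ p ∈ M, p.1 ≠ p0 ∧ p.2 ≠ p0))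
    (fun M => M.card) ⟨∅, by simp [Matching]⟩
  simp only [mem_filter, mem_powerset] at hM hmax
  obtain ⟨hMS, hMm, hMp⟩ := hM
  by_cases hbigM : 2 * d ≤ M.card
  · obtain ⟨N, hNM, hNc⟩ := exists_subset_card_eq hbigM
    refine ⟨N, fun p hp => ?_, ⟨fun p hp => hMm.1 p (hNM hp), fun p hp q hq hpq =>
      hMm.2 p (hNM hp) q (hNM hq) hpq⟩, hNc, fun p hp => ?_, fun p hp => hMp p (hNM hp)⟩
    · have := hMS (hNM hp)
      simp only [sp, mem_filter] at this
      exact this.1
    · have := hMS (hNM hp)
      simp only [sp, mem_filter] at this
      exact this.2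
  · exfalso
    set T : Finset V := insert p0 (M.image Prod.fst ∪ M.image Prod.snd) with hT
    have hTc : T.card ≤ 2 * M.card + 1 := by
      refine (card_insert_le _ _).trans ?_
      have h1 := card_union_le (M.image Prod.fst) (M.image Prod.snd)
      have h2 : (M.image Prod.fst).card ≤ M.card := card_image_le
      have h3 : (M.image Prod.snd).card ≤ M.card := card_image_le
      omega
    have hcov : sp D o i ⊆ T.biUnion (fun x =>
        (sp D o i).filter (fun p => p.1 = x) ∪ (sp D o i).filter (fun p => p.2 = x)) := by
      intro p hp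
      by_contra hcon
      simp only [mem_biUnion, mem_union, mem_filter, not_exists, not_and, not_or] at hcon
      have hp1 : p.1 ∉ T := fun h => (hcon _ h).1 hp rfl
      have hp2 : p.2 ∉ T := fun h => (hcon _ h).2 hp rfl
      simp only [hT, mem_insert, mem_union, mem_image, not_or, not_exists, not_and] at hp1 hp2
      have hpD : p ∈ D := by
        simp only [sp, mem_filter] at hp
        exact hp.1
      have hne : p.1 ≠ p.2 := fun h => hl p.1 (by
        have : p = (p.1, p.1) := Prod.ext rfl h.symm
        rw [← this]
        exact hpD)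
      have hnotin : p ∉ M := fun h => hp1.2.1 p h rfl
      have h5 := hmax (insert p M) ⟨?_, ⟨?_, ?_⟩, ?_⟩
      · rw [card_insert_of_notMem hnotin] at h5
        omega
      · intro q hq
        rcases mem_insert.mp hq with rfl | hq
        · exact hp
        · exact hMS hq
      · intro q hq
        rcases mem_insert.mp hq with rfl | hq
        · exact hne
        · exact hMm.1 q hq
      · intro q hq r hr hqr
        rcases mem_insert.mp hq with h6 | hq
        · rcases mem_insert.mp hr with h7 | hr
          · exact absurd (h6.trans h7.symm) hqr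
          · rw [h6]
            exact ⟨fun h => hp1.2.1 r hr h.symm, fun h => hp1.2.2 r hr h.symm,
              fun h => hp2.2.1 r hr h.symm, fun h => hp2.2.2 r hr h.symm⟩
        · rcases mem_insert.mp hr with h7 | hr
          · rw [h7]
            exact ⟨hp1.2.1 q hq, hp2.2.1 q hq, hp1.2.2 q hq, hp2.2.2 q hq⟩
          · exact hMm.2 q hq r hr hqr
      · intro q hq
        rcases mem_insert.mp hq with h6 | hq
        · rw [h6]
          exact ⟨hp1.1, hp2.1⟩
        · exact hMp q hq
    have hup : 250 * (sp D o i).card ≤ T.card * (2 * n) := by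
      have h1 := (card_le_card hcov).trans card_biUnion_le
      have h2 : 250 * ∑ x ∈ T, ((sp D o i).filter (fun p => p.1 = x) ∪
          (sp D o i).filter (fun p => p.2 = x)).card ≤ T.card * (2 * n) := by
        rw [mul_sum, ← smul_eq_mul, ← sum_const]
        refine sum_le_sum fun x _ => ?_
        have h3 := card_union_le ((sp D o i).filter (fun p => p.1 = x))
          ((sp D o i).filter (fun p => p.2 = x))
        have h4 := tail_le D o i hflo x
        have h5 := head_le D o i hfli x
        omega
      omega
    have h6 : T.card * (2 * n) ≤ (4 * d - 1) * (2 * n) := Nat.mul_le_mul_right _ (by omega)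
    have h7 : (4 * d - 1) * (2 * n) < 50 * (n * d) := by
      obtain ⟨e, rfl⟩ : ∃ e, d = e + 1 := ⟨d - 1, by omega⟩
      have : 4 * (e + 1) - 1 = 4 * e + 3 := by omega
      rw [this]
      nlinarith
    omega

end Pool.Agent.TEH
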