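import Pool.Agent.TEH.Targets

/-!
# TEH: two near-cliques (E7)
-/

set_option autoImplicit false

namespace Pool.Agent.TEH

theorem E7_card {V : Type} [Fintype V] [DecidableEq V] (o : V → Bool) :
    (cls o false).card + (cls o true).card = Fintype.card V := by
  classical
  have h := Finset.card_filter_add_card_filter_not (s := (Finset.univ : Finset V))
    (fun v => o v = false)
  simp only [Finset.card_univ] at h
  rw [← h]
  unfold cls
  congr 2
  ext v
  simp

theorem E7_out {V : Type} [Fintype V] [DecidableEq V] (D : Finset (V × V)) (o : V → Bool)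
    (hl : Loopless D) (v : V) :
    (outN D v).card + 1 ≤ ((cls o (!o v)).filter (fun w => (v, w) ∈ D)).card +
      (cls o (o v)).card := by
  classical
  have hv : v ∈ cls o (o v) := by simp [cls]
  have h1 : outN D v ⊆ ((cls o (!o v)).filter (fun w => (v, w) ∈ D)) ∪ (cls o (o v)).erase v := by
    intro w hw
    simp only [outN, Finset.mem_filter, Finset.mem_univ, true_and] at hw
    have hne : w ≠ v := by
      intro h
      rw [h] at hw
      exact hl v hw
    simp only [cls, Finset.mem_union, Finset.mem_filter, Finset.mem_univ, true_and,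
      Finset.mem_erase]
    by_cases h : o w = o v
    · right
      exact ⟨hne, h⟩
    · left
      refine ⟨?_, hw⟩
      cases h1 : o w <;> cases h2 : o v <;> simp_all
  have h2 := Finset.card_le_card h1
  have h3 := Finset.card_union_le ((cls o (!o v)).filter (fun w => (v, w) ∈ D))
    ((cls o (o v)).erase v)
  have h4 := Finset.card_erase_add_one hv
  omega

theorem E7_in {V : Type} [Fintype V] [DecidableEq V] (D : Finset (V × V)) (o : V → Bool)
    (hl : Loopless D) (v : V) :
    (inN D v).card + 1 ≤ ((cls o (!o v)).filter (fun w => (w, v) ∈ D)).card +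
      (cls o (o v)).card := by
  classical
  have hv : v ∈ cls o (o v) := by simp [cls]
  have h1 : inN D v ⊆ ((cls o (!o v)).filter (fun w => (w, v) ∈ D)) ∪ (cls o (o v)).erase v := by
    intro w hw
    simp only [inN, Finset.mem_filter, Finset.mem_univ, true_and] at hw
    have hne : w ≠ v := by
      intro h
      rw [h] at hw
      exact hl v hw
    simp only [cls, Finset.mem_union, Finset.mem_filter, Finset.mem_univ, true_and,
      Finset.mem_erase]
    by_cases h : o w = o v
    · right
      exact ⟨hne, h⟩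
    · left
      refine ⟨?_, hw⟩
      cases h1 : o w <;> cases h2 : o v <;> simp_all
  have h2 := Finset.card_le_card h1
  have h3 := Finset.card_union_le ((cls o (!o v)).filter (fun w => (w, v) ∈ D))
    ((cls o (o v)).erase v)
  have h4 := Finset.card_erase_add_one hv
  omega

/-- The conclusion of E7. -/
def E7_Concl {V : Type} (D : Finset (V × V)) (o : V → Bool) : Prop :=
  ∃ e1 f1 e2 f2 : V × V, e1 ∈ D ∧ f1 ∈ D ∧ e2 ∈ D ∧ f2 ∈ D ∧
    (o e1.1 = false ∧ o e1.2 = true ∧ o f1.1 = true ∧ o f1.2 = false) ∧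
    (o e2.1 = false ∧ o e2.2 = true ∧ o f2.1 = true ∧ o f2.2 = false) ∧
    (e1.1 ≠ f1.2 ∧ e1.2 ≠ f1.1) ∧ (e2.1 ≠ f2.2 ∧ e2.2 ≠ f2.1) ∧ e1 ≠ e2 ∧ f1 ≠ f2

theorem E7_swap {V : Type} (D : Finset (V × V)) (o : V → Bool)
    (h : E7_Concl D (fun v => !o v)) : E7_Concl D o := by
  obtain ⟨e1, f1, e2, f2, a1, a2, a3, a4, ⟨b1, b2, b3, b4⟩, ⟨c1, c2, c3, c4⟩, ⟨d1, d2⟩,
    ⟨d3, d4⟩, d5, d6⟩ := h
  refine ⟨f1, e1, f2, e2, a2, a1, a4, a3, ⟨?_, ?_, ?_, ?_⟩, ⟨?_, ?_, ?_, ?_⟩,
    ⟨d2.symm, d1.symm⟩, ⟨d4.symm, d3.symm⟩, d6, d5⟩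
  · simpa using b3
  · simpa using b4
  · simpa using b1
  · simpa using b2
  · simpa using c3
  · simpa using c4
  · simpa using c1
  · simpa using c2

theorem E7_two {α : Type} [DecidableEq α] (S : Finset α) (x : α) (h : 2 ≤ S.card) :
    ∃ y ∈ S, y ≠ x := by
  have h1 : (S.erase x).card ≥ 1 := by
    have := Finset.pred_card_le_card_erase (s := S) (a := x)
    omega
  obtain ⟨y, hy⟩ := Finset.card_pos.mp h1
  exact ⟨y, Finset.mem_of_mem_erase hy, Finset.ne_of_mem_erase hy⟩

theorem E7_small {V : Type} [Fintype V] [DecidableEq V] (D : Finset (V × V)) (o : V → Bool)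
    (hl : Loopless D) (hO : ∀ v, Fintype.card V ≤ 2 * (outN D v).card)
    (hI : ∀ v, Fintype.card V ≤ 2 * (inN D v).card) (h10 : ∀ c, 10 ≤ (cls o c).card)
    (hlt : (cls o false).card < (cls o true).card) : E7_Concl D o := by
  classical
  have hn := E7_card o
  -- out- and in-neighbours in the other class
  have hout : ∀ v, o v = false → 2 ≤ ((cls o true).filter (fun w => (v, w) ∈ D)).card := by
    intro v hv
    have h1 := E7_out D o hl v
    rw [hv] at h1
    simp only [Bool.not_false] at h1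
    have h2 := hO v
    omega
  have hin : ∀ v, o v = false → 2 ≤ ((cls o true).filter (fun w => (w, v) ∈ D)).card := by
    intro v hv
    have h1 := E7_in D o hl v
    rw [hv] at h1
    simp only [Bool.not_false] at h1
    have h2 := hI v
    omega
  -- four different vertices
  obtain ⟨T, hT, hTc⟩ := Finset.exists_subset_card_eq (n := 4) (s := cls o false)
    (le_trans (by norm_num) (h10 false))
  obtain ⟨q1, T1, hq1, rfl, hT1⟩ := Finset.card_eq_succ.mp hTc
  obtain ⟨q2, T2, hq2, rfl, hT2⟩ := Finset.card_eq_succ.mp hT1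
  obtain ⟨q3, T3, hq3, rfl, hT3⟩ := Finset.card_eq_succ.mp hT2
  obtain ⟨q4, T4, hq4, rfl, hT4⟩ := Finset.card_eq_succ.mp hT3
  have m1 : o q1 = false := by
    have : q1 ∈ cls o false := hT (by simp)
    simpa [cls] using this
  have m2 : o q2 = false := by
    have : q2 ∈ cls o false := hT (by simp)
    simpa [cls] using this
  have m3 : o q3 = false := by
    have : q3 ∈ cls o false := hT (by simp)
    simpa [cls] using this
  have m4 : o q4 = false := by
    have : q4 ∈ cls o false := hT (by simp)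
    simpa [cls] using this
  simp only [Finset.mem_insert, not_or] at hq1 hq2 hq3
  obtain ⟨n12, n13, n14, -⟩ := hq1
  obtain ⟨n23, n24, -⟩ := hq2
  obtain ⟨n34, -⟩ := hq3
  -- e1 = (q1, r1), f1 = (r1', q2), e2 = (q3, r2), f2 = (r2', q4)
  have key : ∀ q q' : V, o q = false → o q' = false → ∃ r r' : V, (q, r) ∈ D ∧ (r', q') ∈ D ∧
      o r = true ∧ o r' = true ∧ r ≠ r' := by
    intro q q' hq hq'
    have h1 := hout q hq
    have h2 : 0 < ((cls o true).filter (fun w => (q, w) ∈ D)).card := by omega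
    obtain ⟨r, hr⟩ := Finset.card_pos.mp h2
    obtain ⟨r', hr', hne⟩ := E7_two _ r (hin q' hq')
    simp only [cls, Finset.mem_filter, Finset.mem_univ, true_and] at hr hr'
    exact ⟨r, r', hr.2, hr'.2, hr.1, hr'.1, hne.symm⟩
  obtain ⟨r1, r1', a1, a2, a3, a4, a5⟩ := key q1 q2 m1 m2
  obtain ⟨r2, r2', b1, b2, b3, b4, b5⟩ := key q3 q4 m3 m4
  refine ⟨(q1, r1), (r1', q2), (q3, r2), (r2', q4), a1, a2, b1, b2, ⟨m1, a3, a4, m2⟩,
    ⟨m3, b3, b4, m4⟩, ⟨n12, a5⟩, ⟨n34, b5⟩, ?_, ?_⟩
  · intro h
    exact n13 (congrArg Prod.fst h)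
  · intro h
    exact n24 (congrArg Prod.snd h)

theorem E7_avoid {α : Type} [DecidableEq α] (S F : Finset α) (h : F.card < S.card) :
    ∃ y ∈ S, y ∉ F := by
  by_contra hc
  push Not at hc
  exact absurd (Finset.card_le_card (fun x hx => hc x hx)) (by omega)

theorem E7_equal {V : Type} [Fintype V] [DecidableEq V] (D : Finset (V × V)) (o : V → Bool)
    (hl : Loopless D) (hO : ∀ v, Fintype.card V ≤ 2 * (outN D v).card)
    (hI : ∀ v, Fintype.card V ≤ 2 * (inN D v).card) (h10 : ∀ c, 10 ≤ (cls o c).card)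
    (heq : (cls o false).card = (cls o true).card) : E7_Concl D o := by
  classical
  have hn := E7_card o
  -- every vertex of the class false has an out-neighbour in the class true, etc.
  have hout : ∀ v, o v = false → ∃ w, o w = true ∧ (v, w) ∈ D := by
    intro v hv
    have h1 := E7_out D o hl v
    rw [hv] at h1
    simp only [Bool.not_false] at h1
    have h2 := hO v
    have h3 : 0 < ((cls o true).filter (fun w => (v, w) ∈ D)).card := by omega
    obtain ⟨w, hw⟩ := Finset.card_pos.mp h3
    simp only [cls, Finset.mem_filter, Finset.mem_univ, true_and] at hw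
    exact ⟨w, hw.1, hw.2⟩
  have hout' : ∀ v, o v = true → ∃ w, o w = false ∧ (v, w) ∈ D := by
    intro v hv
    have h1 := E7_out D o hl v
    rw [hv] at h1
    simp only [Bool.not_true] at h1
    have h2 := hO v
    have h3 : 0 < ((cls o false).filter (fun w => (v, w) ∈ D)).card := by omega
    obtain ⟨w, hw⟩ := Finset.card_pos.mp h3
    simp only [cls, Finset.mem_filter, Finset.mem_univ, true_and] at hw
    exact ⟨w, hw.1, hw.2⟩
  by_cases hc : ∃ q r, o q = false ∧ o r = true ∧ (q, r) ∈ D ∧
      ∀ r' q', o r' = true → o q' = false → (r', q') ∈ D → r' = r ∨ q' = q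
  · obtain ⟨q, r, hq, hr, hqr, hno⟩ := hc
    have hall : ∀ r', o r' = true → r' ≠ r → (r', q) ∈ D := by
      intro r' h1 h2
      obtain ⟨q', h3, h4⟩ := hout' r' h1
      rcases hno r' q' h1 h3 h4 with h | h
      · exact absurd h h2
      · rw [← h]; exact h4
    obtain ⟨q1, hq1, hq1n⟩ := E7_avoid (cls o false) {q}
      (by have := h10 false; simp only [Finset.card_singleton]; omega)
    obtain ⟨q2, hq2, hq2n⟩ := E7_avoid (cls o false) {q, q1}
      (by
        have := h10 false
        have h2 := Finset.card_le_two (a := q) (b := q1)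
        omega)
    have m1 : o q1 = false := by simpa [cls] using hq1
    have m2 : o q2 = false := by simpa [cls] using hq2
    simp only [Finset.mem_singleton] at hq1n
    simp only [Finset.mem_insert, Finset.mem_singleton, not_or] at hq2n
    obtain ⟨r1, hr1, he1⟩ := hout q1 m1
    obtain ⟨r2, hr2, he2⟩ := hout q2 m2
    obtain ⟨s1, hs1, hs1n⟩ := E7_avoid (cls o true) {r, r1, r2}
      (by
        have := h10 true
        have h2 := Finset.card_le_three (a := r) (b := r1) (c := r2)
        omega)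
    obtain ⟨s2, hs2, hs2n⟩ := E7_avoid (cls o true) {r, r1, r2, s1}
      (by
        have := h10 true
        have h2 := Finset.card_le_four (a := r) (b := r1) (c := r2) (d := s1)
        omega)
    have k1 : o s1 = true := by simpa [cls] using hs1
    have k2 : o s2 = true := by simpa [cls] using hs2
    simp only [Finset.mem_insert, Finset.mem_singleton, not_or] at hs1n hs2n
    obtain ⟨u1, u2, u3⟩ := hs1n
    obtain ⟨v1, v2, v3, v4⟩ := hs2n
    refine ⟨(q1, r1), (s1, q), (q2, r2), (s2, q), he1, hall s1 k1 u1, he2, hall s2 k2 v1,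
      ⟨m1, hr1, k1, hq⟩, ⟨m2, hr2, k2, hq⟩, ⟨hq1n, Ne.symm u2⟩, ⟨hq2n.1, Ne.symm v3⟩, ?_, ?_⟩
    · intro h
      exact hq2n.2 (congrArg Prod.fst h).symm
    · intro h
      exact v4 (congrArg Prod.fst h).symm
  · push Not at hc
    obtain ⟨q1, hq1⟩ := Finset.card_pos.mp (lt_of_lt_of_le (by norm_num) (h10 false) :
      0 < (cls o false).card)
    have m1 : o q1 = false := by simpa [cls] using hq1
    obtain ⟨r1, hr1, he1⟩ := hout q1 m1
    obtain ⟨s1, p1, a1, a2, a3, a4, a5⟩ := hc q1 r1 m1 hr1 he1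
    obtain ⟨r2, hr2, he2⟩ := hout p1 a2
    obtain ⟨s2, p2, b1, b2, b3, b4, b5⟩ := hc p1 r2 a2 hr2 he2
    refine ⟨(q1, r1), (s1, p1), (p1, r2), (s2, p2), he1, a3, he2, b3, ⟨m1, hr1, a1, a2⟩,
      ⟨a2, hr2, b1, b2⟩, ⟨Ne.symm a5, Ne.symm a4⟩, ⟨Ne.symm b5, Ne.symm b4⟩, ?_, ?_⟩
    · intro h
      exact a5 (congrArg Prod.fst h).symm
    · intro h
      exact b5 (congrArg Prod.snd h).symm

theorem p_E7 : T_E7 := by
  intro V _ _ D o hl hO hI h10
  rcases lt_trichotomy (cls o false).card (cls o true).card with h | h | h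
  · exact E7_small D o hl hO hI h10 h
  · exact E7_equal D o hl hO hI h10 h
  · apply E7_swap
    have e1 : ∀ c, cls (fun v => !o v) c = cls o (!c) := by
      intro c
      ext v
      simp only [cls, Finset.mem_filter, Finset.mem_univ, true_and]
      cases o v <;> cases c <;> simp
    apply E7_small D _ hl hO hI
    · intro c
      rw [e1]
      exact h10 _
    · rw [e1, e1]
      exact h

end Pool.Agent.TEH
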