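import Pool.Agent.TEH.Targets

set_option autoImplicit false
set_option linter.unusedSectionVars false

namespace Pool.Agent.TEH

namespace E8_

variable {V : Type} [Fintype V] [DecidableEq V]

/-- The arcs of `D` that are not arcs of the permutation `σ`. -/
def rest (D : Finset (V × V)) (σ : Equiv.Perm V) : Finset (V × V) :=
  D.filter (fun p => σ p.1 ≠ p.2)

theorem mem_rest (D : Finset (V × V)) (σ : Equiv.Perm V) (p : V × V) :
    p ∈ rest D σ ↔ p ∈ D ∧ σ p.1 ≠ p.2 := by
  simp [rest]

theorem card_aux (B C : Finset V) (x : V) (m : ℕ) (hB : B.card ≤ m)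
    (h : ∀ w ∈ C, w ∈ B ∨ w = x) : C.card ≤ m + 1 := by
  have h1 : C ⊆ insert x B := by
    intro w hw
    rcases h w hw with h2 | h2
    · exact Finset.mem_insert_of_mem h2
    · rw [h2]; exact Finset.mem_insert_self _ _
  calc C.card ≤ (insert x B).card := Finset.card_le_card h1
    _ ≤ B.card + 1 := Finset.card_insert_le _ _
    _ ≤ m + 1 := by omega

theorem card_aux2 (B C : Finset V) (x : V) (k : ℕ) (hB : k ≤ B.card)
    (h : ∀ w ∈ B, w ∈ C ∨ w = x) : k - 1 ≤ C.card := by
  have h1 : B ⊆ insert x C := by
    intro w hw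
    rcases h w hw with h2 | h2
    · exact Finset.mem_insert_of_mem h2
    · rw [h2]; exact Finset.mem_insert_self _ _
  have h2 : B.card ≤ (insert x C).card := Finset.card_le_card h1
  have h3 : (insert x C).card ≤ C.card + 1 := Finset.card_insert_le _ _
  omega

theorem typed_rest (D : Finset (V × V)) (o i : V → Bool) (W : Finset V) (m k : ℕ)
    (hT : Typed D o i W m k) (σ : Equiv.Perm V) : Typed (rest D σ) o i W (m + 1) (k - 1) := by
  refine ⟨?_, ?_, ?_, ?_, ?_, ?_, ?_, ?_⟩
  · intro v hv
    exact hT.loop v ((mem_rest D σ _).1 hv).1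
  · have := hT.cardW
    omega
  · intro v hv
    refine card_aux _ _ (σ v) m (hT.outG v hv) ?_
    intro w hw
    rw [Finset.mem_filter] at hw
    by_cases h1 : w = σ v
    · right; exact h1
    · left
      rw [Finset.mem_filter]
      refine ⟨hw.1, fun h2 => hw.2 ?_⟩
      rw [mem_rest]
      exact ⟨h2, fun h3 => h1 h3.symm⟩
  · intro w hw0
    refine card_aux _ _ (σ.symm w) m (hT.inG w hw0) ?_
    intro v hv
    rw [Finset.mem_filter] at hv
    by_cases h1 : v = σ.symm w
    · right; exact h1
    · left
      rw [Finset.mem_filter]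
      refine ⟨hv.1, fun h2 => hv.2 ?_⟩
      rw [mem_rest]
      refine ⟨h2, fun h3 => h1 ?_⟩
      have h4 : σ v = w := h3
      rw [← h4, Equiv.symm_apply_apply]
  · intro v hv
    refine card_aux2 _ _ (σ v) k (hT.outW v hv) ?_
    intro w hw
    rw [Finset.mem_filter] at hw
    by_cases h1 : w = σ v
    · right; exact h1
    · left
      rw [Finset.mem_filter, mem_rest]
      exact ⟨hw.1, hw.2, fun h3 => h1 h3.symm⟩
  · intro w hw0
    refine card_aux2 _ _ (σ.symm w) k (hT.inW w hw0) ?_
    intro v hv
    rw [Finset.mem_filter] at hv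
    by_cases h1 : v = σ.symm w
    · right; exact h1
    · left
      rw [Finset.mem_filter, mem_rest]
      refine ⟨hv.1, hv.2, fun h3 => h1 ?_⟩
      have h4 : σ v = w := h3
      rw [← h4, Equiv.symm_apply_apply]
  · intro c
    have := hT.bigO c
    omega
  · intro c
    have := hT.bigI c
    omega

theorem cls_add (o : V → Bool) :
    (cls o false).card + (cls o true).card = Fintype.card V := by
  have h1 : cls o true = Finset.univ.filter (fun v => ¬ (o v = false)) := by
    unfold cls
    apply Finset.filter_congr
    intro v _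
    simp
  rw [h1]
  unfold cls
  rw [Finset.card_filter_add_card_filter_not]
  exact Finset.card_univ

theorem matching_sub (M N : Finset (V × V)) (hM : Matching M) (h : N ⊆ M) : Matching N :=
  ⟨fun p hp => hM.1 p (h hp), fun p hp q hq hpq => hM.2 p (h hp) q (h hq) hpq⟩

theorem filter_all {P : V × V → Prop} [DecidablePred P] (M : Finset (V × V))
    (h : ∀ p ∈ M, P p) : (M.filter P).card = M.card := by
  rw [Finset.filter_true_of_mem h]

theorem filter_none {P : V × V → Prop} [DecidablePred P] (M : Finset (V × V))
    (h : ∀ p ∈ M, ¬ P p) : (M.filter P).card = 0 := by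
  rw [Finset.filter_false_of_mem h, Finset.card_empty]

theorem balanced_of (M : Finset (V × V)) (o i : V → Bool) (d : ℕ)
    (hd : (cls o false).card = (cls i false).card + d) (hM : M.card = d)
    (hp : ∀ p ∈ M, o p.1 = false ∧ i p.2 = true) : Balanced M o i := by
  intro c
  cases c with
  | false =>
    have h1 : (M.filter (fun p => i p.2 = false)).card = 0 := by
      apply filter_none
      intro p hpM h
      rw [(hp p hpM).2] at h
      exact Bool.noConfusion h
    have h2 : (M.filter (fun p => o p.1 = false)).card = M.card := by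
      apply filter_all
      intro p hpM
      exact (hp p hpM).1
    rw [h1, h2, hM]
    omega
  | true =>
    have h1 : (M.filter (fun p => i p.2 = true)).card = M.card := by
      apply filter_all
      intro p hpM
      exact (hp p hpM).2
    have h2 : (M.filter (fun p => o p.1 = true)).card = 0 := by
      apply filter_none
      intro p hpM h
      rw [(hp p hpM).1] at h
      exact Bool.noConfusion h
    rw [h1, h2, hM]
    have h3 := cls_add o
    have h4 := cls_add i
    omega

theorem split (M : Finset (V × V)) (d : ℕ) (h : M.card = 2 * d) :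
    ∃ M1 M2 : Finset (V × V), M1 ⊆ M ∧ M2 ⊆ M ∧ M1.card = d ∧ M2.card = d ∧
      ∀ p ∈ M2, p ∉ M1 := by
  obtain ⟨M1, h1, h2⟩ := Finset.exists_subset_card_eq (s := M) (n := d) (by omega)
  refine ⟨M1, M \ M1, h1, Finset.sdiff_subset, h2, ?_, ?_⟩
  · rw [Finset.card_sdiff_of_subset h1]
    omega
  · intro p hp
    exact (Finset.mem_sdiff.1 hp).2

/-- The matching of an `e`-arc and an `f`-arc. -/
theorem pair_matching (o : V → Bool) (e f : V × V)
    (h : o e.1 = false ∧ o e.2 = true ∧ o f.1 = true ∧ o f.2 = false)
    (h1 : e.1 ≠ f.2 ∧ e.2 ≠ f.1) : Matching ({e, f} : Finset (V × V)) := by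
  obtain ⟨a1, a2, a3, a4⟩ := h
  have g1 : e.1 ≠ e.2 := fun h => by rw [h, a2] at a1; exact Bool.noConfusion a1
  have g2 : f.1 ≠ f.2 := fun h => by rw [h, a4] at a3; exact Bool.noConfusion a3
  have g3 : e.1 ≠ f.1 := fun h => by rw [h, a3] at a1; exact Bool.noConfusion a1
  have g4 : e.2 ≠ f.2 := fun h => by rw [h, a4] at a2; exact Bool.noConfusion a2
  refine ⟨?_, ?_⟩
  · intro p hp
    rw [Finset.mem_insert, Finset.mem_singleton] at hp
    rcases hp with rfl | rfl
    · exact g1
    · exact g2
  · intro p hp q hq hpq
    rw [Finset.mem_insert, Finset.mem_singleton] at hp hq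
    rcases hp with hp | hp <;> rcases hq with hq | hq
    · exact absurd (hp.trans hq.symm) hpq
    · rw [hp, hq]
      exact ⟨g3, h1.1, h1.2, g4⟩
    · rw [hp, hq]
      exact ⟨g3.symm, h1.2.symm, h1.1.symm, g4.symm⟩
    · exact absurd (hp.trans hq.symm) hpq

theorem pair_balanced (o : V → Bool) (e f : V × V)
    (h : o e.1 = false ∧ o e.2 = true ∧ o f.1 = true ∧ o f.2 = false) :
    Balanced ({e, f} : Finset (V × V)) o o := by
  obtain ⟨a1, a2, a3, a4⟩ := h
  have hef : e ≠ f := fun h => by rw [h, a3] at a1; exact Bool.noConfusion a1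
  intro c
  congr 1
  have k1 : (({e, f} : Finset (V × V)).filter (fun p => o p.2 = c)).card = 1 := by
    cases c with
    | false =>
      have : ({e, f} : Finset (V × V)).filter (fun p => o p.2 = false) = {f} := by
        ext p
        simp only [Finset.mem_filter, Finset.mem_insert, Finset.mem_singleton]
        constructor
        · rintro ⟨h1 | h1, h2⟩
          · rw [h1, a2] at h2; exact Bool.noConfusion h2
          · exact h1
        · intro h1
          exact ⟨Or.inr h1, by rw [h1]; exact a4⟩
      rw [this, Finset.card_singleton]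
    | true =>
      have : ({e, f} : Finset (V × V)).filter (fun p => o p.2 = true) = {e} := by
        ext p
        simp only [Finset.mem_filter, Finset.mem_insert, Finset.mem_singleton]
        constructor
        · rintro ⟨h1 | h1, h2⟩
          · exact h1
          · rw [h1, a4] at h2; exact Bool.noConfusion h2
        · intro h1
          exact ⟨Or.inl h1, by rw [h1]; exact a2⟩
      rw [this, Finset.card_singleton]
  have k2 : (({e, f} : Finset (V × V)).filter (fun p => o p.1 = c)).card = 1 := by
    cases c with
    | false =>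
      have : ({e, f} : Finset (V × V)).filter (fun p => o p.1 = false) = {e} := by
        ext p
        simp only [Finset.mem_filter, Finset.mem_insert, Finset.mem_singleton]
        constructor
        · rintro ⟨h1 | h1, h2⟩
          · exact h1
          · rw [h1, a3] at h2; exact Bool.noConfusion h2
        · intro h1
          exact ⟨Or.inl h1, by rw [h1]; exact a1⟩
      rw [this, Finset.card_singleton]
    | true =>
      have : ({e, f} : Finset (V × V)).filter (fun p => o p.1 = true) = {f} := by
        ext p
        simp only [Finset.mem_filter, Finset.mem_insert, Finset.mem_singleton]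
        constructor
        · rintro ⟨h1 | h1, h2⟩
          · rw [h1, a1] at h2; exact Bool.noConfusion h2
          · exact h1
        · intro h1
          exact ⟨Or.inr h1, by rw [h1]; exact a3⟩
      rw [this, Finset.card_singleton]
  rw [k1, k2]

theorem final (D : Finset (V × V)) (σ τ : Equiv.Perm V) (h1 : Ham D σ)
    (h2 : Ham (rest D σ) τ) :
    ∃ σ τ : Equiv.Perm V, Ham D σ ∧ Ham D τ ∧ ∀ v, σ v ≠ τ v :=
  ⟨σ, τ, h1, ⟨fun v => ((mem_rest D σ _).1 (h2.1 v)).1, h2.2⟩,
    fun v => ((mem_rest D σ _).1 (h2.1 v)).2⟩

end E8_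

open E8_ in
theorem p_E8 (hE5 : T_E5) (hE7 : T_E7) : T_E8 := by
  intro V _ _ D o i W m k d hT hk hout hin hd hdm hMat
  by_cases hP : ∃ p0, i p0 = true ∧ o p0 = false
  · obtain ⟨p0, hp0i, hp0o⟩ := hP
    obtain ⟨M, hMD, hMm, hMc, hMl, hMp⟩ := hMat p0
    obtain ⟨M1, M2, hM1, hM2, hc1, hc2, hdis⟩ := split M d hMc
    obtain ⟨σ, hσ, hσ2⟩ := hE5 V D M1 o i W m k hT (by omega) (matching_sub M M1 hMm hM1)
      (hM1.trans hMD) (by omega)
      (balanced_of M1 o i d hd hc1 (fun p hp => hMl p (hM1 hp)))
      (Or.inl ⟨p0, hp0i, hp0o, fun q hq => hMp q (hM1 hq)⟩)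
    have hsub : M2 ⊆ rest D σ := by
      intro p hp
      rw [mem_rest]
      refine ⟨hMD (hM2 hp), fun h => ?_⟩
      rcases hσ2 p.1 with h1 | h1
      · rw [h] at h1
        exact hdis p hp h1
      · rw [h, (hMl p (hM2 hp)).1, (hMl p (hM2 hp)).2] at h1
        exact Bool.noConfusion h1
    obtain ⟨τ, hτ, _⟩ := hE5 V (rest D σ) M2 o i W (m + 1) (k - 1)
      (typed_rest D o i W m k hT σ) (by omega) (matching_sub M M2 hMm hM2)
      hsub (by omega)
      (balanced_of M2 o i d hd hc2 (fun p hp => hMl p (hM2 hp)))
      (Or.inl ⟨p0, hp0i, hp0o, fun q hq => hMp q (hM2 hq)⟩)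
    exact final D σ τ hσ hτ
  · have hsubc : cls o false ⊆ cls i false := by
      intro v hv
      unfold cls at hv ⊢
      rw [Finset.mem_filter] at hv ⊢
      refine ⟨hv.1, ?_⟩
      cases hiv : i v with
      | false => rfl
      | true => exact absurd ⟨v, hiv, hv.2⟩ hP
    have heq : cls o false = cls i false := by
      apply Finset.eq_of_subset_of_card_le hsubc
      omega
    have hoi : ∀ v, o v = i v := by
      intro v
      have h1 : v ∈ cls o false ↔ v ∈ cls i false := by rw [heq]
      unfold cls at h1
      simp only [Finset.mem_filter, Finset.mem_univ, true_and] at h1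
      cases hov : o v with
      | false => exact (h1.1 hov).symm
      | true =>
        cases hiv : i v with
        | false => rw [h1.2 hiv] at hov; exact Bool.noConfusion hov
        | true => rfl
    have hoi2 : i = o := by
      funext v
      exact (hoi v).symm
    subst hoi2
    obtain ⟨e1, f1, e2, f2, he1, hf1, he2, hf2, hl1, hl2, hc1, hc2, hne, hnf⟩ :=
      hE7 V D i hT.loop hout hin (fun c => le_trans (by omega) (hT.bigO c))
    obtain ⟨σ, hσ, hσ2⟩ := hE5 V D {e1, f1} i i W m k hT (by omega)
      (pair_matching i e1 f1 hl1 hc1)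
      (by
        intro p hp
        rw [Finset.mem_insert, Finset.mem_singleton] at hp
        rcases hp with rfl | rfl
        · exact he1
        · exact hf1)
      (le_trans (Finset.card_le_two) (by omega))
      (pair_balanced i e1 f1 hl1)
      (Or.inr ⟨fun v => rfl, f1, by simp, hl1.2.2.1, hl1.2.2.2⟩)
    have hsub : ({e2, f2} : Finset (V × V)) ⊆ rest D σ := by
      intro p hp
      rw [Finset.mem_insert, Finset.mem_singleton] at hp
      rw [mem_rest]
      rcases hp with hp | hp
      · rw [hp]
        refine ⟨he2, fun h => ?_⟩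
        rcases hσ2 e2.1 with h1 | h1
        · rw [h, Finset.mem_insert, Finset.mem_singleton] at h1
          rcases h1 with h1 | h1
          · exact hne h1.symm
          · have h3 : i e2.1 = i f1.1 := congrArg (fun p => i p.1) h1
            rw [hl2.1, hl1.2.2.1] at h3
            exact Bool.noConfusion h3
        · rw [h, hl2.1, hl2.2.1] at h1
          exact Bool.noConfusion h1
      · rw [hp]
        refine ⟨hf2, fun h => ?_⟩
        rcases hσ2 f2.1 with h1 | h1
        · rw [h, Finset.mem_insert, Finset.mem_singleton] at h1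
          rcases h1 with h1 | h1
          · have h3 : i f2.1 = i e1.1 := congrArg (fun p => i p.1) h1
            rw [hl2.2.2.1, hl1.1] at h3
            exact Bool.noConfusion h3
          · exact hnf h1.symm
        · rw [h, hl2.2.2.1, hl2.2.2.2] at h1
          exact Bool.noConfusion h1
    obtain ⟨τ, hτ, _⟩ := hE5 V (rest D σ) {e2, f2} i i W (m + 1) (k - 1)
      (typed_rest D i i W m k hT σ) (by omega)
      (pair_matching i e2 f2 hl2 hc2) hsub
      (le_trans (Finset.card_le_two) (by omega))
      (pair_balanced i e2 f2 hl2)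
      (Or.inr ⟨fun v => rfl, f2, by simp, hl2.2.2.1, hl2.2.2.2⟩)
    exact final D σ τ hσ hτ

end Pool.Agent.TEH
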