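import Pool.Agent.TEH.Targets

/-!
# TEH, target G1: a Hamilton permutation of `Fin n` enumerated by the cyclic group
-/

set_option autoImplicit false

namespace Pool.Agent.TEH

namespace G1_

/-- A permutation all of whose points lie in one cycle is a cycle on the whole type. -/
theorem isCycleOn_univ {n : ℕ} (σ : Equiv.Perm (Fin n)) (h : ∀ u v, σ.SameCycle u v) :
    σ.IsCycleOn ((Finset.univ : Finset (Fin n)) : Set (Fin n)) := by
  refine ⟨?_, fun x _ y _ => h x y⟩
  rw [Finset.coe_univ]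
  exact Set.bijOn_univ.2 σ.bijective

end G1_

/-- Target G1. -/
theorem p_G1 : T_G1 := by
  intro n D σ hn hH
  have : NeZero n := ⟨hn.ne'⟩
  have hc := G1_.isCycleOn_univ σ hH.2
  have key : ∀ a b : ℕ, (σ ^ a) (⟨0, hn⟩ : Fin n) = (σ ^ b) (⟨0, hn⟩ : Fin n) ↔
      a ≡ b [MOD n] := by
    intro a b
    have := hc.pow_apply_eq_pow_apply (a := (⟨0, hn⟩ : Fin n)) (Finset.mem_univ _)
      (m := a) (n := b)
    rwa [Finset.card_univ, Fintype.card_fin] at this
  have hinj : Function.Injective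
      (fun i : ZMod n => (σ ^ (ZMod.val i)) (⟨0, hn⟩ : Fin n)) := by
    intro i j hij
    have h1 : ZMod.val i ≡ ZMod.val j [MOD n] := (key _ _).1 hij
    have h2 : ((ZMod.val i : ℕ) : ZMod n) = ((ZMod.val j : ℕ) : ZMod n) :=
      (ZMod.natCast_eq_natCast_iff _ _ _).2 h1
    rwa [ZMod.natCast_zmod_val, ZMod.natCast_zmod_val] at h2
  have hbij : Function.Bijective
      (fun i : ZMod n => (σ ^ (ZMod.val i)) (⟨0, hn⟩ : Fin n)) := by
    rw [Fintype.bijective_iff_injective_and_card]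
    refine ⟨hinj, ?_⟩
    rw [ZMod.card, Fintype.card_fin]
  refine ⟨Equiv.ofBijective _ hbij, ?_⟩
  intro i
  simp only [Equiv.ofBijective_apply]
  have h3 : σ ((σ ^ (ZMod.val i)) (⟨0, hn⟩ : Fin n)) =
      (σ ^ (ZMod.val i + 1)) (⟨0, hn⟩ : Fin n) := by
    rw [pow_succ', Equiv.Perm.mul_apply]
  rw [h3, key, ← ZMod.natCast_eq_natCast_iff]
  push_cast
  rw [ZMod.natCast_zmod_val, ZMod.natCast_zmod_val]

end Pool.Agent.TEH
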