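import Pool.Agent.TEH.Targets

set_option autoImplicit false

namespace Pool.Agent.TEH

open Finset

namespace N1_

variable {V : Type} [Fintype V] [DecidableEq V]

lemma arcs_eq_in (D : Finset (V × V)) (s t : V) :
    (D.filter (fun p => (p.1, s) ∈ D ∧ (t, p.2) ∈ D)).card = arcs D (inN D s) (outN D t) := by
  unfold arcs inN outN
  congr 1
  ext p
  simp

lemma arcs_eq_out (D : Finset (V × V)) (u v : V) :
    (D.filter (fun p => (u, p.1) ∈ D ∧ (p.2, v) ∈ D)).card = arcs D (outN D u) (inN D v) := by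
  unfold arcs inN outN
  congr 1
  ext p
  simp

end N1_

open N1_ in
theorem p_N1 (hA1 : T_A1) (hA4 : T_A4) (hB2 : T_B2) (hC1 : T_C1) (hD7 : T_D7) : T_N1 := by
  intro ε hε
  obtain ⟨K, n1, hK⟩ := hD7 ε hε
  obtain ⟨n2, hM⟩ := hB2 ε (ε / 10000) (K + 1) hε (by positivity)
  refine ⟨n1 + n2 + 1, ?_⟩
  intro V _ _ D hn hl hout hin hNE
  have hnpos : 0 < Fintype.card V := by omega
  have hnR : (0 : ℝ) < (Fintype.card V : ℝ) := by exact_mod_cast hnpos
  obtain ⟨v0⟩ : Nonempty V := Fintype.card_pos_iff.mp hnpos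
  have hout' : ∀ v, (1 / 2 - ε) * (Fintype.card V : ℝ) ≤ ((outN D v).card : ℝ) := fun v => by
    refine le_trans ?_ (hout v)
    have : ε / 1000 ≤ ε := by linarith
    nlinarith
  have hin' : ∀ v, (1 / 2 - ε) * (Fintype.card V : ℝ) ≤ ((inN D v).card : ℝ) := fun v => by
    refine le_trans ?_ (hin v)
    have : ε / 1000 ≤ ε := by linarith
    nlinarith
  let A : V × V → Finset (V × V) := fun q =>
    D.filter (fun p => (p.1, q.1) ∈ D ∧ (q.2, p.2) ∈ D)
  obtain ⟨M, hMc, hMm, hMA, hMK⟩ := hM V (by omega) A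
    (by
      rintro j ⟨a, b⟩ hp h
      have h' : a = b := h
      subst h'
      exact hl a (Finset.mem_filter.mp hp).1)
    (by
      intro j
      have : ((A j).card : ℝ) = (arcs D (inN D j.1) (outN D j.2) : ℝ) := by
        rw [← arcs_eq_in]
      rw [this]
      exact hNE _ _ (hin' _) (hout' _))
  have hMD : M ⊆ D := by
    intro p hp
    obtain ⟨j, hj⟩ := hMA p hp
    exact (Finset.mem_filter.mp hj).1
  have hMne : M.Nonempty := by
    have h := hMK (v0, v0)
    have : 0 < (M ∩ A (v0, v0)).card := by omega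
    obtain ⟨p, hp⟩ := Finset.card_pos.mp this
    exact ⟨p, (Finset.mem_inter.mp hp).1⟩
  obtain ⟨c, hc, hcl, hcM⟩ := hC1 V D M hl hMm hMD hMne (by
    intro u v
    have h := hNE _ _ (hout' u) (hin' v)
    rw [← arcs_eq_out] at h
    have h2 : (8 * M.card * Fintype.card V : ℝ) <
        ((D.filter (fun p => (u, p.1) ∈ D ∧ (p.2, v) ∈ D)).card : ℝ) := by
      refine lt_of_lt_of_le ?_ h
      nlinarith [mul_pos hε (mul_pos hnR hnR)]
    exact_mod_cast h2)
  let S : Finset V := Finset.univ \ c.toFinset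
  have hSc : (Fintype.card V : ℝ) - (S.card : ℝ) ≤ ε / 1000 * (Fintype.card V : ℝ) := by
    have h1 : c.toFinset.card ≤ c.length := List.toFinset_card_le c
    have h2 : S.card + c.toFinset.card = Fintype.card V := by
      have := Finset.card_sdiff_add_card_eq_card (Finset.subset_univ c.toFinset)
      rw [Finset.card_univ] at this
      exact this
    have h3 : (Fintype.card V : ℝ) - (S.card : ℝ) = (c.toFinset.card : ℝ) := by
      rw [← h2]; push_cast; ring
    rw [h3]
    have h4 : (c.toFinset.card : ℝ) ≤ 4 * (M.card : ℝ) := by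
      have : c.toFinset.card ≤ 4 * M.card := le_trans h1 hcl
      exact_mod_cast this
    nlinarith
  obtain ⟨P, hP, hPK⟩ := hK V D S (by omega) hl hSc hout hin hNE
  have hnd : (c ++ P.flatten).Nodup := by
    rw [List.nodup_append]
    refine ⟨hc.1.2.1, hP.2.1, ?_⟩
    rintro a ha b hb rfl
    have := (hP.2.2 a).mp hb
    simp only [S, Finset.mem_sdiff, List.mem_toFinset] at this
    exact this.2 ha
  obtain ⟨c', hc', hperm⟩ := hA4 V D P c M hc hcM hP.1 hnd (by
    intro s t
    refine le_trans hPK (le_trans (Nat.le_succ K) (le_trans (hMK (s, t)) ?_))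
    apply Finset.card_le_card
    intro p hp
    rw [Finset.mem_inter] at hp
    exact Finset.mem_filter.mpr ⟨hp.1, (Finset.mem_filter.mp hp.2).2⟩)
  exact hA1 V D c' hc' (by
    intro v
    rw [hperm.mem_iff, List.mem_append, hP.2.2 v]
    by_cases hv : v ∈ c
    · exact Or.inl hv
    · exact Or.inr (by simp [S, hv]))

end Pool.Agent.TEH
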