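import Pool.Agent.TEH.Targets

set_option autoImplicit false

namespace Pool.Agent.TEH

open Finset

namespace N2_

variable {V : Type} [Fintype V] [DecidableEq V]

/-- Deleting the arcs of a permutation lowers the out-degrees by at most one. -/
lemma out_del (D : Finset (V × V)) (σ : Equiv.Perm V) (v : V) :
    (outN D v).card ≤ (outN (D.filter (fun p => σ p.1 ≠ p.2)) v).card + 1 := by
  have h : outN D v ⊆ insert (σ v) (outN (D.filter (fun p => σ p.1 ≠ p.2)) v) := by
    intro w hw
    by_cases h : σ v = w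
    · simp [h]
    · refine Finset.mem_insert_of_mem ?_
      simp only [outN, Finset.mem_filter, Finset.mem_univ, true_and] at hw ⊢
      exact ⟨hw, h⟩
  exact (Finset.card_le_card h).trans (Finset.card_insert_le _ _)

/-- Deleting the arcs of a permutation lowers the in-degrees by at most one. -/
lemma in_del (D : Finset (V × V)) (σ : Equiv.Perm V) (v : V) :
    (inN D v).card ≤ (inN (D.filter (fun p => σ p.1 ≠ p.2)) v).card + 1 := by
  have h : inN D v ⊆ insert (σ.symm v) (inN (D.filter (fun p => σ p.1 ≠ p.2)) v) := by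
    intro w hw
    by_cases h : σ w = v
    · simp [← h]
    · refine Finset.mem_insert_of_mem ?_
      simp only [inN, Finset.mem_filter, Finset.mem_univ, true_and] at hw ⊢
      exact ⟨hw, h⟩
  exact (Finset.card_le_card h).trans (Finset.card_insert_le _ _)

lemma arcs_del (D : Finset (V × V)) (σ : Equiv.Perm V) (X Y : Finset V) :
    arcs D X Y ≤ arcs (D.filter (fun p => σ p.1 ≠ p.2)) X Y + Fintype.card V := by
  have h : D.filter (fun p => p.1 ∈ X ∧ p.2 ∈ Y) ⊆
      ((D.filter (fun p => σ p.1 ≠ p.2)).filter (fun p => p.1 ∈ X ∧ p.2 ∈ Y)) ∪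
        (Finset.univ.image (fun v => (v, σ v))) := by
    intro p hp
    rw [Finset.mem_union]
    by_cases h : σ p.1 = p.2
    · right
      rw [Finset.mem_image]
      exact ⟨p.1, Finset.mem_univ _, by rw [h]⟩
    · left
      simp only [Finset.mem_filter] at hp ⊢
      exact ⟨⟨hp.1, h⟩, hp.2⟩
  unfold arcs
  refine (Finset.card_le_card h).trans ((Finset.card_union_le _ _).trans ?_)
  gcongr
  refine Finset.card_image_le.trans ?_
  simp

end N2_

open N2_ in
theorem p_N2 (hN1 : T_N1) : T_N2 := by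
  intro ε hε
  obtain ⟨n1, h1⟩ := hN1 ε hε
  obtain ⟨n2, h2⟩ := hN1 (ε / 2) (by positivity)
  obtain ⟨n3, h3⟩ := exists_nat_gt (2000 / ε)
  refine ⟨n1 + n2 + n3 + 1, ?_⟩
  intro V _ _ D hn hl hout hin hNE
  have hnR : 2000 / ε < (Fintype.card V : ℝ) := by
    refine h3.trans_le ?_
    have : n3 ≤ Fintype.card V := by omega
    exact_mod_cast this
  have hεn : 2000 < ε * (Fintype.card V : ℝ) := by
    rw [div_lt_iff₀ hε] at hnR
    linarith
  have hnpos : (0 : ℝ) < (Fintype.card V : ℝ) := by
    have : 0 < Fintype.card V := by omega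
    exact_mod_cast this
  have houtR : ∀ v, (1 / 2 : ℝ) * (Fintype.card V : ℝ) ≤ ((outN D v).card : ℝ) := fun v => by
    have : (Fintype.card V : ℝ) ≤ 2 * ((outN D v).card : ℝ) := by exact_mod_cast hout v
    linarith
  have hinR : ∀ v, (1 / 2 : ℝ) * (Fintype.card V : ℝ) ≤ ((inN D v).card : ℝ) := fun v => by
    have : (Fintype.card V : ℝ) ≤ 2 * ((inN D v).card : ℝ) := by exact_mod_cast hin v
    linarith
  obtain ⟨σ, hσ⟩ := h1 V D (by omega) hl
    (fun v => le_trans (by nlinarith) (houtR v)) (fun v => le_trans (by nlinarith) (hinR v)) hNE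
  obtain ⟨τ, hτ⟩ := h2 V (D.filter (fun p => σ p.1 ≠ p.2)) (by omega)
    (fun v hv => hl v (Finset.mem_filter.mp hv).1)
    (fun v => by
      have a1 := houtR v
      have a2 : ((outN D v).card : ℝ) ≤
          ((outN (D.filter (fun p => σ p.1 ≠ p.2)) v).card : ℝ) + 1 := by
        exact_mod_cast out_del D σ v
      nlinarith)
    (fun v => by
      have a1 := hinR v
      have a2 : ((inN D v).card : ℝ) ≤
          ((inN (D.filter (fun p => σ p.1 ≠ p.2)) v).card : ℝ) + 1 := by
        exact_mod_cast in_del D σ v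
      nlinarith)
    (by
      intro X Y hX hY
      have a := hNE X Y (le_trans (by nlinarith) hX) (le_trans (by nlinarith) hY)
      have a2 : (arcs D X Y : ℝ) ≤
          (arcs (D.filter (fun p => σ p.1 ≠ p.2)) X Y : ℝ) + (Fintype.card V : ℝ) := by
        exact_mod_cast arcs_del D σ X Y
      nlinarith)
  refine ⟨σ, τ, hσ, ⟨fun v => (Finset.mem_filter.mp (hτ.1 v)).1, hτ.2⟩, fun v => ?_⟩
  exact (Finset.mem_filter.mp (hτ.1 v)).2

end Pool.Agent.TEH
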