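import Pool.Agent.TEH.Targets

set_option autoImplicit false

/-!
# TEH: the surgeries S1, S2, S3 on a minimal path cover
-/

namespace Pool.Agent.TEH

namespace S123_

variable {V : Type} {D : Finset (V × V)} {S : Finset V}

lemma split {A B : List V} {a x : V}
    (h : (A ++ a :: x :: B).IsChain (fun a b => (a, b) ∈ D)) :
    (A ++ [a]).IsChain (fun a b => (a, b) ∈ D) ∧ (x :: B).IsChain (fun a b => (a, b) ∈ D) := by
  have e : A ++ a :: x :: B = (A ++ [a]) ++ (x :: B) := by simp
  rw [e, List.isChain_append] at h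
  exact ⟨h.1, h.2.1⟩

lemma join {p q : List V} {u v : V} (h1 : (p ++ [u]).IsChain (fun a b => (a, b) ∈ D))
    (h2 : (v :: q).IsChain (fun a b => (a, b) ∈ D)) (h : (u, v) ∈ D) :
    ((p ++ [u]) ++ (v :: q)).IsChain (fun a b => (a, b) ∈ D) := by
  rw [List.isChain_append]
  refine ⟨h1, h2, ?_⟩
  intro x hx y hy
  simp only [List.getLast?_append, List.getLast?_singleton, Option.some_or,
    Option.mem_def, Option.some.injEq] at hx
  simp only [List.head?_cons, Option.mem_def, Option.some.injEq] at hy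
  rw [← hx, ← hy]
  exact h

/-- a new cover with the same vertices -/
lemma cover {P Q : List (List V)} (h : PCov D S P)
    (hQ : ∀ q ∈ Q, q ≠ [] ∧ q.IsChain (fun a b => (a, b) ∈ D))
    (hp : Q.flatten.Perm P.flatten) : PCov D S Q := by
  obtain ⟨-, h2, h3⟩ := h
  have h4 : Q.flatten.Nodup := hp.nodup_iff.2 h2
  refine ⟨fun q hq => ⟨(hQ q hq).1, (List.nodup_flatten.1 h4).1 q hq, (hQ q hq).2⟩, h4, ?_⟩
  intro v
  rw [hp.mem_iff]
  exact h3 v

/-- no cover of the same vertices by fewer paths -/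
lemma no_fewer [Fintype V] [DecidableEq V] {P Q : List (List V)} (h : MinCov D S P)
    (hQ : ∀ q ∈ Q, q ≠ [] ∧ q.IsChain (fun a b => (a, b) ∈ D))
    (hp : Q.flatten.Perm P.flatten) (hl : Q.length < P.length) : False :=
  absurd (h.2 Q (cover h.1 hQ hp)) (not_le.2 hl)

end S123_

open S123_

theorem p_S1 : T_S1 := by
  intro V _ _ D S p1 p2 t s R h hts
  have c1 := (h.1.1 (p1 ++ [t]) (by simp)).2.2
  have c2 := (h.1.1 (s :: p2) (by simp)).2.2
  refine no_fewer h (Q := ((p1 ++ [t]) ++ (s :: p2)) :: R) ?_ ?_ (by simp)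
  · intro q hq
    rcases List.mem_cons.1 hq with rfl | hq
    · exact ⟨by simp, join c1 c2 hts⟩
    · have := h.1.1 q (by simp [hq])
      exact ⟨this.1, this.2.2⟩
  · have e : (((p1 ++ [t]) ++ (s :: p2)) :: R).flatten =
        ((p1 ++ [t]) :: (s :: p2) :: R).flatten := by simp
    rw [e]

theorem p_S2 : T_S2 := by
  intro V _ _ D S p1 p2 A B t s a x R h htx has
  have c1 := (h.1.1 (p1 ++ [t]) (by simp)).2.2
  have c2 := (h.1.1 (s :: p2) (by simp)).2.2
  have c3 := split (h.1.1 (A ++ a :: x :: B) (by simp)).2.2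
  refine no_fewer h (Q := ((p1 ++ [t]) ++ (x :: B)) :: ((A ++ [a]) ++ (s :: p2)) :: R) ?_ ?_
    (by simp)
  · intro q hq
    rcases List.mem_cons.1 hq with rfl | hq
    · exact ⟨by simp, join c1 c3.2 htx⟩
    rcases List.mem_cons.1 hq with rfl | hq
    · exact ⟨by simp, join c3.1 c2 has⟩
    · have := h.1.1 q (by simp [hq])
      exact ⟨this.1, this.2.2⟩
  · rw [List.perm_iff_count]
    intro z
    simp only [List.flatten_cons, List.count_append, List.count_cons, List.count_nil]
    omega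

theorem p_S3 : T_S3 := by
  intro V _ _ D S p1 p2 A B A' B' t s a x y b R h htx hys hab
  have c1 := (h.1.1 (p1 ++ [t]) (by simp)).2.2
  have c2 := (h.1.1 (s :: p2) (by simp)).2.2
  have c3 := split (h.1.1 (A ++ a :: x :: B) (by simp)).2.2
  have c4 := split (h.1.1 (A' ++ y :: b :: B') (by simp)).2.2
  refine no_fewer h (Q := ((A ++ [a]) ++ (b :: B')) :: ((p1 ++ [t]) ++ (x :: B)) ::
    ((A' ++ [y]) ++ (s :: p2)) :: R) ?_ ?_ (by simp)
  · intro q hq
    rcases List.mem_cons.1 hq with rfl | hq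
    · exact ⟨by simp, join c3.1 c4.2 hab⟩
    rcases List.mem_cons.1 hq with rfl | hq
    · exact ⟨by simp, join c1 c3.2 htx⟩
    rcases List.mem_cons.1 hq with rfl | hq
    · exact ⟨by simp, join c4.1 c2 hys⟩
    · have := h.1.1 q (by simp [hq])
      exact ⟨this.1, this.2.2⟩
  · rw [List.perm_iff_count]
    intro z
    simp only [List.flatten_cons, List.count_append, List.count_cons, List.count_nil]
    omega

end Pool.Agent.TEH
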