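import Pool.Agent.TEH.Targets

set_option autoImplicit false

/-!
# TEH: the surgeries S4, S5 on a minimal path cover (helper21)
-/

namespace Pool.Agent.TEH

namespace S45_

variable {V : Type} {D : Finset (V × V)} {S : Finset V}

lemma join {p q : List V} {u v : V} (h1 : (p ++ [u]).IsChain (fun a b => (a, b) ∈ D))
    (h2 : (v :: q).IsChain (fun a b => (a, b) ∈ D)) (h : (u, v) ∈ D) :
    ((p ++ [u]) ++ (v :: q)).IsChain (fun a b => (a, b) ∈ D) := by
  rw [List.isChain_append]
  refine ⟨h1, h2, ?_⟩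
  intro x hx y hy
  simp only [List.getLast?_append, List.getLast?_singleton, Option.some_or,
    Option.mem_def, Option.some.injEq] at hx
  simp only [List.head?_cons, Option.mem_def, Option.some.injEq] at hy
  rw [← hx, ← hy]
  exact h

/-- a new cover with the same vertices -/
lemma cover {P Q : List (List V)} (h : PCov D S P)
    (hQ : ∀ q ∈ Q, q ≠ [] ∧ q.IsChain (fun a b => (a, b) ∈ D))
    (hp : Q.flatten.Perm P.flatten) : PCov D S Q := by
  obtain ⟨-, h2, h3⟩ := h
  have h4 : Q.flatten.Nodup := hp.nodup_iff.2 h2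
  refine ⟨fun q hq => ⟨(hQ q hq).1, (List.nodup_flatten.1 h4).1 q hq, (hQ q hq).2⟩, h4, ?_⟩
  intro v
  rw [hp.mem_iff]
  exact h3 v

/-- no cover of the same vertices by fewer paths -/
lemma no_fewer [Fintype V] [DecidableEq V] {P Q : List (List V)} (h : MinCov D S P)
    (hQ : ∀ q ∈ Q, q ≠ [] ∧ q.IsChain (fun a b => (a, b) ∈ D))
    (hp : Q.flatten.Perm P.flatten) (hl : Q.length < P.length) : False :=
  absurd (h.2 Q (cover h.1 hQ hp)) (not_le.2 hl)

lemma sp {p q : List V} (h : (p ++ q).IsChain (fun a b => (a, b) ∈ D)) :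
    p.IsChain (fun a b => (a, b) ∈ D) ∧ q.IsChain (fun a b => (a, b) ∈ D) := by
  rw [List.isChain_append] at h
  exact ⟨h.1, h.2.1⟩

lemma jn {p q : List V} {u v : V} (hu : p.getLast? = some u) (hv : q.head? = some v)
    (h1 : p.IsChain (fun a b => (a, b) ∈ D))
    (h2 : q.IsChain (fun a b => (a, b) ∈ D)) (h : (u, v) ∈ D) :
    (p ++ q).IsChain (fun a b => (a, b) ∈ D) := by
  rw [List.isChain_append]
  refine ⟨h1, h2, ?_⟩
  intro x hx y hy
  rw [hu] at hx
  rw [hv] at hy
  simp only [Option.mem_def, Option.some.injEq] at hx hy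
  rw [← hx, ← hy]
  exact h

end S45_

open S45_

theorem p_S4 : T_S4 := by
  intro V _ _ D S p1 p2 A B C t s a x y b R h hCx hCy htx hys hab
  have c1 := (h.1.1 (p1 ++ [t]) (by simp)).2.2
  have c2 := (h.1.1 (s :: p2) (by simp)).2.2
  have c3 := (h.1.1 (A ++ a :: (C ++ b :: B)) (by simp)).2.2
  have e3 : A ++ a :: (C ++ b :: B) = (A ++ [a]) ++ (C ++ b :: B) := by simp
  rw [e3] at c3
  obtain ⟨c4, c5⟩ := sp c3
  obtain ⟨c6, c7⟩ := sp c5
  refine no_fewer h (Q := ((A ++ [a]) ++ (b :: B)) ::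
    ((p1 ++ [t]) ++ (C ++ (s :: p2))) :: R) ?_ ?_ (by simp)
  · intro q hq
    rcases List.mem_cons.1 hq with rfl | hq
    · exact ⟨by simp, join c4 c7 hab⟩
    rcases List.mem_cons.1 hq with rfl | hq
    · refine ⟨by simp, ?_⟩
      refine jn (u := t) (v := x) (by simp) ?_ c1 (jn hCy (by simp) c6 c2 hys) htx
      rw [List.head?_append, hCx]
      rfl
    · have := h.1.1 q (by simp [hq])
      exact ⟨this.1, this.2.2⟩
  · rw [List.perm_iff_count]
    intro z
    simp only [List.flatten_cons, List.count_append, List.count_cons, List.count_nil]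
    omega

theorem p_S5 : T_S5 := by
  intro V _ _ D S p1 p2 p3 A B C1 C2 t s t' a x y b z R h hb ha htx hys hab htz
  have c1 := (h.1.1 (p1 ++ [t]) (by simp)).2.2
  have c2 := (h.1.1 (s :: p2) (by simp)).2.2
  have c3 := (h.1.1 (p3 ++ [t']) (by simp)).2.2
  have c4 := (h.1.1 (A ++ y :: ((C1 ++ z :: C2) ++ x :: B)) (by simp)).2.2
  have e4 : A ++ y :: ((C1 ++ z :: C2) ++ x :: B) =
      (A ++ [y]) ++ ((C1 ++ z :: C2) ++ x :: B) := by simp
  rw [e4] at c4
  obtain ⟨c5, c6⟩ := sp c4
  obtain ⟨c7, c8⟩ := sp c6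
  obtain ⟨c9, c10⟩ := sp c7
  refine no_fewer h (Q := ((A ++ [y]) ++ (s :: p2)) :: ((p1 ++ [t]) ++ (x :: B)) ::
    ((p3 ++ [t']) ++ ((z :: C2) ++ C1)) :: R) ?_ ?_ (by simp)
  · intro q hq
    rcases List.mem_cons.1 hq with rfl | hq
    · exact ⟨by simp, join c5 c2 hys⟩
    rcases List.mem_cons.1 hq with rfl | hq
    · exact ⟨by simp, join c1 c8 htx⟩
    rcases List.mem_cons.1 hq with rfl | hq
    · refine ⟨by simp, ?_⟩
      refine jn (u := t') (v := z) (by simp) (by simp) c3 ?_ htz
      cases C1 with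
      | nil => simpa using c10
      | cons c C1' =>
        have hb' : c = b := by simpa using hb
        refine jn (u := a) (v := c) ?_ (by simp) c10 c9 (by rw [hb']; exact hab)
        rw [List.getLast?_append] at ha
        rcases hz : (z :: C2).getLast? with _ | w
        · simp at hz
        · rw [hz] at ha
          exact ha
    · have := h.1.1 q (by simp [hq])
      exact ⟨this.1, this.2.2⟩
  · rw [List.perm_iff_count]
    intro w
    simp only [List.flatten_cons, List.count_append, List.count_cons, List.count_nil]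
    omega

end Pool.Agent.TEH
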