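import Pool.Agent.TEH.Targets
import Pool.Agent.TEH.Final
import Pool.Agent.TEH.P_A1
import Pool.Agent.TEH.P_A2
import Pool.Agent.TEH.P_A3
import Pool.Agent.TEH.P_A4
import Pool.Agent.TEH.P_B0
import Pool.Agent.TEH.P_B1
import Pool.Agent.TEH.P_B2
import Pool.Agent.TEH.P_B3
import Pool.Agent.TEH.P_C1
import Pool.Agent.TEH.P_S123
import Pool.Agent.TEH.P_S45
import Pool.Agent.TEH.P_D4
import Pool.Agent.TEH.P_D5
import Pool.Agent.TEH.P_D6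
import Pool.Agent.TEH.P_D7
import Pool.Agent.TEH.P_N1
import Pool.Agent.TEH.P_N2
import Pool.Agent.TEH.P_E1
import Pool.Agent.TEH.P_E2
import Pool.Agent.TEH.P_E3
import Pool.Agent.TEH.P_E4a
import Pool.Agent.TEH.P_E4
import Pool.Agent.TEH.P_E5b
import Pool.Agent.TEH.P_E5
import Pool.Agent.TEH.P_E6a
import Pool.Agent.TEH.P_E6b
import Pool.Agent.TEH.P_E6c
import Pool.Agent.TEH.P_E7
import Pool.Agent.TEH.P_E8
import Pool.Agent.TEH.P_E9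
import Pool.Agent.TEH.P_G1

set_option autoImplicit false

namespace Pool.Agent.TEH

theorem q_A3 : T_A3 := p_A3 p_A2
theorem q_A4 : T_A4 := p_A4 q_A3
theorem q_B1 : T_B1 := p_B1 p_B0
theorem q_B2 : T_B2 := p_B2 q_B1 p_B3
theorem q_D5 : T_D5 := p_D5 p_S1 p_S2 p_S3 p_S4 p_S5
theorem q_D7 : T_D7 := p_D7 p_D4 q_D5 p_D6
theorem q_N1 : T_N1 := p_N1 p_A1 q_A4 q_B2 p_C1 q_D7
theorem q_N2 : T_N2 := p_N2 q_N1
theorem q_E3 : T_E3 := p_E3 p_E1 p_E2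
theorem q_E4 : T_E4 := p_E4 p_E4a
theorem q_E5b : T_E5b := p_E5b q_E3 q_E4
theorem q_E5 : T_E5 := p_E5 p_E4a q_E5b
theorem q_E8 : T_E8 := p_E8 q_E5 p_E7
theorem q_E9 : T_E9 := p_E9 p_E6a p_E6b p_E6c q_E8
theorem q_Z1 : T_Z1 := p_Z1 q_N2 q_E9
theorem q_final : FinalStatement := final q_Z1 p_G1

end Pool.Agent.TEH
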