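import Mathlib

/-!
# Definitions for the project TEH (two arc-disjoint Hamilton cycles, MP_fa7ade_co)

A digraph on the finite type `V` is its arc set `D : Finset (V × V)`.
-/

set_option autoImplicit false

namespace Pool.Agent.TEH

variable {V : Type} [Fintype V] [DecidableEq V]

/-- The out-neighbours of `v` in the arc set `D`. -/
def outN (D : Finset (V × V)) (v : V) : Finset V := Finset.univ.filter (fun w => (v, w) ∈ D)

/-- The in-neighbours of `v` in the arc set `D`. -/
def inN (D : Finset (V × V)) (v : V) : Finset V := Finset.univ.filter (fun u => (u, v) ∈ D)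

/-- The number of arcs of `D` from `X` to `Y`. -/
def arcs (D : Finset (V × V)) (X Y : Finset V) : ℕ :=
  (D.filter (fun p => p.1 ∈ X ∧ p.2 ∈ Y)).card

/-- No arc `v → v`. -/
def Loopless (D : Finset (V × V)) : Prop := ∀ v, (v, v) ∉ D

/-- The permutation `σ` is a Hamilton cycle of `D`: all pairs `(v, σ v)` are arcs and `σ` has
only one cycle. -/
def Ham (D : Finset (V × V)) (σ : Equiv.Perm V) : Prop :=
  (∀ v, (v, σ v) ∈ D) ∧ ∀ u v, σ.SameCycle u v

/-- `l` is (the vertex list of) a directed path of `D`. -/
def PathL (D : Finset (V × V)) (l : List V) : Prop :=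
  l ≠ [] ∧ l.Nodup ∧ l.IsChain (fun a b => (a, b) ∈ D)

/-- `l` is (the vertex list of) a directed cycle of `D`: a path whose last vertex sends an arc
to its first vertex. -/
def CycL (D : Finset (V × V)) (l : List V) : Prop :=
  PathL D l ∧ ∀ a ∈ l.getLast?, ∀ b ∈ l.head?, (a, b) ∈ D

/-- `b` follows `a` in the closed list `l`. -/
def CycPair (l : List V) (a b : V) : Prop :=
  (∃ p q : List V, l = p ++ a :: b :: q) ∨ (l.getLast? = some a ∧ l.head? = some b)

/-- The arcs in `M` are pairwise vertex-disjoint (and are not loops). -/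
def Matching (M : Finset (V × V)) : Prop :=
  (∀ p ∈ M, p.1 ≠ p.2) ∧
    ∀ p ∈ M, ∀ q ∈ M, p ≠ q → p.1 ≠ q.1 ∧ p.1 ≠ q.2 ∧ p.2 ≠ q.1 ∧ p.2 ≠ q.2

/-- Any two sets of at least `(1/2 - ε) n` vertices (disjoint or not) have at least `ε n^2` arcs
from the first to the second. -/
def NonExt (D : Finset (V × V)) (ε : ℝ) : Prop :=
  ∀ X Y : Finset V, (1 / 2 - ε) * (Fintype.card V : ℝ) ≤ (X.card : ℝ) →
    (1 / 2 - ε) * (Fintype.card V : ℝ) ≤ (Y.card : ℝ) →
      ε * (Fintype.card V : ℝ) ^ 2 ≤ (arcs D X Y : ℝ)

/-- `P` is a list of vertex-disjoint paths of `D` that covers exactly the vertex set `S`. -/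
def PCov (D : Finset (V × V)) (S : Finset V) (P : List (List V)) : Prop :=
  (∀ p ∈ P, PathL D p) ∧ P.flatten.Nodup ∧ ∀ v, v ∈ P.flatten ↔ v ∈ S

/-- A path cover with the least number of paths. -/
def MinCov (D : Finset (V × V)) (S : Finset V) (P : List (List V)) : Prop :=
  PCov D S P ∧ ∀ Q, PCov D S Q → P.length ≤ Q.length

/-- `F` is a linear forest: at most one arc leaves and at most one arc enters each vertex, and
some height function increases along every arc of `F` (so there is no cycle). -/
def Lin (F : Finset (V × V)) : Prop :=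
  (∀ p ∈ F, ∀ q ∈ F, p.1 = q.1 → p = q) ∧ (∀ p ∈ F, ∀ q ∈ F, p.2 = q.2 → p = q) ∧
    ∃ h : V → ℕ, ∀ p ∈ F, h p.1 < h p.2

/-- The vertices from which no arc of `F` leaves. -/
def fo (F : Finset (V × V)) : Finset V := Finset.univ \ F.image Prod.fst

/-- The vertices to which no arc of `F` comes. -/
def fi (F : Finset (V × V)) : Finset V := Finset.univ \ F.image Prod.snd

/-- The vertices with label `c`. -/
def cls (o : V → Bool) (c : Bool) : Finset V := Finset.univ.filter (fun v => o v = c)

/-- `T` is a typed digraph: the out-label `o` and the in-label `i` are such that for all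
vertices outside the exceptional set `W` (at most `m` vertices) all but at most `m` of the
typical arcs (those from `u` to `v` with `o u = i v`) are present, each exceptional vertex
has at least `k` typical arcs in each direction, and all classes have at least `k` elements. -/
structure Typed (D : Finset (V × V)) (o i : V → Bool) (W : Finset V) (m k : ℕ) : Prop where
  loop : Loopless D
  cardW : W.card ≤ m
  outG : ∀ v ∉ W, ((cls i (o v)).filter (fun w => (v, w) ∉ D)).card ≤ m
  inG : ∀ w ∉ W, ((cls o (i w)).filter (fun v => (v, w) ∉ D)).card ≤ m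
  outW : ∀ v ∈ W, k ≤ ((cls i (o v)).filter (fun w => (v, w) ∈ D)).card
  inW : ∀ w ∈ W, k ≤ ((cls o (i w)).filter (fun v => (v, w) ∈ D)).card
  bigO : ∀ c, k ≤ (cls o c).card
  bigI : ∀ c, k ≤ (cls i c).card

/-- Balance: the arcs of `M` and typical arcs can form a 1-factor. -/
def Balanced (M : Finset (V × V)) (o i : V → Bool) : Prop :=
  ∀ c, (cls o c).card + (M.filter (fun p => i p.2 = c)).card =
    (cls i c).card + (M.filter (fun p => o p.1 = c)).card

/-- Base labels obtained from an extremal pair, with error `a`. -/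
structure Base (D : Finset (V × V)) (o i : V → Bool) (W : Finset V) (a : ℕ) : Prop where
  cardW : W.card ≤ a
  outG : ∀ v ∉ W, ((cls i (o v)).filter (fun w => (v, w) ∉ D)).card ≤ a
  inG : ∀ w ∉ W, ((cls o (i w)).filter (fun v => (v, w) ∉ D)).card ≤ a
  loO : ∀ c, Fintype.card V ≤ 2 * (cls o c).card + 2 * a
  hiO : ∀ c, 2 * (cls o c).card ≤ Fintype.card V + 2 * a
  loI : ∀ c, Fintype.card V ≤ 2 * (cls i c).card + 2 * a
  hiI : ∀ c, 2 * (cls i c).card ≤ Fintype.card V + 2 * a

end Pool.Agent.TEH
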