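import Pool.Agent.TEH.Targets

/-!
# TEH: the target T_D6
-/

set_option autoImplicit false

namespace Pool.Agent.TEH

namespace D6_

theorem sum_ge {V : Type} (L : ℕ) : ∀ T : List (List V), (∀ p ∈ T, L + 1 ≤ p.length) →
    T.length * (L + 1) ≤ T.flatten.length
  | [], _ => by simp
  | p :: T, h => by
    have h1 := sum_ge L T (fun q hq => h q (List.mem_cons_of_mem _ hq))
    have h2 := h p (List.mem_cons_self ..)
    rw [List.flatten_cons, List.length_append, List.length_cons, Nat.add_mul]
    omega

end D6_

theorem p_D6 : T_D6 := by
  intro V _ _ P L hnd h3 hlt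
  set S := P.filter (fun p => decide (p.length ≤ L)) with hS
  set T := P.filter (fun p => !decide (p.length ≤ L)) with hT
  have hperm : (S ++ T).Perm P := List.filter_append_perm _ P
  have hSl : ∀ p ∈ S, p.length ≤ L := by
    intro p hp
    rw [hS, List.mem_filter] at hp
    simpa using hp.2
  have hTl : ∀ p ∈ T, L + 1 ≤ p.length := by
    intro p hp
    rw [hT, List.mem_filter] at hp
    have := hp.2
    simp only [Bool.not_eq_true', decide_eq_false_iff_not, not_le] at this
    exact this
  have hlen : S.length + T.length = P.length := by
    rw [← List.length_append]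
    exact hperm.length_eq
  have hcard : (S ++ T).flatten.length ≤ Fintype.card V := by
    have h1 : (S ++ T).flatten.Nodup := (hperm.flatten.nodup_iff).2 hnd
    exact h1.length_le_card
  rw [List.flatten_append, List.length_append] at hcard
  have hsum := D6_.sum_ge L T hTl
  by_cases h : 3 ≤ S.length
  · match hSS : S, h with
    | P1 :: P2 :: P3 :: S', _ =>
      refine ⟨P1, P2, P3, S' ++ T, ?_, ?_, ?_, ?_⟩
      · have := hperm.symm
        simpa using this
      · exact hSl P1 (by simp)
      · exact hSl P2 (by simp)
      · exact hSl P3 (by simp)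
  · exfalso
    have h1 : P.length - 2 ≤ T.length := by omega
    have h2 : (P.length - 2) * (L + 1) ≤ T.length * (L + 1) := Nat.mul_le_mul_right _ h1
    omega

end Pool.Agent.TEH
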