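import Pool.Agent.TEH.Targets

set_option autoImplicit false

namespace Pool.Agent.TEH

open Finset

theorem p_E9 (hE6a : T_E6a) (hE6b : T_E6b) (hE6c : T_E6c) (hE8 : T_E8) : T_E9 := by
  refine ⟨10 ^ 7, ?_⟩
  intro V _ _ D hn hl hout hin hNE
  unfold NonExt at hNE
  push Not at hNE
  obtain ⟨X, Y, hX, hY, hXY⟩ := hNE
  obtain ⟨o0, i0, W0, hB⟩ := hE6a V D X Y hl hn hout hin hX hY hXY
  have ha : 1 ≤ Fintype.card V / 100000 := by omega
  obtain ⟨o, i, W, d, hT, hd, hda, hflex, hsz⟩ :=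
    hE6b V D o0 i0 W0 (Fintype.card V / 100000) hl hB ha (by omega) hout hin
  refine hE8 V D o i W _ _ d hT (by omega) hout hin hd (by omega) ?_
  intro p0
  rcases Nat.eq_zero_or_pos d with h0 | h0
  · refine ⟨∅, by simp, ⟨by simp, by simp⟩, by simp [h0], by simp, by simp⟩
  · exact hE6c V D o i d hl (by omega) h0 hd hout hin (hflex h0).1 (hflex h0).2 hsz p0

theorem p_Z1 (hN2 : T_N2) (hE9 : T_E9) : T_Z1 := by
  obtain ⟨n1, h1⟩ := hN2 (1 / 10 ^ 12) (by positivity)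
  obtain ⟨n2, h2⟩ := hE9
  refine ⟨n1 + n2, ?_⟩
  intro V _ _ D hn hl hout hin
  by_cases h : NonExt D (1 / 10 ^ 12)
  · exact h1 V D (by omega) hl hout hin h
  · exact h2 V D (by omega) hl hout hin h

end Pool.Agent.TEH
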