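import Pool.Agent.TEH.Defs

/-!
# Targets of the project TEH (MP_fa7ade_co, all large n)

Main theorem: for all large `n`, every loopless digraph on `n` vertices with minimum
semidegree at least `n / 2` has two arc-disjoint Hamilton cycles.

Part A: lists, cycles, insertion of paths.
Part B: a small vertex-disjoint set of arcs that hits many dense sets of arcs `K` times.
Part C: joining these arcs to an absorbing cycle.
Part S: surgeries on a minimal path cover.  Part D: a minimal path cover has at most `K` paths.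
Part N: non-extremal digraphs are Hamiltonian.
Part E: the extremal case (typed digraphs).
-/

set_option autoImplicit false

namespace Pool.Agent.TEH

open Finset

/-! ## Part A -/

/-- A1. A cycle list containing all vertices gives a Hamilton permutation.
Proof: `σ = l.formPerm`; `List.formPerm_apply_getElem` says `σ l[i] = l[(i+1) % l.length]`, so the
arcs are those of the chain and the closing arc; `σ ^ k` maps `l[0]` to `l[k % l.length]`, hence
all vertices are in the same cycle. (Length one is covered by the same formulas.) -/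
def T_A1 : Prop := ∀ (V : Type) [Fintype V] [DecidableEq V] (D : Finset (V × V)) (l : List V),
  CycL D l → (∀ v, v ∈ l) → ∃ σ : Equiv.Perm V, Ham D σ

/-- A2. Rotation of a cycle list so that a given cyclic pair `(x, y)` becomes the closing pair.
Proof: if `c = p ++ x :: y :: q` take `c' = (y :: q) ++ (p ++ [x])`, else `c' = c`. The cyclic
pairs are the same. -/
def T_A2 : Prop := ∀ (V : Type) [Fintype V] [DecidableEq V] (D : Finset (V × V)) (c : List V)
  (x y : V), CycL D c → CycPair c x y →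
    ∃ c' : List V, CycL D c' ∧ c'.Perm c ∧ c'.head? = some y ∧ c'.getLast? = some x ∧
      ∀ a b, CycPair c' a b ↔ CycPair c a b

/-- A3. Insertion of a path `P` between the cyclic pair `x, y`. Proof: rotate by A2 to `c0` with
head `y` and last element `x`; take `c' = c0 ++ P`. A cyclic pair of `c0` is either consecutive in
`c0` (hence in `c0 ++ P`) or the closing pair `(x, y)`. Take T_A2 as a hypothesis. -/
def T_A3 : Prop := ∀ (V : Type) [Fintype V] [DecidableEq V] (D : Finset (V × V)) (c P : List V)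
  (x y : V), CycL D c → CycPair c x y → PathL D P → (c ++ P).Nodup →
    (∀ s ∈ P.head?, (x, s) ∈ D) → (∀ t ∈ P.getLast?, (t, y) ∈ D) →
      ∃ c' : List V, CycL D c' ∧ c'.Perm (c ++ P) ∧
        ∀ a b, CycPair c a b → (a, b) ≠ (x, y) → CycPair c' a b

/-- A4. Insertion of several paths. `M` is a set of cyclic pairs of `c`; for all `s, t` at least
as many pairs `(x, y)` of `M` as there are paths satisfy `x → s` and `t → y`. Induction on `𝒫`
(for all `c`, `M`): insert the first path (from `s` to `t`) at a suitable `(x, y) ∈ M` by A3 and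
continue with `M.erase (x, y)`. Take T_A3 as a hypothesis. -/
def T_A4 : Prop := ∀ (V : Type) [Fintype V] [DecidableEq V] (D : Finset (V × V))
  (P : List (List V)) (c : List V) (M : Finset (V × V)),
  CycL D c → (∀ p ∈ M, CycPair c p.1 p.2) → (∀ p ∈ P, PathL D p) → (c ++ P.flatten).Nodup →
    (∀ s t : V, P.length ≤ (M.filter (fun p => (p.1, s) ∈ D ∧ (t, p.2) ∈ D)).card) →
      ∃ c' : List V, CycL D c' ∧ c'.Perm (c ++ P.flatten)

/-! ## Part B -/

/-- B0. One greedy step. Let `n` be the number of vertices. At most `2 |U| n ≤ (ε/2) n^2` pairs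
touch `U`, so each `A j`, `j ∈ J`, has at least `(ε/2) n^2` pairs that avoid `U`. Double counting
over the at most `n^2` pairs: some pair avoiding `U` lies in at least `(ε/2) |J|` of them. -/
def T_B0 : Prop := ∀ (V : Type) [Fintype V] [DecidableEq V] (ι : Type) [DecidableEq ι]
  (J : Finset ι) (A : ι → Finset (V × V)) (ε : ℝ) (U : Finset V),
  0 < ε → J.Nonempty → 0 < Fintype.card V →
    (∀ j ∈ J, ε * (Fintype.card V : ℝ) ^ 2 ≤ ((A j).card : ℝ)) →
      4 * (U.card : ℝ) ≤ ε * (Fintype.card V : ℝ) →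
        ∃ p : V × V, p.1 ∉ U ∧ p.2 ∉ U ∧ (∃ j ∈ J, p ∈ A j) ∧
          ε / 2 * (J.card : ℝ) ≤ ((J.filter (fun j => p ∈ A j)).card : ℝ)

/-- B1. One round of `k` greedy steps. Induction on `k` with B0 (hypothesis T_B0) applied to the
set `J` of the not yet hit indices and `U ∪ (vertices of M)`; if `J` is empty nothing is to be
done. The number of not hit indices is multiplied by at most `1 - ε/2` in each step. -/
def T_B1 : Prop := ∀ (V : Type) [Fintype V] [DecidableEq V] (ι : Type) [Fintype ι] [DecidableEq ι]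
  (A : ι → Finset (V × V)) (ε : ℝ) (k : ℕ) (U : Finset V),
  0 < ε → ε ≤ 1 → 0 < Fintype.card V → (∀ j, ∀ p ∈ A j, p.1 ≠ p.2) →
    (∀ j, ε * (Fintype.card V : ℝ) ^ 2 ≤ ((A j).card : ℝ)) →
      4 * ((U.card : ℝ) + 2 * k) ≤ ε * (Fintype.card V : ℝ) →
        ∃ M : Finset (V × V), M.card ≤ k ∧ Matching M ∧ (∀ p ∈ M, p.1 ∉ U ∧ p.2 ∉ U) ∧
          (∀ p ∈ M, ∃ j, p ∈ A j) ∧
          ((Finset.univ.filter (fun j => Disjoint M (A j))).card : ℝ) ≤
            (1 - ε / 2) ^ k * (Fintype.card ι : ℝ)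

/-- B3. Exponential decay beats `n^2`. Use `r^⌊δ n⌋ ≤ r^(δ n - 1)` (for `r > 0`; the case `r = 0`
is easy) and `tendsto_pow_const_mul_const_pow_of_abs_lt_one`, or any other way. -/
def T_B3 : Prop := ∀ r δ : ℝ, 0 ≤ r → r < 1 → 0 < δ → ∃ n0 : ℕ, ∀ n : ℕ, n0 ≤ n →
  r ^ (Nat.floor (δ * n)) * (n : ℝ) ^ 2 < 1

/-- B2. `K` rounds. Put `δ' = min δ (ε/16) / (K+1)`, `k = ⌊δ' n⌋`; by B3 for large `n` we have
`(1 - ε/2)^k n^2 < 1`, so a round (B1 with `ι = V × V`) hits every `A j`. Do `K` rounds, always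
with `U` = the set of vertices used so far (at most `2 K k` vertices;
`4 (2 K k + 2 k) ≤ 8 (K+1) δ' n ≤ ε n`). The union `M` has at most `K k ≤ δ n` arcs.
Note that `ε ≤ 1` because `ε n^2 ≤ |A j| ≤ n^2`. Take T_B1 and T_B3 as hypotheses. -/
def T_B2 : Prop := ∀ (ε δ : ℝ) (K : ℕ), 0 < ε → 0 < δ → ∃ n0 : ℕ,
  ∀ (V : Type) [Fintype V] [DecidableEq V], n0 ≤ Fintype.card V →
    ∀ A : V × V → Finset (V × V), (∀ j, ∀ p ∈ A j, p.1 ≠ p.2) →
      (∀ j, ε * (Fintype.card V : ℝ) ^ 2 ≤ ((A j).card : ℝ)) →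
        ∃ M : Finset (V × V), (M.card : ℝ) ≤ δ * (Fintype.card V : ℝ) ∧ Matching M ∧
          (∀ p ∈ M, ∃ j, p ∈ A j) ∧ ∀ j, K ≤ (M ∩ A j).card

/-! ## Part C -/

/-- C1. The arcs of a matching `M ⊆ D` can be joined to a cycle with at most `4 |M|` vertices in
which each arc of `M` is a cyclic pair. Proof: for all `u, v` and every set `U` of at most `4 |M|`
vertices there is an arc `(a, b)` of `D` with `u → a`, `b → v`, `a, b ∉ U` (at most `2 |U| n` arcs
touch `U`). Let `M = {p_1, .., p_r}`. By induction on `j` there is a path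
`p_1.1, p_1.2, a_1, b_1, p_2.1, p_2.2, a_2, b_2, ..., p_j.1, p_j.2` whose `a`'s and `b`'s avoid the
vertices of `M` and everything used before; at the end close with `(a_r, b_r)` between `p_r.2` and
`p_1.1`. All its vertices are distinct (looplessness gives `a ≠ b`). -/
def T_C1 : Prop := ∀ (V : Type) [Fintype V] [DecidableEq V] (D M : Finset (V × V)),
  Loopless D → Matching M → M ⊆ D → M.Nonempty →
    (∀ u v : V, 8 * M.card * Fintype.card V <
      (D.filter (fun p => (u, p.1) ∈ D ∧ (p.2, v) ∈ D)).card) →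
      ∃ c : List V, CycL D c ∧ c.length ≤ 4 * M.card ∧ ∀ p ∈ M, CycPair c p.1 p.2

/-! ## Part S: surgeries. In each case write down a cover with one path fewer. -/

/-- S1. `t → s` would merge the first two paths: replace them by `(p1 ++ [t]) ++ (s :: p2)`. -/
def T_S1 : Prop := ∀ (V : Type) [Fintype V] [DecidableEq V] (D : Finset (V × V)) (S : Finset V)
  (p1 p2 : List V) (t s : V) (R : List (List V)),
  MinCov D S ((p1 ++ [t]) :: (s :: p2) :: R) → (t, s) ∉ D

/-- S2. New paths `(p1 ++ [t]) ++ (x :: B)` and `(A ++ [a]) ++ (s :: p2)` instead of three. -/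
def T_S2 : Prop := ∀ (V : Type) [Fintype V] [DecidableEq V] (D : Finset (V × V)) (S : Finset V)
  (p1 p2 A B : List V) (t s a x : V) (R : List (List V)),
  MinCov D S ((p1 ++ [t]) :: (s :: p2) :: (A ++ a :: x :: B) :: R) →
    (t, x) ∈ D → (a, s) ∉ D

/-- S3. New paths `(A ++ [a]) ++ (b :: B')`, `(p1 ++ [t]) ++ (x :: B)`, `(A' ++ [y]) ++ (s :: p2)`
instead of four. -/
def T_S3 : Prop := ∀ (V : Type) [Fintype V] [DecidableEq V] (D : Finset (V × V)) (S : Finset V)
  (p1 p2 A B A' B' : List V) (t s a x y b : V) (R : List (List V)),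
  MinCov D S ((p1 ++ [t]) :: (s :: p2) :: (A ++ a :: x :: B) :: (A' ++ y :: b :: B') :: R) →
    (t, x) ∈ D → (y, s) ∈ D → (a, b) ∉ D

/-- S4. Here `x` is the first and `y` the last element of `C` (possibly `x = y`). New paths
`(A ++ [a]) ++ (b :: B)` and `(p1 ++ [t]) ++ C ++ (s :: p2)` instead of three. -/
def T_S4 : Prop := ∀ (V : Type) [Fintype V] [DecidableEq V] (D : Finset (V × V)) (S : Finset V)
  (p1 p2 A B C : List V) (t s a x y b : V) (R : List (List V)),
  MinCov D S ((p1 ++ [t]) :: (s :: p2) :: (A ++ a :: (C ++ b :: B)) :: R) →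
    C.head? = some x → C.getLast? = some y →
    (t, x) ∈ D → (y, s) ∈ D → (a, b) ∉ D

/-- S5. Here `C1 ++ z :: C2` is a segment with first element `b` and last element `a`. New paths
`(A ++ [y]) ++ (s :: p2)`, `(p1 ++ [t]) ++ (x :: B)`, `(p3 ++ [t']) ++ (z :: C2) ++ C1` instead of
four (if `C1 = []` the arc `a → b` is not needed). -/
def T_S5 : Prop := ∀ (V : Type) [Fintype V] [DecidableEq V] (D : Finset (V × V)) (S : Finset V)
  (p1 p2 p3 A B C1 C2 : List V) (t s t' a x y b z : V) (R : List (List V)),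
  MinCov D S ((p1 ++ [t]) :: (s :: p2) :: (p3 ++ [t']) ::
    (A ++ y :: ((C1 ++ z :: C2) ++ x :: B)) :: R) →
    (C1 ++ z :: C2).head? = some b → (C1 ++ z :: C2).getLast? = some a →
    (t, x) ∈ D → (y, s) ∈ D → (a, b) ∈ D → (t', z) ∉ D

/-! ## Part D -/

/-- D5. Coordinates in the remaining paths `R` of a minimal cover. `id v` is the index of the path
of `R` containing `v`, `pos v` the position of `v` in this path, `pre x` / `suc y` the preceding /
following vertex (any value if there is none). `MinCov` does not depend on the order of the list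
of paths (permutations), so any path `Q` of `R` (or two paths) can be brought behind the first
two (three) paths. Facts: if `t → x` (or `t' → x`) and `x` is in `R`, then `x` is not the first
vertex of its path `Q` (S1 with `(p1 ++ [t])` and `Q = x :: _`) and `(pre x, s) ∉ D` (S2). If
`y → s`, then `y` is not the last vertex (S1). If `t → x`, `y → s` and `(pre x, suc y) ∈ D`: the
two are in the same path (S3), `suc y` is not behind `pre x` in it: if `suc y` comes directly
after `pre x`, then `y = pre x`, which contradicts `(pre x, s) ∉ D`; if it comes later, S4; they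
are not equal (looplessness). So `suc y` is before `pre x`, and S5 gives the last claim.
Take T_S1, ..., T_S5 as hypotheses. -/
def T_D5 : Prop := ∀ (V : Type) [Fintype V] [DecidableEq V] (D : Finset (V × V)) (S : Finset V)
  (p1 p2 p3 : List V) (t s t' : V) (R : List (List V)),
  Loopless D → MinCov D S ((p1 ++ [t]) :: (s :: p2) :: (p3 ++ [t']) :: R) →
    ∃ (id pos : V → ℕ) (pre suc : V → V),
      (∀ u ∈ R.flatten, ∀ v ∈ R.flatten, id u = id v → pos u = pos v → u = v) ∧
      (∀ x ∈ R.flatten, ((t, x) ∈ D ∨ (t', x) ∈ D) →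
        pre x ∈ R.flatten ∧ id (pre x) = id x ∧ pos (pre x) + 1 = pos x ∧ (pre x, s) ∉ D) ∧
      (∀ y ∈ R.flatten, (y, s) ∈ D →
        suc y ∈ R.flatten ∧ id (suc y) = id y ∧ pos (suc y) = pos y + 1) ∧
      (∀ x ∈ R.flatten, (t, x) ∈ D → ∀ y ∈ R.flatten, (y, s) ∈ D → (pre x, suc y) ∈ D →
        id (suc y) = id (pre x) ∧ pos (suc y) < pos (pre x) ∧
          ∀ z ∈ R.flatten, (t', z) ∈ D → id z = id (pre x) → pos (suc y) ≤ pos z →
            pos z ≤ pos (pre x) → False)

/-- D4. The counting argument. Let `X1 = pre '' Nt`, `X3 = pre '' Nt'`, `Y = suc '' Ns` (`pre` and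
`suc` are injective there because of the coordinates). `X1` and `X3` are disjoint from `Ns`, so
`|X1 ∪ X3| ≤ n - |Ns| ≤ (1/2 + β) n`, hence `|X1 \ X3| ≤ 2 β n`. By `NonExt` there are at least
`ε n^2` arcs from `X1` to `Y`, so some `b ∈ Y` receives arcs from a set `Ab ⊆ X1` of at least
`ε n` vertices. All of them have the same `id` as `b` and larger `pos`. Let `a` be the one with
the largest `pos`. As `|Ab| - 1 ≥ ε n - 1 > 2 β n`, some `a' ∈ Ab`, `a' ≠ a`, lies in `X3`:
`a' = pre z`, `z ∈ Nt'`, and `pos z = pos a' + 1 ≤ pos a`, `pos b ≤ pos z`: contradiction to the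
last hypothesis. -/
def T_D4 : Prop := ∀ (V : Type) [Fintype V] [DecidableEq V] (D : Finset (V × V)) (ε β : ℝ)
  (T Nt Nt' Ns : Finset V) (id pos : V → ℕ) (pre suc : V → V),
  0 < ε → 0 ≤ β → 100 * β ≤ ε → 100 ≤ ε * (Fintype.card V : ℝ) → NonExt D ε →
    (∀ u ∈ T, ∀ v ∈ T, id u = id v → pos u = pos v → u = v) →
    Nt ⊆ T → Nt' ⊆ T → Ns ⊆ T →
    (1 / 2 - β) * (Fintype.card V : ℝ) ≤ (Nt.card : ℝ) →
    (1 / 2 - β) * (Fintype.card V : ℝ) ≤ (Nt'.card : ℝ) →
    (1 / 2 - β) * (Fintype.card V : ℝ) ≤ (Ns.card : ℝ) →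
    (∀ x ∈ Nt ∪ Nt', pre x ∈ T ∧ id (pre x) = id x ∧ pos (pre x) + 1 = pos x ∧ pre x ∉ Ns) →
    (∀ y ∈ Ns, suc y ∈ T ∧ id (suc y) = id y ∧ pos (suc y) = pos y + 1) →
    (∀ x ∈ Nt, ∀ y ∈ Ns, (pre x, suc y) ∈ D →
        id (suc y) = id (pre x) ∧ pos (suc y) < pos (pre x) ∧
          ∀ z ∈ Nt', id z = id (pre x) → pos (suc y) ≤ pos z →
            pos z ≤ pos (pre x) → False) → False

/-- D6. Three short paths. If at most two of the lists had length `≤ L`, then at least
`P.length - 2` of them would have length at least `L + 1`, so `P.flatten` would have more than `n`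
elements. -/
def T_D6 : Prop := ∀ (V : Type) [Fintype V] [DecidableEq V] (P : List (List V)) (L : ℕ),
  P.flatten.Nodup → 3 ≤ P.length → Fintype.card V < (P.length - 2) * (L + 1) →
    ∃ (P1 P2 P3 : List V) (R : List (List V)), P.Perm (P1 :: P2 :: P3 :: R) ∧
      P1.length ≤ L ∧ P2.length ≤ L ∧ P3.length ≤ L

/-- D7. A minimal path cover of `S` has at most `K` paths. Put `γ = ε/1000`, `K = ⌈1/γ⌉ + 2`,
`n0` with `ε n0 ≥ 100`. A path cover exists (single vertices), so there is a minimal one, `P`.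
Suppose `P.length > K`. With `L = ⌊γ n⌋` D6 gives short paths `P1 = p1 ++ [t]`, `P2 = s :: p2`,
`P3 = p3 ++ [t']`; D5 gives coordinates. Let `T` be the vertex set of `R`:
`|V \ T| ≤ γ n + 3 γ n`. `Nt = outN t ∩ T`, `Nt' = outN t' ∩ T`, `Ns = inN s ∩ T` have at least
`(1/2 - 5 γ) n` elements, and D4 with `β = 5 γ` gives a contradiction.
Take T_D4, T_D5, T_D6 as hypotheses. -/
def T_D7 : Prop := ∀ ε : ℝ, 0 < ε → ∃ K n0 : ℕ,
  ∀ (V : Type) [Fintype V] [DecidableEq V] (D : Finset (V × V)) (S : Finset V),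
    n0 ≤ Fintype.card V → Loopless D →
    (Fintype.card V : ℝ) - (S.card : ℝ) ≤ ε / 1000 * (Fintype.card V : ℝ) →
    (∀ v, (1 / 2 - ε / 1000) * (Fintype.card V : ℝ) ≤ ((outN D v).card : ℝ)) →
    (∀ v, (1 / 2 - ε / 1000) * (Fintype.card V : ℝ) ≤ ((inN D v).card : ℝ)) →
    NonExt D ε → ∃ P : List (List V), PCov D S P ∧ P.length ≤ K

/-! ## Part N -/

/-- N1. Non-extremal digraphs are Hamiltonian. Take `K ≥ 1` from D7; `A (s, t)` = the arcs
`p` of `D` with `p.1 → s` and `t → p.2`; `|A (s, t)| = arcs D (inN s) (outN t) ≥ ε n^2`. B2 with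
`δ = ε/10000` gives `M`; C1 (the arcs in question are `arcs D (outN u) (inN v) ≥ ε n^2 > 8 |M| n`)
gives an absorbing cycle `c` with at most `4 |M| ≤ (ε/1000) n` vertices. D7 gives a path cover of
`S` = the vertices not in `c`; A4 and A1 finish. Take T_A1, T_A4, T_B2, T_C1, T_D7 as
hypotheses. -/
def T_N1 : Prop := ∀ ε : ℝ, 0 < ε → ∃ n0 : ℕ,
  ∀ (V : Type) [Fintype V] [DecidableEq V] (D : Finset (V × V)),
    n0 ≤ Fintype.card V → Loopless D →
    (∀ v, (1 / 2 - ε / 1000) * (Fintype.card V : ℝ) ≤ ((outN D v).card : ℝ)) →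
    (∀ v, (1 / 2 - ε / 1000) * (Fintype.card V : ℝ) ≤ ((inN D v).card : ℝ)) →
    NonExt D ε → ∃ σ : Equiv.Perm V, Ham D σ

/-- N2. Two disjoint Hamilton cycles in a non-extremal digraph. N1 with `ε` gives `σ`; delete
its arcs: `D' = D.filter (fun p => σ p.1 ≠ p.2)`; degrees drop by one, `arcs` drops by at most `n`,
so for large `n` N1 with `ε / 2` applies to `D'`. Take T_N1 as a hypothesis. -/
def T_N2 : Prop := ∀ ε : ℝ, 0 < ε → ∃ n0 : ℕ,
  ∀ (V : Type) [Fintype V] [DecidableEq V] (D : Finset (V × V)),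
    n0 ≤ Fintype.card V → Loopless D →
    (∀ v, Fintype.card V ≤ 2 * (outN D v).card) → (∀ v, Fintype.card V ≤ 2 * (inN D v).card) →
    NonExt D ε → ∃ σ τ : Equiv.Perm V, Ham D σ ∧ Ham D τ ∧ ∀ v, σ v ≠ τ v

/-! ## Part E -/

/-- E1. A 1-factor containing `F` and otherwise typical arcs. Hall's theorem
(`Finset.all_card_le_biUnion_card_iff_exists_injective`) for the sets
`t v = {w | (v, w) ∈ F}` if `v ∉ fo F`, `t v = {w ∈ fi F | i w = o v, (v, w) ∈ D}` if `v ∈ fo F`.
Hall's condition for `A`: split `A` in the part outside `fo F` and the parts `A_c` of `fo F` with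
`o = c`; the three unions are disjoint. For `A_c` nonempty: if `|A_c| ≤ N_c - m` (`N_c` the common
size of the two classes) one vertex has enough neighbours; if `|A_c| > N_c - m ≥ m`, every
`w ∈ fi F` with `i w = c` has at most `m` non-neighbours, so is a neighbour of `A_c`. -/
def T_E1 : Prop := ∀ (V : Type) [Fintype V] [DecidableEq V] (D F : Finset (V × V))
  (o i : V → Bool) (m : ℕ), Lin F →
    (∀ v ∈ fo F, ((fi F).filter (fun w => i w = o v ∧ (v, w) ∉ D)).card ≤ m) →
    (∀ w ∈ fi F, ((fo F).filter (fun v => o v = i w ∧ (v, w) ∉ D)).card ≤ m) →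
    (∀ c, ((fo F).filter (fun v => o v = c)).card = ((fi F).filter (fun w => i w = c)).card) →
    (∀ c, 2 * m < ((fo F).filter (fun v => o v = c)).card) →
      ∃ σ : Equiv.Perm V, (∀ p ∈ F, σ p.1 = p.2) ∧
        ∀ v ∈ fo F, (v, σ v) ∈ D ∧ i (σ v) = o v

/-- E2. Multiplying a permutation by a transposition of elements of two different cycles merges
the cycles. Note `(σ * swap u u') u = σ u'`, `(σ * swap u u') u' = σ u` and no other values
change. -/
def T_E2 : Prop := ∀ (V : Type) [Fintype V] [DecidableEq V] (σ : Equiv.Perm V) (s u u' : V),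
  σ.SameCycle s u → ¬ σ.SameCycle s u' →
    (∀ x, σ.SameCycle s x → (σ * Equiv.swap u u').SameCycle s x) ∧
    (∀ x, σ.SameCycle u' x → (σ * Equiv.swap u u').SameCycle s x)

/-- E3. A Hamilton cycle containing the linear forest `F` and otherwise typical arcs. Call `σ`
valid if it is as in E1; choose a valid `σ` for which the cycle `C` of `s` has the largest number
of vertices. `C` contains `t ∈ fo F` (follow `F`), with `o t = false`, and `u1 = σ⁻¹ s`, which is
in `fo F` (as `s ∈ fi F`) and has `o u1 = i s = true`. So for each label `c` there is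
`u ∈ fo F ∩ C` with `o u = c`. If more than `2 m` vertices `u' ∈ fo F \ C` had `o u' = c`, one of
them would satisfy `(u, σ u') ∈ D` and `(u', σ u) ∈ D` (at most `m` violate each), and
`σ * swap u u'` would be valid with a larger cycle (E2). If `C` is not everything, take a vertex
outside `C` and follow `σ` until a vertex `u' ∈ fo F` is reached (arcs of `F` increase the height
function, so this happens); let `c = o u'`. At least `N_c - 2 m > 2 m` vertices `u ∈ fo F ∩ C` have
`o u = c`; one of them satisfies `(u, σ u') ∈ D` and `(u', σ u) ∈ D`: contradiction as before.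
Take T_E1 and T_E2 as hypotheses. -/
def T_E3 : Prop := ∀ (V : Type) [Fintype V] [DecidableEq V] (D F : Finset (V × V))
  (o i : V → Bool) (m : ℕ) (s t : V), Lin F → F ⊆ D →
    (∀ v ∈ fo F, ((fi F).filter (fun w => i w = o v ∧ (v, w) ∉ D)).card ≤ m) →
    (∀ w ∈ fi F, ((fo F).filter (fun v => o v = i w ∧ (v, w) ∉ D)).card ≤ m) →
    (∀ c, ((fo F).filter (fun v => o v = c)).card = ((fi F).filter (fun w => i w = c)).card) →
    (∀ c, 4 * m < ((fo F).filter (fun v => o v = c)).card) →
    s ∈ fi F → i s = true → t ∈ fo F → o t = false →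
    Relation.ReflTransGen (fun a b => (a, b) ∈ F) s t →
      ∃ σ : Equiv.Perm V, Ham D σ ∧ ∀ v, (v, σ v) ∈ F ∨ o v = i (σ v)

/-- E4a. Adding an arc from a vertex `w` without out-arc to an untouched vertex `v` (new height
`h w + 1` at `v`), or from an untouched vertex `u` to a vertex `w` without in-arc (raise all
heights by one and put height `0` at `u`). -/
def T_E4a : Prop := ∀ (V : Type) [Fintype V] [DecidableEq V] (F : Finset (V × V)) (w v : V),
  Lin F → v ≠ w → (∀ p ∈ F, p.1 ≠ v ∧ p.2 ≠ v) →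
    (w ∈ fo F → Lin (insert (w, v) F)) ∧ (w ∈ fi F → Lin (insert (v, w) F))

/-- E4. Giving every vertex of `W` an in-arc and an out-arc. Deal with the missing ones one after
the other (first all missing out-arcs, then all missing in-arcs; induction on a subset of `W`),
choosing the new vertex outside `W`, `Z` and all vertices touched so far (at most
`2 |F0| + 3 |W| + |Z|` vertices are forbidden: each new arc adds one new vertex besides those of
`W`), joined by a typical arc of `D`. Take T_E4a as a hypothesis. -/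
def T_E4 : Prop := ∀ (V : Type) [Fintype V] [DecidableEq V] (D F0 : Finset (V × V))
  (o i : V → Bool) (W Z : Finset V), Lin F0 → F0 ⊆ D → Disjoint Z W →
    (∀ w ∈ W, 2 * F0.card + 3 * W.card + Z.card <
      ((cls i (o w)).filter (fun v => (w, v) ∈ D)).card) →
    (∀ w ∈ W, 2 * F0.card + 3 * W.card + Z.card <
      ((cls o (i w)).filter (fun v => (v, w) ∈ D)).card) →
      ∃ F : Finset (V × V), F0 ⊆ F ∧ F ⊆ D ∧ Lin F ∧ F.card ≤ F0.card + 2 * W.card ∧
        (∀ w ∈ W, w ∉ fo F ∧ w ∉ fi F) ∧ (∀ p ∈ F, p ∈ F0 ∨ o p.1 = i p.2) ∧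
        (∀ z ∈ Z, z ∈ fo F0 → z ∈ fo F) ∧ (∀ z ∈ Z, z ∈ fi F0 → z ∈ fi F)

/-- E5b. Hamilton cycle from a small balanced linear forest with an anchor `s ... t`. Apply E4
with `Z = {s, t}` and then E3 with the resulting `F`. Balance: the arcs of `F \ F0` are typical, so
`Balanced F o i` follows from `Balanced F0 o i`, and `|fo F ∩ cls o c| = |cls o c| - #{p ∈ F |
o p.1 = c}` because `F` has at most one arc out of each vertex, similarly for `fi F`. Sizes:
`|F| ≤ 3 m + 4`, so the classes of `fo F` have at least `20 m + 20 - (3 m + 4) > 4 m` vertices.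
Take T_E3 and T_E4 as hypotheses. -/
def T_E5b : Prop := ∀ (V : Type) [Fintype V] [DecidableEq V] (D F0 : Finset (V × V))
  (o i : V → Bool) (W : Finset V) (m k : ℕ) (s t : V), Typed D o i W m k → 20 * m + 20 ≤ k →
    Lin F0 → F0 ⊆ D → F0.card ≤ m + 4 → Balanced F0 o i → s ∉ W → t ∉ W → s ∈ fi F0 →
    t ∈ fo F0 → i s = true → o t = false →
    Relation.ReflTransGen (fun a b => (a, b) ∈ F0) s t →
      ∃ σ : Equiv.Perm V, Ham D σ ∧ ∀ v, (v, σ v) ∈ F0 ∨ o v = i (σ v)

/-- E5. One Hamilton cycle in a typed digraph, from a balanced matching `M` and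
(A) a vertex `p0` with `i p0 = true`, `o p0 = false` not touched by `M`, or
(B) `o = i` and an arc `f ∈ M` with `o f.1 = true`, `i f.2 = false`.
A matching is a linear forest (height 0 at tails, 1 at the other vertices).
Case (A), 1: if some `p1 ∉ W` untouched by `M` has `i p1 = true`, `o p1 = false`: E5b with
`F0 = M`, `s = t = p1`.
Case (A), 2: otherwise the set `P = {i = true, o = false}` has at most `|W| + 2 |M| ≤ 3 m + 4`
elements, `p0 ∈ W`, and by balance (label false) the set `S = {i = false, o = true}` has at most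
`|P| + |M| ≤ 4 m + 6` elements. So among the at least `k` typical in-neighbours `r` of `p0`
(`o r = i p0 = true`) there is one outside `W`, `S`, untouched by `M` (so `i r = true`), and among
the typical out-neighbours `q` of `p0` (`i q = o p0 = false`) there is one outside `W`, `S`,
`{r}`, untouched by `M` (so `o q = false`). E5b with `F0 = M ∪ {(r, p0), (p0, q)}`, `s = r`,
`t = q`.
Case (B): `f = (r', q')`. If `r' ∉ W` put `s = r'`, otherwise choose `x ∉ W` untouched by `M` with
`(x, r') ∈ D`, `o x = i r' = true` and put `s = x`, adding `(x, r')`. Similarly `t = q'` or `t = y`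
with `(q', y)` added, `i y = o q' = false`, `y ≠ x`. Take T_E4a and T_E5b as hypotheses. -/
def T_E5 : Prop := ∀ (V : Type) [Fintype V] [DecidableEq V] (D M : Finset (V × V))
  (o i : V → Bool) (W : Finset V) (m k : ℕ), Typed D o i W m k → 20 * m + 20 ≤ k →
    Matching M → M ⊆ D → M.card ≤ m + 2 → Balanced M o i →
    ((∃ p0, i p0 = true ∧ o p0 = false ∧ ∀ q ∈ M, q.1 ≠ p0 ∧ q.2 ≠ p0) ∨
      ((∀ v, o v = i v) ∧ ∃ f ∈ M, o f.1 = true ∧ i f.2 = false)) →
      ∃ σ : Equiv.Perm V, Ham D σ ∧ ∀ v, (v, σ v) ∈ M ∨ o v = i (σ v)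

/-- E6a. Base labels from an extremal pair `X`, `Y`. Put `o v = false` iff `v ∈ X`, `i v = true`
iff `v ∈ Y`. With `ε = 10^(-12)`, `n` vertices, `O_c = cls o c`, `I_c = cls i c`:
`arcs(X, I_false) = Σ_{x ∈ X} d⁺(x) - arcs(X, Y) ≥ |X| n/2 - ε n²`, so
`|X| |I_false| ≥ |X| n/2 - ε n²`, `|I_false| ≥ n/2 - 3 ε n`, and `|I_false| = n - |Y| ≤ n/2 + ε n`;
similarly (in-degrees of `Y`) `|O_true| ≥ n/2 - 3 ε n`, `|O_true| = n - |X| ≤ n/2 + ε n`. Missing
typical arcs: from `O_false` to `I_false` at most `|X| (|I_false| - n/2) + ε n² ≤ 2 ε n²`, from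
`O_true` to `I_true = Y` at most `|Y| (|O_true| - n/2) + ε n² ≤ 2 ε n²`. So at most `4 ε n² / a`
vertices miss more than `a` typical out-arcs, the same for in-arcs; `W` = all these vertices;
`8 ε n² ≤ a²` because `a = n / 100000 ≥ 100`. -/
def T_E6a : Prop := ∀ (V : Type) [Fintype V] [DecidableEq V] (D : Finset (V × V))
  (X Y : Finset V), Loopless D → 10 ^ 7 ≤ Fintype.card V →
    (∀ v, Fintype.card V ≤ 2 * (outN D v).card) → (∀ v, Fintype.card V ≤ 2 * (inN D v).card) →
    (1 / 2 - 1 / 10 ^ 12) * (Fintype.card V : ℝ) ≤ (X.card : ℝ) →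
    (1 / 2 - 1 / 10 ^ 12) * (Fintype.card V : ℝ) ≤ (Y.card : ℝ) →
    (arcs D X Y : ℝ) < 1 / 10 ^ 12 * (Fintype.card V : ℝ) ^ 2 →
      ∃ (o i : V → Bool) (W : Finset V), Base D o i W (Fintype.card V / 100000)

/-- E6b. Re-typing. Write `Ob_c = cls o0 c`, `Ib_c = cls i0 c` (base classes).
Step 1: for `v ∈ W0` let `o1 v = c` with `4 |N⁺(v) ∩ Ib_c| ≥ n` (exists as `2 d⁺(v) ≥ n`), for
`v ∉ W0` let `o1 v = o0 v`; similarly `i1`. Then `|O1_false| - |I1_false|` is between `-4 a` and
`4 a`; if it is negative exchange the two labels everywhere (also in `o0, i0`; all hypotheses are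
symmetric), so let `d1 = |O1_false| - |I1_false| ≥ 0`.
Step 2: `A = {v | o1 v = false, 300 |N⁺(v) ∩ Ib_true| ≥ n}`,
`B = {v | i1 v = true, 300 |N⁻(v) ∩ Ob_false| ≥ n}`. Choose `A' ⊆ A`, `B' ⊆ B` with
`|A'| + |B'| = min d1 (|A| + |B|)`, let `o` be `o1` changed to `true` on `A'` and `i` be `i1`
changed to `false` on `B'`; `d = d1 - |A'| - |B'| ≥ 0`; if `d > 0` then `A' = A`, `B' = B`.
`W = W0 ∪ A' ∪ B'` has at most `5 a` elements, `o = o0`, `i = i0` outside `W`, so all classes
change by at most `5 a` elements. Every `v` has `300 |N⁺(v) ∩ Ib_{o v}| ≥ n` (outside `W` because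
`≤ a` typical arcs are missing), hence at least `n/300 - 5 a ≥ 180 a` typical out-arcs; similarly
in-arcs. If `d > 0`: `250 (n/300 + 5 a) ≤ n`. -/
def T_E6b : Prop := ∀ (V : Type) [Fintype V] [DecidableEq V] (D : Finset (V × V))
  (o0 i0 : V → Bool) (W0 : Finset V) (a : ℕ), Loopless D → Base D o0 i0 W0 a → 1 ≤ a →
    100000 * a ≤ Fintype.card V →
    (∀ v, Fintype.card V ≤ 2 * (outN D v).card) → (∀ v, Fintype.card V ≤ 2 * (inN D v).card) →
      ∃ (o i : V → Bool) (W : Finset V) (d : ℕ), Typed D o i W (6 * a) (180 * a) ∧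
        (cls o false).card = (cls i false).card + d ∧ d ≤ 4 * a ∧
        (0 < d →
          (∀ v, o v = false →
            250 * ((cls i true).filter (fun w => (v, w) ∈ D)).card ≤ Fintype.card V) ∧
          (∀ w, i w = true →
            250 * ((cls o false).filter (fun v => (v, w) ∈ D)).card ≤ Fintype.card V)) ∧
        ∀ c, 2 * Fintype.card V ≤ 5 * (cls o c).card ∧ 2 * Fintype.card V ≤ 5 * (cls i c).card

/-- E6c. `2 d` vertex-disjoint arcs from `O_false` to `I_true` avoiding `p0`. Since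
`2 d = (n - 2 |I_false|) + (n - 2 |O_true|)`, one of the two summands is at least `d`. If
`n - 2 |I_false| ≥ d`, each `v` with `o v = false` has at least `d/2` arcs to `I_true`; otherwise
each `w ∈ I_true` has at least `d/2` arcs from `O_false`. So there are at least
`(2n/5)(d/2) = n d / 5` such arcs. Each vertex is the tail of at most `n/250` and the head of at
most `n/250` of them. Take a largest matching `M` of such arcs avoiding `p0`; if `|M| < 2 d`, all
such arcs touch `p0` or a vertex of `M`, so there are at most `(2 |M| + 1) 2 n/250 ≤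
(4 d - 1) n / 125 < n d / 5`. (Then take a subset with exactly `2 d` elements.) -/
def T_E6c : Prop := ∀ (V : Type) [Fintype V] [DecidableEq V] (D : Finset (V × V))
  (o i : V → Bool) (d : ℕ), Loopless D → 0 < Fintype.card V → 0 < d →
    (cls o false).card = (cls i false).card + d →
    (∀ v, Fintype.card V ≤ 2 * (outN D v).card) → (∀ v, Fintype.card V ≤ 2 * (inN D v).card) →
    (∀ v, o v = false →
      250 * ((cls i true).filter (fun w => (v, w) ∈ D)).card ≤ Fintype.card V) →
    (∀ w, i w = true →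
      250 * ((cls o false).filter (fun v => (v, w) ∈ D)).card ≤ Fintype.card V) →
    (∀ c, 2 * Fintype.card V ≤ 5 * (cls o c).card ∧ 2 * Fintype.card V ≤ 5 * (cls i c).card) →
      ∀ p0 : V, ∃ M : Finset (V × V), M ⊆ D ∧ Matching M ∧ M.card = 2 * d ∧
        (∀ p ∈ M, o p.1 = false ∧ i p.2 = true) ∧ ∀ p ∈ M, p.1 ≠ p0 ∧ p.2 ≠ p0

/-- E7. Two near-cliques `Q = {o = false}`, `R = {o = true}`. An `e`-arc goes from `Q` to `R`, an
`f`-arc from `R` to `Q`; `e` and `f` are compatible if they have no common vertex.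
Case `|Q| ≠ |R|`: by symmetry `|Q| < |R|`, so `2 |Q| < n` and each `q ∈ Q` has at least
`n/2 - (|Q| - 1) > 1`, i.e. at least 2 out-neighbours in `R` and at least 2 in-neighbours in `R`.
Take four different vertices `q1, q1', q2, q2'` of `Q`, `e_j = (q_j, r_j)` any, and
`f_j = (r_j', q_j')` with `r_j' ≠ r_j`. (If `|R| < |Q|` the same with the roles exchanged.)
Case `|Q| = |R| = n/2`: every vertex has an out-neighbour and an in-neighbour in the other set.
(i) Suppose some `e`-arc `(q, r)` has no compatible `f`-arc, i.e. every `f`-arc starts at `r` or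
ends in `q`. Then every `r' ∈ R`, `r' ≠ r`, has `(r', q)` as its `f`-arc. Take `q1, q2 ∈ Q` different
from each other and from `q`, `e_j = (q_j, r_j)` any, and `f_j = (r_j', q)` with `r_j'` different
from `r, r_1, r_2`, and `r_1' ≠ r_2'`.
(ii) Otherwise take any `e1`, a compatible `f1 = (r1', q1')`, an `e2` with tail `q1'` (so
`e2 ≠ e1`), and `f2` compatible with `e2`; the head of `f2` is not `q1'`, so `f2 ≠ f1`. -/
def T_E7 : Prop := ∀ (V : Type) [Fintype V] [DecidableEq V] (D : Finset (V × V)) (o : V → Bool),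
  Loopless D →
    (∀ v, Fintype.card V ≤ 2 * (outN D v).card) → (∀ v, Fintype.card V ≤ 2 * (inN D v).card) →
    (∀ c, 10 ≤ (cls o c).card) →
      ∃ e1 f1 e2 f2 : V × V, e1 ∈ D ∧ f1 ∈ D ∧ e2 ∈ D ∧ f2 ∈ D ∧
        (o e1.1 = false ∧ o e1.2 = true ∧ o f1.1 = true ∧ o f1.2 = false) ∧
        (o e2.1 = false ∧ o e2.2 = true ∧ o f2.1 = true ∧ o f2.2 = false) ∧
        (e1.1 ≠ f1.2 ∧ e1.2 ≠ f1.1) ∧ (e2.1 ≠ f2.2 ∧ e2.2 ≠ f2.1) ∧ e1 ≠ e2 ∧ f1 ≠ f2

/-- E8. Two Hamilton cycles in a typed digraph. Let `P = {i = true, o = false}`.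
Case `P ≠ ∅`: choose `p0 ∈ P` and the matching `M` of `2 d` arcs avoiding `p0`, split it in two
halves `M1`, `M2` of `d` arcs. `Balanced Mj` holds. E5 (A) gives `σ`, and E5 (A) for
`D' = D.filter (fun p => σ p.1 ≠ p.2)` with `m + 1`, `k - 1` and `M2 ⊆ D'` gives `τ`. (`M2 ⊆ D'`
because the arcs of `σ` are in `M1` or typical.)
Case `P = ∅`: counting gives `|{i = false, o = true}| + d = |P| = 0`, so `d = 0` and `o = i`. E7
gives `e1, f1, e2, f2`; E5 (B) with `M1 = {e1, f1}` and then with `M2 = {e2, f2}` in `D'`.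
Take T_E5 and T_E7 as hypotheses. -/
def T_E8 : Prop := ∀ (V : Type) [Fintype V] [DecidableEq V] (D : Finset (V × V))
  (o i : V → Bool) (W : Finset V) (m k d : ℕ), Typed D o i W m k → 20 * m + 50 ≤ k →
    (∀ v, Fintype.card V ≤ 2 * (outN D v).card) → (∀ v, Fintype.card V ≤ 2 * (inN D v).card) →
    (cls o false).card = (cls i false).card + d → d ≤ m →
    (∀ p0 : V, ∃ M : Finset (V × V), M ⊆ D ∧ Matching M ∧ M.card = 2 * d ∧
        (∀ p ∈ M, o p.1 = false ∧ i p.2 = true) ∧ ∀ p ∈ M, p.1 ≠ p0 ∧ p.2 ≠ p0) →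
      ∃ σ τ : Equiv.Perm V, Ham D σ ∧ Ham D τ ∧ ∀ v, σ v ≠ τ v

/-- E9. The extremal case: combine E6a, E6b (with `a = n / 100000`), E6c (if `d = 0` the matching
is empty) and E8 (with `m = 6 a`, `k = 180 a`). -/
def T_E9 : Prop := ∃ n0 : ℕ,
  ∀ (V : Type) [Fintype V] [DecidableEq V] (D : Finset (V × V)),
    n0 ≤ Fintype.card V → Loopless D →
    (∀ v, Fintype.card V ≤ 2 * (outN D v).card) → (∀ v, Fintype.card V ≤ 2 * (inN D v).card) →
    ¬ NonExt D (1 / 10 ^ 12) → ∃ σ τ : Equiv.Perm V, Ham D σ ∧ Ham D τ ∧ ∀ v, σ v ≠ τ v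

/-! ## The theorem for arc sets -/

/-- Z1. Main theorem in the form for arc sets (N2 with `ε = 10^(-12)` and E9). -/
def T_Z1 : Prop := ∃ n0 : ℕ,
  ∀ (V : Type) [Fintype V] [DecidableEq V] (D : Finset (V × V)),
    n0 ≤ Fintype.card V → Loopless D →
    (∀ v, Fintype.card V ≤ 2 * (outN D v).card) → (∀ v, Fintype.card V ≤ 2 * (inN D v).card) →
    ∃ σ τ : Equiv.Perm V, Ham D σ ∧ Ham D τ ∧ ∀ v, σ v ≠ τ v

/-- G1. A Hamilton permutation of `Fin n` enumerated by the cyclic group: `c i = σ ^ i (0)`. -/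
def T_G1 : Prop := ∀ (n : ℕ) (D : Finset (Fin n × Fin n)) (σ : Equiv.Perm (Fin n)), 0 < n →
  Ham D σ → ∃ c : ZMod n ≃ Fin n, ∀ i, σ (c i) = c (i + 1)

end Pool.Agent.TEH
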